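import Pool.Agent.HC.Defs

/-!
# HC module FinIdx: finite index overgroups of finitely presented groups (diff 2)

`fp_indep`: the kernel of every surjection from a finitely generated free group to a finitely
presented group is the normal closure of a finite set.  PROOF.  Let `N` be finitely presented,
`φ : Φ → N` surjective, `Φ` free on a finite set `a₁, …, a_m` (or `Φ = FreeGroup (Fin m)`), and
`ψ : FreeGroup (Fin n) → N` surjective with kernel the normal closure of a finite set `S`.  Choose
`θ : FreeGroup (Fin n) → Φ` with `φ (θ (of i)) = ψ (of i)` and `θ' : Φ → FreeGroup (Fin n)` with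
`ψ (θ' (a_j)) = φ (a_j)` (lifts exist by surjectivity; `Φ` is free), so `φ ∘ θ = ψ`, `ψ ∘ θ' = φ`.
Let `M` be the normal closure in `Φ` of the finite set `θ '' S ∪ {a_j⁻¹ * θ (θ' (a_j))}`.
`M ≤ φ.ker`.  Conversely let `φ x = 1`.  Modulo `M` `x = θ (θ' x)` (both are homomorphisms of `x` to
`Φ ⧸ M`, equal on the `a_j`), and `θ' x ∈ ψ.ker`, the normal closure of `S`, so `θ (θ' x) ∈ M`
(the preimage of `M` under `θ` is normal and contains `S`).

`fp_of_index`.  `H` is finitely generated: `N` is, and has finite index (`Subgroup` version: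
`Group.fg_of_...`; or: `H` is generated by the generators of `N` and a finite set of representatives
of the cosets `H ⧸ N`; a transversal).  Let `f : FreeGroup (Fin m) →* H` be surjective, and
`Φ = N.comap f`, a subgroup of finite index of `FreeGroup (Fin m)`; it is finitely generated
(`Subgroup.fg_of_index_ne_zero`) and free (`subgroupIsFreeOfIsFree`), hence free on a finite set (a
free group which is finitely generated has a finite basis: e.g. the abelianization of the free group
on the set of generators is a free abelian group of that rank; `IsFreeGroup` / `FreeGroupBasis`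
API; alternatively avoid this: it is enough to know `fp_indep` for every finitely generated `Φ` with
a surjection `π : FreeGroup (Fin m') → Φ`, as follows: apply `fp_indep` to `φ ∘ π` where
`φ : Φ → N`, then `φ.ker = map π (φ ∘ π).ker` is the normal closure of the image of a finite set,
`Subgroup.map_normalClosure`, `π` surjective).  So the kernel of
`φ : Φ → N`, `x ↦ f x`, is the normal closure in `Φ` of a finite set `S ⊆ Φ`.  The kernel of `f` is
the image of this kernel in `FreeGroup (Fin m)` (`f x = 1` implies `x ∈ Φ`), so it is contained in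
the normal closure of `S` in `FreeGroup (Fin m)`, which is contained in `f.ker`.
-/

set_option autoImplicit false

namespace Pool.Agent.HC

theorem fp_indep {N : Type} [Group N] (hN : Group.IsFinitelyPresented N) {Φ : Type} [Group Φ]
    (hΦ : Group.FG Φ) (φ : Φ →* N) (hφ : Function.Surjective φ) :
    ∃ S : Set Φ, S.Finite ∧ Subgroup.normalClosure S = φ.ker := by
  classical
  obtain ⟨n, ψ, hψ, S, hS, hSk⟩ := hN.out
  obtain ⟨A, hA⟩ := hΦ.out
  choose t ht using fun i : Fin n => hφ (ψ (FreeGroup.of i))
  choose w hw using fun a : Φ => hψ (φ a)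
  let θ : FreeGroup (Fin n) →* Φ := FreeGroup.lift t
  have hθ : φ.comp θ = ψ := by
    ext i
    simp only [θ, MonoidHom.comp_apply, FreeGroup.lift_apply_of]
    exact ht i
  have hθ' : ∀ x, φ (θ x) = ψ x := fun x => DFunLike.congr_fun hθ x
  let T : Set Φ := θ '' S ∪ (fun a : Φ => a⁻¹ * θ (w a)) '' (A : Set Φ)
  refine ⟨T, (hS.image _).union (A.finite_toSet.image _), ?_⟩
  have hle : Subgroup.normalClosure T ≤ φ.ker := by
    apply Subgroup.normalClosure_le_normal
    rintro x (⟨s, hs, rfl⟩ | ⟨a, -, rfl⟩)
    · show φ (θ s) = 1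
      rw [hθ']
      have : s ∈ ψ.ker := by rw [← hSk]; exact Subgroup.subset_normalClosure hs
      exact this
    · show φ (a⁻¹ * θ (w a)) = 1
      rw [map_mul, map_inv, hθ', hw, inv_mul_cancel]
  refine le_antisymm hle ?_
  intro x hx
  set M := Subgroup.normalClosure T with hM
  have hsurj : ((QuotientGroup.mk' M).comp θ).range.comap (QuotientGroup.mk' M) = ⊤ := by
    rw [eq_top_iff, ← hA, Subgroup.closure_le]
    intro a ha
    refine ⟨w a, ?_⟩
    show QuotientGroup.mk (θ (w a)) = (QuotientGroup.mk a : Φ ⧸ M)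
    symm
    rw [QuotientGroup.eq]
    exact Subgroup.subset_normalClosure (Or.inr ⟨a, ha, rfl⟩)
  have hx2 : x ∈ ((QuotientGroup.mk' M).comp θ).range.comap (QuotientGroup.mk' M) := by
    rw [hsurj]; trivial
  obtain ⟨v, hv⟩ := hx2
  have hv' : (QuotientGroup.mk (θ v) : Φ ⧸ M) = QuotientGroup.mk x := hv
  rw [QuotientGroup.eq] at hv'
  have h1 : φ ((θ v)⁻¹ * x) = 1 := hle hv'
  have hx1 : φ x = 1 := hx
  rw [map_mul, map_inv, hx1, mul_one, inv_eq_one, hθ'] at h1
  have h2 : v ∈ Subgroup.normalClosure S := by rw [hSk]; exact h1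
  have h3 : Subgroup.normalClosure S ≤ M.comap θ := by
    apply Subgroup.normalClosure_le_normal
    intro s hs
    exact Subgroup.subset_normalClosure (Or.inl ⟨s, hs, rfl⟩)
  have h4 : θ v ∈ M := h3 h2
  have h5 := M.mul_mem h4 hv'
  rwa [mul_inv_cancel_left] at h5

theorem fp_of_index {H : Type} [Group H] (N : Subgroup H) (hi : N.FiniteIndex)
    (hN : Group.IsFinitelyPresented N) : Group.IsFinitelyPresented H := by
  classical
  have hNfg : N.FG := by
    obtain ⟨n, ψ, hψ, -⟩ := hN.out
    have : Group.FG N := Group.fg_of_surjective hψ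
    exact (Group.fg_iff_subgroup_fg N).1 this
  have hH : Group.FG H := by
    obtain ⟨S, hS⟩ := hNfg
    have hq : Finite (H ⧸ N) := Subgroup.finite_quotient_of_finiteIndex
    have hfin : (Set.range (fun q : H ⧸ N => Quotient.out q)).Finite := Set.finite_range _
    refine ⟨S ∪ hfin.toFinset, ?_⟩
    rw [eq_top_iff]
    intro h _
    have h1 : (QuotientGroup.mk h : H ⧸ N).out ∈
        Subgroup.closure (((S ∪ hfin.toFinset : Finset H)) : Set H) := by
      apply Subgroup.subset_closure
      rw [Finset.coe_union, Set.Finite.coe_toFinset]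
      exact Or.inr ⟨_, rfl⟩
    have h2 : ((QuotientGroup.mk h : H ⧸ N).out)⁻¹ * h ∈
        Subgroup.closure (((S ∪ hfin.toFinset : Finset H)) : Set H) := by
      have h3 : ((QuotientGroup.mk h : H ⧸ N).out)⁻¹ * h ∈ N := by
        rw [← QuotientGroup.eq]
        exact Quotient.out_eq _
      have h5 : ((QuotientGroup.mk h : H ⧸ N).out)⁻¹ * h ∈ Subgroup.closure (S : Set H) := by
        rw [hS]; exact h3
      refine Subgroup.closure_mono ?_ h5
      rw [Finset.coe_union]
      exact Set.subset_union_left
    have h4 := Subgroup.mul_mem _ h1 h2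
    rwa [mul_inv_cancel_left] at h4
  obtain ⟨m, f, hf⟩ : ∃ (m : ℕ) (f : FreeGroup (Fin m) →* H), Function.Surjective f := by
    obtain ⟨S, hS⟩ := hH.out
    refine ⟨S.card, FreeGroup.lift (fun i => ((S.equivFin.symm i : S) : H)), ?_⟩
    rw [← MonoidHom.range_eq_top, FreeGroup.range_lift_eq_closure, eq_top_iff, ← hS]
    apply Subgroup.closure_mono
    intro x hx
    exact ⟨S.equivFin ⟨x, hx⟩, by simp⟩
  let Φ : Subgroup (FreeGroup (Fin m)) := N.comap f
  have hΦi : Φ.FiniteIndex := ⟨by
    show (N.comap f).index ≠ 0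
    rw [Subgroup.index_comap_of_surjective N hf]
    exact hi.index_ne_zero⟩
  have hΦ : Group.FG Φ := Subgroup.fg_of_index_ne_zero Φ
  let φ : Φ →* N := f.subgroupComap N
  have hφ : Function.Surjective φ := by
    rintro ⟨x, hx⟩
    obtain ⟨y, rfl⟩ := hf x
    exact ⟨⟨y, hx⟩, rfl⟩
  obtain ⟨S, hS, hSk⟩ := fp_indep hN hΦ φ hφ
  refine ⟨m, f, hf, (Subtype.val : Φ → FreeGroup (Fin m)) '' S, hS.image _, ?_⟩
  apply le_antisymm
  · apply Subgroup.normalClosure_le_normal
    rintro x ⟨s, hs, rfl⟩
    have h1 : s ∈ φ.ker := by rw [← hSk]; exact Subgroup.subset_normalClosure hs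
    have h2 : φ s = 1 := h1
    show f s = 1
    have h3 : ((φ s : N) : H) = 1 := by rw [h2]; rfl
    exact h3
  · intro x hx
    have hx1 : f x = 1 := hx
    have hxΦ : x ∈ Φ := by
      show f x ∈ N
      rw [hx1]; exact N.one_mem
    have h1 : (⟨x, hxΦ⟩ : Φ) ∈ φ.ker := by
      show φ ⟨x, hxΦ⟩ = 1
      apply Subtype.ext
      exact hx1
    rw [← hSk] at h1
    have h2 : Subgroup.normalClosure S ≤
        (Subgroup.normalClosure ((Subtype.val : Φ → FreeGroup (Fin m)) '' S)).comap Φ.subtype := by
      apply Subgroup.normalClosure_le_normal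
      intro s hs
      exact Subgroup.subset_normalClosure ⟨s, hs, rfl⟩
    exact h2 h1

end Pool.Agent.HC
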