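import Pool.Agent.HC.OneS
import Pool.Agent.HC.FinIdx

/-!
# HC module Cls: the class `𝒦` (diff 2)

PROOF of `classK_main`: induction on `ClassK G`.  The claim is, for every group `L` with an injective
homomorphism `f : L →* G`: if `L` is homologically coherent then it is coherent.
Let `M ≤ L` be a finitely generated subgroup; we must show that `M` is finitely presented.  Note that
subgroups of homologically coherent groups are homologically coherent (a finitely generated subgroup
`M'` of `M` gives the subgroup `M'.map M.subtype` of `L`, isomorphic to `M'`; `IsFP2` and
`IsFinitelyPresented` are invariant under isomorphism), and for coherent groups the same.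
* `coherent`: the image of `M` in `G` is finitely generated and isomorphic to `M`.
* `locally`: let `M₀ = (M.map f)`, a finitely generated subgroup of `G`, with the injective
  homomorphism to `K M₀`; so `M` embeds in `K M₀`, and the induction hypothesis says that `M` (which
  is homologically coherent) is coherent; its subgroup `⊤` is finitely generated, so `M ≃* ⊤` is
  finitely presented.
* `finiteIndex`: let `M' = N.comap (f ∘ M.subtype)`, a subgroup of finite index of `M`, finitely
  generated (`Subgroup.fg_of_index_ne_zero`).  It embeds in `N`, so by induction it is coherent,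
  hence finitely presented, and `M` is finitely presented by `fp_of_index`.
* `cube`: `M` is of type `FP₂` (`L` is homologically coherent) and acts on `V` through
  `f` (`MulAction.compHom`; let `φ = f ∘ M.subtype : M →* G`, injective).  `CubeAct M V X` holds: only
  the slenderness needs an argument: a subgroup `K` of `M` fixing a square has image `K.map φ` in `G`
  fixing the square, so `K.map φ` is finitely generated and so is `K` (`φ` is injective;
  `Subgroup.fg_iff` / `Subgroup.FG.map` of the inverse, or `Subgroup.equivMapOfInjective`).  If `K ≤ M`
  is finitely generated and fixes `v`, then it embeds in `MulAction.stabilizer G v`, and it is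
  homologically coherent, so by induction it is coherent, and (`⊤`) finitely presented.  Now
  `oneStep` applies to `M`.
`classK_coherent`: `L = G`, `f = id`.
`act_fp`: `oneStep`: a finitely generated subgroup `K` of `G` fixing `v` is contained in the
stabilizer of `v`, which is coherent.
-/

set_option autoImplicit false

namespace Pool.Agent.HC

/-- The class `𝒦`: the smallest class of groups which contains all coherent groups, contains every
group all of whose finitely generated subgroups embed in groups of the class, contains every group
with a subgroup of finite index in the class, and contains every group which acts without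
inversions on a CAT(0) cube complex of dimension at most two (for instance, on a tree) with vertex
stabilizers in the class and slender square stabilizers. -/
inductive ClassK : (G : Type) → Group G → Prop
  | coherent (G : Type) [i : Group G] : Coherent G → ClassK G i
  | locally (G : Type) [i : Group G] (K : Subgroup G → Type) [iK : ∀ L, Group (K L)]
      (f : ∀ L : Subgroup G, L →* K L) :
      (∀ L : Subgroup G, L.FG → Function.Injective (f L)) →
      (∀ L : Subgroup G, L.FG → ClassK (K L) (iK L)) → ClassK G i
  | finiteIndex (G : Type) [i : Group G] (N : Subgroup G) :
      N.FiniteIndex → ClassK N inferInstance → ClassK G i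
  | cube (G : Type) [i : Group G] (V : Type) [MulAction G V] (X : SimpleGraph V) :
      CubeAct G V X → (∀ v : V, ClassK (MulAction.stabilizer G v) inferInstance) → ClassK G i

theorem Cls_fp2_equiv {G H : Type} [Group G] [Group H] (e : G ≃* H) (h : IsFP2 G) : IsFP2 H := by
  obtain ⟨n, f, hf, S, hS, hk⟩ := h
  have hker : ((e : G →* H).comp f).ker = f.ker := f.ker_mulEquiv_comp e
  refine ⟨n, (e : G →* H).comp f, e.surjective.comp hf, S, ?_, ?_⟩
  · intro s hs
    rw [MonoidHom.comp_apply, hS s hs, map_one]
  · rw [hker]
    exact hk

theorem Cls_map {M L : Type} [Group M] [Group L] {K : Subgroup M} (h : K.FG) (f : M →* L) :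
    (K.map f).FG := by
  have h1 : Group.FG K := (Group.fg_iff_subgroup_fg K).2 h
  have h2 : Group.FG (K.map f) := Group.fg_of_surjective (f := f.subgroupMap K)
    (f.subgroupMap_surjective K)
  exact (Group.fg_iff_subgroup_fg _).1 h2

theorem Cls_fin {M L : Type} [Group M] [Group L] {N : Subgroup L} (h : N.FiniteIndex) (f : M →* L) :
    (N.comap f).FiniteIndex := by
  refine ⟨?_⟩
  rw [Subgroup.index_comap]
  exact (Subgroup.instFiniteIndex_subgroupOf N f.range).index_ne_zero

theorem Cls_hom_inj {M L : Type} [Group M] [Group L] (f : M →* L) (hf : Function.Injective f)
    (h : HomCoherent L) : HomCoherent M := by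
  intro K hK
  exact Cls_fp2_equiv (K.equivMapOfInjective f hf).symm (h (K.map f) (Cls_map hK f))

theorem Cls_coh_inj {M L : Type} [Group M] [Group L] (f : M →* L) (hf : Function.Injective f)
    (h : Coherent L) : Coherent M := by
  intro K hK
  have h1 := h (K.map f) (Cls_map hK f)
  exact Group.IsFinitelyPresented.equiv (K.equivMapOfInjective f hf).symm

theorem Cls_self {G : Type} [Group G] (h : Coherent G) (hG : Group.FG G) :
    Group.IsFinitelyPresented G := by
  have h1 := h ⊤ hG.out
  exact Group.IsFinitelyPresented.equiv Subgroup.topEquiv

theorem Cls_FG {G : Type} [Group G] {K : Subgroup G} (h : K.FG) : Group.FG K :=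
  (Group.fg_iff_subgroup_fg K).2 h

theorem Cls_main (G : Type) (i : Group G) (hG : ClassK G i) : ∀ (L : Type) [Group L]
    (f : L →* G), Function.Injective f → HomCoherent L → Coherent L := by
  induction hG with
  | coherent G h =>
    intro L _ f hf _
    exact Cls_coh_inj f hf h
  | locally G K f hf hK ih =>
    intro L _ f' hf' hL M hM
    have hM₀ : (M.map f').FG := Cls_map hM f'
    have hc : Coherent M := ih (M.map f') hM₀ M
      ((f (M.map f')).comp (M.equivMapOfInjective f' hf').toMonoidHom)
      ((hf (M.map f') hM₀).comp (M.equivMapOfInjective f' hf').injective)
      (Cls_hom_inj M.subtype M.subtype_injective hL)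
    exact Cls_self hc (Cls_FG hM)
  | finiteIndex G N hN hK ih =>
    intro L _ f hf hL M hM
    have hMF := Cls_FG hM
    have hφ : Function.Injective (f.comp M.subtype) := hf.comp M.subtype_injective
    have hfin : (N.comap (f.comp M.subtype)).FiniteIndex := Cls_fin hN _
    have hfg : Group.FG (N.comap (f.comp M.subtype)) := inferInstance
    have hc : Coherent (N.comap (f.comp M.subtype)) := by
      refine ih _ (((f.comp M.subtype).comp (N.comap (f.comp M.subtype)).subtype).codRestrict N
        fun x => x.2) ?_ ?_
      · intro x y hxy
        exact Subtype.ext (hφ (congrArg Subtype.val hxy))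
      · exact Cls_hom_inj (M.subtype.comp (N.comap (f.comp M.subtype)).subtype)
          (M.subtype_injective.comp (Subgroup.subtype_injective _)) hL
    exact fp_of_index _ hfin (Cls_self hc hfg)
  | cube G V X hX hK ih =>
    intro L _ f hf hL M hM
    have hφ : Function.Injective (f.comp M.subtype) := hf.comp M.subtype_injective
    let act : MulAction M V := MulAction.compHom V (f.comp M.subtype)
    have hML : HomCoherent M := Cls_hom_inj M.subtype M.subtype_injective hL
    have hcube : CubeAct M V X := by
      refine ⟨hX.med, hX.dim, fun g x y h => hX.adj (f g) x y h,
        fun g x y h h' => hX.inv (f g) x y h h', ?_⟩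
      intro x₁ x₂ x₃ x₄ hsq K hK'
      have h1 : (K.map (f.comp M.subtype)).FG := by
        refine hX.slender x₁ x₂ x₃ x₄ hsq _ ?_
        rintro _ ⟨g, hg, rfl⟩
        exact hK' g hg
      have h2 := Cls_FG h1
      have h3 : Group.FG K := Group.fg_of_surjective
        (f := (K.equivMapOfInjective (f.comp M.subtype) hφ).symm.toMonoidHom)
        (K.equivMapOfInjective (f.comp M.subtype) hφ).symm.surjective
      exact (Group.fg_iff_subgroup_fg K).1 h3
    refine oneStep X hcube ?_ (hL M hM)
    intro v K hKfg hfix
    have hc : Coherent K := by
      refine ih v K (((f.comp M.subtype).comp K.subtype).codRestrict (MulAction.stabilizer G v)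
        fun x => hfix x.1 x.2) ?_ (Cls_hom_inj K.subtype K.subtype_injective hML)
      intro x y hxy
      exact Subtype.ext (hφ (congrArg Subtype.val hxy))
    exact Cls_self hc (Cls_FG hKfg)

theorem classK_main (G : Type) (i : Group G) (hG : ClassK G i) (L : Type) [Group L]
    (f : L →* G) (hf : Function.Injective f) (hL : HomCoherent L) : Coherent L :=
  Cls_main G i hG L f hf hL

theorem classK_coherent (G : Type) [i : Group G] (hG : ClassK G i) (h : HomCoherent G) :
    Coherent G :=
  classK_main G i hG G (MonoidHom.id G) Function.injective_id h

theorem act_fp (G : Type) [Group G] (V : Type) [MulAction G V] (X : SimpleGraph V)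
    (hX : CubeAct G V X) (hst : ∀ v : V, Coherent (MulAction.stabilizer G v))
    (hG : IsFP2 G) : Group.IsFinitelyPresented G := by
  refine oneStep X hX ?_ hG
  intro v K hK hfix
  have hc : Coherent K := by
    refine Cls_coh_inj (K.subtype.codRestrict (MulAction.stabilizer G v) fun x => hfix x.1 x.2) ?_
      (hst v)
    intro x y hxy
    have h1 : (x : G) = (y : G) :=
      congrArg (fun z : MulAction.stabilizer G v => (z : G)) hxy
    exact Subtype.ext h1
  exact Cls_self hc (Cls_FG hK)

end Pool.Agent.HC
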