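import Pool.Agent.HC.Defs

/-!
# HC module Crs: crossed homomorphisms on free groups (proved)

`crs f₀ v w h` is the value on `w` of the crossed homomorphism with values in the functions on `H`
with `crs f₀ v (of k) h = v k h` and `crs f₀ v (w w') h = crs f₀ v w h * crs f₀ v w' (h * f₀ w)`.
-/

set_option autoImplicit false

namespace Pool.Agent.HC

variable {H : Type} [Group H] {Q : Type} [Group Q] {n : ℕ}

/-- Right translation of functions on `H`. -/
def crsAut (H : Type) [Group H] (Q : Type) [Group Q] : H →* MulAut (H → Q) where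
  toFun g :=
    { toFun := fun F h => F (h * g)
      invFun := fun F h => F (h * g⁻¹)
      left_inv := fun F => by funext h; simp [mul_assoc]
      right_inv := fun F => by funext h; simp [mul_assoc]
      map_mul' := fun F F' => rfl }
  map_one' := by ext F h; simp
  map_mul' g g' := by ext F h; simp [mul_assoc]

/-- The homomorphism to the semidirect product. -/
def crsHom (f₀ : FreeGroup (Fin n) →* H) (v : Fin n → H → Q) :
    FreeGroup (Fin n) →* (H → Q) ⋊[crsAut H Q] H :=
  FreeGroup.lift fun k => ⟨v k, f₀ (FreeGroup.of k)⟩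

/-- The crossed homomorphism. -/
def crs (f₀ : FreeGroup (Fin n) →* H) (v : Fin n → H → Q) (w : FreeGroup (Fin n)) (h : H) : Q :=
  (crsHom f₀ v w).left h

theorem crsHom_right (f₀ : FreeGroup (Fin n) →* H) (v : Fin n → H → Q) (w : FreeGroup (Fin n)) :
    (crsHom f₀ v w).right = f₀ w := by
  have h : (SemidirectProduct.rightHom.comp (crsHom f₀ v)) = f₀ := by
    ext k
    simp [crsHom]
  exact congrArg (fun φ : FreeGroup (Fin n) →* H => φ w) h

theorem crs_of (f₀ : FreeGroup (Fin n) →* H) (v : Fin n → H → Q) (k : Fin n) (h : H) :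
    crs f₀ v (FreeGroup.of k) h = v k h := by
  simp [crs, crsHom]

theorem crs_one (f₀ : FreeGroup (Fin n) →* H) (v : Fin n → H → Q) (h : H) :
    crs f₀ v 1 h = 1 := by
  simp [crs]

theorem crs_mul (f₀ : FreeGroup (Fin n) →* H) (v : Fin n → H → Q) (w w' : FreeGroup (Fin n))
    (h : H) : crs f₀ v (w * w') h = crs f₀ v w h * crs f₀ v w' (h * f₀ w) := by
  rw [crs, map_mul, SemidirectProduct.mul_left, crsHom_right]
  rfl

theorem crs_inv (f₀ : FreeGroup (Fin n) →* H) (v : Fin n → H → Q) (w : FreeGroup (Fin n))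
    (h : H) : crs f₀ v w⁻¹ h = (crs f₀ v w (h * (f₀ w)⁻¹))⁻¹ := by
  have h1 := crs_mul f₀ v w⁻¹ w h
  rw [inv_mul_cancel, crs_one, map_inv] at h1
  exact eq_inv_of_mul_eq_one_left h1.symm

/-- Two functions satisfying the crossed product rule which agree on the generators are equal. -/
theorem crs_unique (f₀ : FreeGroup (Fin n) →* H) (v : Fin n → H → Q)
    (c : FreeGroup (Fin n) → H → Q)
    (hc : ∀ w w' h, c (w * w') h = c w h * c w' (h * f₀ w))
    (hv : ∀ k h, c (FreeGroup.of k) h = v k h) (w : FreeGroup (Fin n)) (h : H) :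
    crs f₀ v w h = c w h := by
  have h1 : ∀ h, c 1 h = 1 := by
    intro h
    have := hc 1 1 h
    rw [mul_one, map_one, mul_one] at this
    exact (mul_eq_left.1 this.symm)
  revert h
  induction w using FreeGroup.induction_on with
  | C1 => intro h; rw [crs_one, h1]
  | of k => intro h; rw [crs_of, hv]
  | inv_of k ih =>
    intro h
    rw [crs_inv, crs_of]
    have h2 := hc (FreeGroup.of k)⁻¹ (FreeGroup.of k) h
    rw [inv_mul_cancel, h1, map_inv, hv] at h2
    exact (eq_inv_of_mul_eq_one_left h2.symm).symm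
  | mul x y ihx ihy =>
    intro h
    rw [crs_mul, hc, ihx, ihy]

/-- Translation. -/
theorem crs_shift (f₀ : FreeGroup (Fin n) →* H) (v : Fin n → H → Q) (g : H)
    (w : FreeGroup (Fin n)) (h : H) :
    crs f₀ (fun k h => v k (g * h)) w h = crs f₀ v w (g * h) := by
  refine crs_unique f₀ _ (fun w h => crs f₀ v w (g * h)) ?_ ?_ w h
  · intro w w' h
    rw [crs_mul, mul_assoc]
  · intro k h
    rw [crs_of]

/-- Composition with a homomorphism. -/
theorem crs_map {Q' : Type} [Group Q'] (Λ : Q →* Q') (f₀ : FreeGroup (Fin n) →* H)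
    (v : Fin n → H → Q) (w : FreeGroup (Fin n)) (h : H) :
    crs f₀ (fun k h => Λ (v k h)) w h = Λ (crs f₀ v w h) := by
  refine crs_unique f₀ _ (fun w h => Λ (crs f₀ v w h)) ?_ ?_ w h
  · intro w w' h
    rw [crs_mul, map_mul]
  · intro k h
    rw [crs_of]

end Pool.Agent.HC
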