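import Mathlib

/-!
# HC: homological coherence and two-dimensional CAT(0) cube complexes -- definitions

* `IsFP2`, `Coherent`, `HomCoherent`: the notions of the problem;
* `IsSq`, `Btw`, `IsMedian`, `NoCube`: median graphs (1-skeleta of CAT(0) cube complexes) and their
  squares and 3-cubes;
* `CubeAct`: the hypotheses on an action;
* `Desc`: the descending structure with respect to a base point;
* `GG`: finite graph of groups data inside a group `H`; it describes an `H`-graph `D` with vertices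
  the cosets `h A_i` and edges the cosets `h B_j`.  Instead of quotient types we work with
  representatives: a vertex is a pair `(i, h)` up to `SameV`, an oriented edge (a step) is a triple
  `(j, h, s)`, `s : Bool` the direction, and functions on the edges are functions `f j h` which only
  depend on `h B_j` (`InvF`).
-/

set_option autoImplicit false

namespace Pool.Agent.HC

/-! ### Finiteness properties -/

/-- `H` is of type `FP₂`: for some finite generating set the relation module is finitely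
generated. -/
def IsFP2 (H : Type) [Group H] : Prop :=
  ∃ (n : ℕ) (f : FreeGroup (Fin n) →* H), Function.Surjective f ∧
    ∃ S : Finset (FreeGroup (Fin n)), (∀ s ∈ S, f s = 1) ∧
      f.ker = Subgroup.normalClosure (S : Set (FreeGroup (Fin n))) ⊔ ⁅f.ker, f.ker⁆

/-- Every finitely generated subgroup is finitely presented. -/
def Coherent (G : Type) [Group G] : Prop :=
  ∀ H : Subgroup G, H.FG → Group.IsFinitelyPresented H

/-- Every finitely generated subgroup is of type `FP₂`. -/
def HomCoherent (G : Type) [Group G] : Prop :=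
  ∀ H : Subgroup G, H.FG → IsFP2 H

/-! ### Median graphs -/

/-- A 4-cycle. -/
def IsSq {V : Type} (X : SimpleGraph V) (x₁ x₂ x₃ x₄ : V) : Prop :=
  X.Adj x₁ x₂ ∧ X.Adj x₂ x₃ ∧ X.Adj x₃ x₄ ∧ X.Adj x₄ x₁ ∧ x₁ ≠ x₃ ∧ x₂ ≠ x₄

/-- `m` lies on a geodesic from `x` to `y`. -/
def Btw {V : Type} (X : SimpleGraph V) (x m y : V) : Prop :=
  X.dist x m + X.dist m y = X.dist x y

/-- `X` is a median graph: it is connected and any three vertices have exactly one median. -/
structure IsMedian {V : Type} (X : SimpleGraph V) : Prop where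
  conn : X.Connected
  med : ∀ x y z : V, ∃! m : V, Btw X x m y ∧ Btw X y m z ∧ Btw X x m z

/-- `X` contains no 3-cube. -/
def NoCube {V : Type} (X : SimpleGraph V) : Prop :=
  ¬ ∃ f : (Fin 3 → Bool) → V, Function.Injective f ∧
    ∀ (a : Fin 3 → Bool) (i : Fin 3), X.Adj (f a) (f (Function.update a i (!a i)))

/-- `G` acts without inversions on the 1-skeleton `X` of a CAT(0) cube complex of dimension at most
two, and the pointwise stabilizers of the squares are slender (all their subgroups are finitely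
generated). -/
structure CubeAct (G : Type) [Group G] (V : Type) [MulAction G V] (X : SimpleGraph V) : Prop where
  med : IsMedian X
  dim : NoCube X
  adj : ∀ (g : G) (x y : V), X.Adj x y → X.Adj (g • x) (g • y)
  inv : ∀ (g : G) (x y : V), X.Adj x y → g • x = y → g • y ≠ x
  slender : ∀ x₁ x₂ x₃ x₄ : V, IsSq X x₁ x₂ x₃ x₄ → ∀ K : Subgroup G,
    (∀ g ∈ K, g • x₁ = x₁ ∧ g • x₂ = x₂ ∧ g • x₃ = x₃ ∧ g • x₄ = x₄) → K.FG

/-- The descending structure of a two-dimensional CAT(0) cube complex with respect to the base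
point `p`: `r` is the distance from `p`, every vertex `y ≠ p` has one or two lower neighbours,
the parent `a y` and possibly `b y`, and in the second case `y, b y, z y, a y` is a square, and
every square is of this form. -/
structure Desc {V : Type} (X : SimpleGraph V) (p : V) where
  r : V → ℕ
  a : V → V
  b : V → V
  z : V → V
  adj_r : ∀ x y : V, X.Adj x y → r x = r y + 1 ∨ r y = r x + 1
  parent : ∀ y : V, y ≠ p → X.Adj y (a y) ∧ r y = r (a y) + 1
  lower : ∀ y x : V, X.Adj y x → r y = r x + 1 →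
    x = a y ∨ (x = b y ∧ x ≠ a y ∧ X.Adj (b y) (z y) ∧ X.Adj (z y) (a y) ∧ r (b y) = r (z y) + 1)
  r_p : r p = 0
  sq : ∀ x₁ x₂ x₃ x₄ : V, IsSq X x₁ x₂ x₃ x₄ → r x₁ = r x₂ + 1 → r x₁ = r x₄ + 1 →
    x₃ = z x₁ ∧ ((x₂ = a x₁ ∧ x₄ = b x₁) ∨ (x₂ = b x₁ ∧ x₄ = a x₁))

/-! ### Graph of groups data -/

/-- Graph of groups data inside `H`: vertex groups `A i`, edge groups `B j`; the edge `j` goes
from the vertex `(si j, sg j)` to the vertex `(ti j, tg j)`. -/
structure GG (H : Type) [Group H] where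
  I : Type
  J : Type
  A : I → Subgroup H
  B : J → Subgroup H
  si : J → I
  sg : J → H
  ti : J → I
  tg : J → H
  hs : ∀ j, ∀ b ∈ B j, (sg j)⁻¹ * b * sg j ∈ A (si j)
  ht : ∀ j, ∀ b ∈ B j, (tg j)⁻¹ * b * tg j ∈ A (ti j)

variable {H : Type} [Group H]

/-- The pairs `(i, h)` and `(i, h')` describe the same vertex `h A_i = h' A_i`. -/
def SameV (D : GG H) (p q : D.I × H) : Prop := p.1 = q.1 ∧ p.2⁻¹ * q.2 ∈ D.A p.1

/-- Steps: the edge `h B_j`, traversed forwards (`true`) or backwards (`false`). -/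
abbrev Stp (D : GG H) : Type := D.J × H × Bool

/-- Source of a step. -/
def ssrc (D : GG H) (s : Stp D) : D.I × H :=
  if s.2.2 then (D.si s.1, s.2.1 * D.sg s.1) else (D.ti s.1, s.2.1 * D.tg s.1)

/-- Target of a step. -/
def stgt (D : GG H) (s : Stp D) : D.I × H :=
  if s.2.2 then (D.ti s.1, s.2.1 * D.tg s.1) else (D.si s.1, s.2.1 * D.sg s.1)

/-- `L` is a path from the vertex `p` to the vertex `q`. -/
def Chn (D : GG H) : D.I × H → List (Stp D) → D.I × H → Prop
  | p, [], q => SameV D p q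
  | p, s :: L, q => SameV D p (ssrc D s) ∧ Chn D (stgt D s) L q

/-- The value of `f` on the step `s`, translated by `g`. -/
def lab1 {D : GG H} {Q : Type} [Group Q] (f : D.J → H → Q) (g : H) (s : Stp D) : Q :=
  if s.2.2 then f s.1 (g * s.2.1) else (f s.1 (g * s.2.1))⁻¹

/-- The label of a list of steps, translated by `g`. -/
def lab {D : GG H} {Q : Type} [Group Q] (f : D.J → H → Q) (g : H) : List (Stp D) → Q
  | [] => 1
  | s :: L => lab1 f g s * lab f g L

/-- `f j h` only depends on the coset `h B_j`. -/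
def InvF (D : GG H) {Q : Type} [Group Q] (f : D.J → H → Q) : Prop :=
  ∀ (j : D.J) (h b : H), b ∈ D.B j → f j (h * b) = f j h

/-- `f` is a cocycle: invariant, and trivial on all translates of the closed paths `L ∈ 𝒦`. -/
def Coc (D : GG H) (𝒦 : Set (List (Stp D))) {Q : Type} [Group Q] (f : D.J → H → Q) : Prop :=
  InvF D f ∧ ∀ L ∈ 𝒦, ∀ g : H, lab f g L = 1

/-- `u` is a universal cocycle with values in a free group. -/
def UnivF (D : GG H) (𝒦 : Set (List (Stp D))) {α : Type} (u : D.J → H → FreeGroup α) : Prop :=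
  Coc D 𝒦 u ∧ ∀ (Q : Type) [Group Q] (f : D.J → H → Q), Coc D 𝒦 f →
    ∃ Λ : FreeGroup α →* Q, ∀ j h, Λ (u j h) = f j h

/-! ### Orbit representatives -/

/-- Choices for an action of `H` without inversions on a graph: orbit representatives of the
vertices (`τ v`, with `η v • τ v = v`), an invariant orientation `O` of the edges and
representatives of the orbits of pairs of vertices (`ρ e`, with `κ e • ρ e = e`). -/
structure Orb (H : Type) [Group H] (V : Type) [MulAction H V] (X : SimpleGraph V) (p : V) where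
  τ : V → V
  η : V → H
  ητ : ∀ v, η v • τ v = v
  τi : ∀ (h : H) (v : V), τ (h • v) = τ v
  τp : τ p = p
  ηp : η p = 1
  O : V → V → Prop
  Oi : ∀ (h : H) (x y : V), O x y → O (h • x) (h • y)
  Oa : ∀ x y : V, O x y → X.Adj x y
  Ot : ∀ x y : V, X.Adj x y → O x y ∨ O y x
  On : ∀ x y : V, O x y → ¬ O y x
  ρ : V × V → V × V
  κ : V × V → H
  κρ : ∀ e, κ e • ρ e = e
  ρi : ∀ (h : H) (e : V × V), ρ (h • e) = ρ e

/-- A lift of the finite set `W` of vertices of `X` to the `H`-graph of `D`. -/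
structure Lft (H : Type) [Group H] (V : Type) [MulAction H V] (X : SimpleGraph V)
    (W : Set V) where
  D : GG H
  finI : Finite D.I
  finJ : Finite D.J
  /-- lifts of the vertices -/
  vx : V → D.I × H
  /-- the vertex group of `i` fixes the vertex `pv i` -/
  pv : D.I → V
  Afix : ∀ i, ∀ a ∈ D.A i, a • pv i = pv i
  Afg : ∀ i, (D.A i).FG
  Bfg : ∀ j, (D.B j).FG
  /-- the edge of `X` below the edge `j` of `D` -/
  pe : D.J → V × V
  peadj : ∀ j, X.Adj (pe j).1 (pe j).2
  Bfix : ∀ j, ∀ b ∈ D.B j, b • pe j = pe j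
  /-- lifts of the edges -/
  st : V → V → Stp D
  chn : ∀ x ∈ W, ∀ y ∈ W, X.Adj x y → Chn D (vx x) [st x y] (vx y)
  stp : ∀ x ∈ W, ∀ y ∈ W, X.Adj x y →
    (st x y).2.1 • pe (st x y).1 = if (st x y).2.2 then (x, y) else (y, x)
  rev : ∀ x ∈ W, ∀ y ∈ W, X.Adj x y →
    st y x = ((st x y).1, (st x y).2.1, !(st x y).2.2)

/-- The step `g • st x y` is the lift of the edge from `g • x` to `g • y`. -/
def Lft.Req {H : Type} [Group H] {V : Type} [MulAction H V] {X : SimpleGraph V} {W : Set V}
    (T : Lft H V X W) (g : H) (x y : V) : Prop :=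
  (T.st (g • x) (g • y)).1 = (T.st x y).1 ∧
    (T.st (g • x) (g • y)).2.2 = (T.st x y).2.2 ∧
      (T.st (g • x) (g • y)).2.1⁻¹ * (g * (T.st x y).2.1) ∈ T.D.B (T.st x y).1

/-- The lifts of the squares in `W` are compatible with the group action. -/
def Lft.SqReq {H : Type} [Group H] {V : Type} [MulAction H V] {X : SimpleGraph V} {W : Set V}
    (T : Lft H V X W) : Prop :=
  ∀ x₁ x₂ x₃ x₄ : V, IsSq X x₁ x₂ x₃ x₄ → ∀ g : H,
    x₁ ∈ W → x₂ ∈ W → x₃ ∈ W → x₄ ∈ W → g • x₁ ∈ W → g • x₂ ∈ W → g • x₃ ∈ W → g • x₄ ∈ W →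
      T.Req g x₁ x₂

/-- The closed paths of `D` which are lifts of squares in `W`. -/
def Lft.cells {H : Type} [Group H] {V : Type} [MulAction H V] {X : SimpleGraph V} {W : Set V}
    (T : Lft H V X W) : Set (List (Stp T.D)) :=
  {L | ∃ x₁ x₂ x₃ x₄ : V, IsSq X x₁ x₂ x₃ x₄ ∧ x₁ ∈ W ∧ x₂ ∈ W ∧ x₃ ∈ W ∧ x₄ ∈ W ∧
    L = [T.st x₁ x₂, T.st x₂ x₃, T.st x₃ x₄, T.st x₄ x₁]}

end Pool.Agent.HC
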