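import Pool.Agent.HC.Defs

/-!
# HC module FinCl: finite descending closure (diff 1)

PROOF.  The lower neighbours of `y` are contained in `{d.a y, d.b y}` (`d.lower`).  Claim: for all
`n` and all `y` with `d.r y ≤ n` there is a finite set `W ∋ y` closed under lower neighbours.
Induction on `n`: `{y}` together with the sets of those of `d.a y`, `d.b y` which are lower
neighbours (they have smaller `r`; if `n = 0` there are none).  For a finite `W₀` take the union over
`y ∈ W₀` (`Set.Finite.biUnion`).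
-/

set_option autoImplicit false

namespace Pool.Agent.HC

theorem FinCl_key {V : Type} {X : SimpleGraph V} {p : V} (d : Desc X p) (n : ℕ) :
    ∀ y : V, d.r y ≤ n → ∃ W : Set V, W.Finite ∧ y ∈ W ∧
      ∀ y' ∈ W, ∀ x, X.Adj y' x → d.r y' = d.r x + 1 → x ∈ W := by
  induction n with
  | zero =>
    intro y hy
    refine ⟨{y}, Set.finite_singleton y, rfl, ?_⟩
    intro y' hy' x _ hr
    rw [Set.mem_singleton_iff.1 hy'] at hr
    omega
  | succ n ih =>
    intro y hy
    obtain ⟨N, hN⟩ : ∃ N : Set V, N = {x | X.Adj y x ∧ d.r y = d.r x + 1} := ⟨_, rfl⟩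
    have hNf : N.Finite := by
      refine (Set.toFinite {d.a y, d.b y}).subset ?_
      intro x hx
      rw [hN] at hx
      rcases d.lower y x hx.1 hx.2 with h | h
      · exact Or.inl h
      · exact Or.inr h.1
    have hW : ∀ x ∈ N, ∃ W : Set V, W.Finite ∧ x ∈ W ∧
        ∀ y' ∈ W, ∀ x, X.Adj y' x → d.r y' = d.r x + 1 → x ∈ W := by
      intro x hx
      rw [hN] at hx
      exact ih x (by have := hx.2; omega)
    choose! W hWf hWm hWc using hW
    refine ⟨insert y (⋃ x ∈ N, W x), (hNf.biUnion hWf).insert y, Set.mem_insert _ _, ?_⟩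
    intro y' hy' x hadj hr
    right
    rcases hy' with rfl | hy'
    · have hx : x ∈ N := by
        rw [hN]
        exact ⟨hadj, hr⟩
      exact Set.mem_biUnion hx (hWm x hx)
    · obtain ⟨x₀, hx₀, hy''⟩ := Set.mem_iUnion₂.1 hy'
      exact Set.mem_biUnion hx₀ (hWc x₀ hx₀ y' hy'' x hadj hr)

theorem exists_closed {V : Type} {X : SimpleGraph V} {p : V} (d : Desc X p) (W₀ : Set V)
    (h₀ : W₀.Finite) : ∃ W : Set V, W.Finite ∧ W₀ ⊆ W ∧
      ∀ y ∈ W, ∀ x, X.Adj y x → d.r y = d.r x + 1 → x ∈ W := by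
  have h := fun y : V => FinCl_key d (d.r y) y (le_refl _)
  choose W hWf hWm hWc using h
  refine ⟨⋃ y ∈ W₀, W y, h₀.biUnion fun y _ => hWf y, fun y hy => Set.mem_biUnion hy (hWm y), ?_⟩
  intro y hy x hadj hr
  obtain ⟨y₀, hy₀, hy'⟩ := Set.mem_iUnion₂.1 hy
  exact Set.mem_biUnion hy₀ (hWc y₀ y hy' x hadj hr)

end Pool.Agent.HC
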