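import Pool.Agent.HC.QE

/-!
# HC module Lam: labels of paths (diff 3)

`D` is a graph of groups in `H`.  `α`, `τ` are maps to a group `Q` such that the edge relations
`α(sg⁻¹ b sg) τ_j = τ_j α(tg⁻¹ b tg)` hold (`EdgeRel`).

`exists_lam`.  For each `i` choose a function `r i : H → H` with `(r i h)⁻¹ * h ∈ A i` and
`r i (h * a) = r i h` for `a ∈ A i` (e.g. `r i h = ((h : H ⧸ A i)).out`,
`QuotientGroup.mk_out_eq_mul`, `QuotientGroup.eq`).  Put `β (i, h) = α i ⟨(r i h)⁻¹ * h, _⟩`.  Then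
`β (i, h * a) = β (i, h) * α i a`, since `(r i (h a))⁻¹ (h a) = ((r i h)⁻¹ h) a`.  Put
`lam j h = β (si j, h * sg j) * τ j * (β (ti j, h * tg j))⁻¹`.  Invariance: for `b ∈ B j`,
`h b sg = h sg (sg⁻¹ b sg)` and `h b tg = h tg (tg⁻¹ b tg)`, so
`lam j (h b) = β(h sg) α(sg⁻¹ b sg) τ_j α(tg⁻¹ b tg)⁻¹ β(h tg)⁻¹ = lam j h` by `EdgeRel`.

`path_word`.  Induction on `L`.  The empty chain: `p.1 = q.1` (case on it, `obtain ⟨p1, p2⟩ := p`
etc., `subst`), `a = p.2⁻¹ * q.2 ∈ A p.1`; `w = [inl ⟨p.1, a⁻¹⟩]`... precisely: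
`1 = β (i, g p.2) * α i (a) * (β (i, g q.2))⁻¹` because `g q.2 = g p.2 a`, so `w = [inl ⟨i, a⟩]`,
with value `a = p.2⁻¹ * q.2` in `H`.  A step `s` forwards: `p` is the same vertex as the source,
`a = p.2⁻¹ * (s.2.1 * sg) ∈ A`, and the label is
`β (si, g h sg) τ_j (β (ti, g h tg))⁻¹ = β (i, g p.2) α(a) τ_j (β (stgt))⁻¹`: prepend
`[inl ⟨i, a⟩, inr (j, true)]` to the word of the rest (which starts at `stgt`).  Backwards: the label
is the inverse `β (ti, g h tg) τ_j⁻¹ (β (si, g h sg))⁻¹`: prepend `[inl ⟨i, a⟩, inr (j, false)]`,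
`a = p.2⁻¹ * (h * tg)`.  Values in `H`: `τ_j` is evaluated to `(sg j)⁻¹ * tg j`.
-/

set_option autoImplicit false

namespace Pool.Agent.HC

variable {H : Type} [Group H]

/-- The edge relations. -/
def EdgeRel (D : GG H) {Q : Type} [Group Q] (α : ∀ i, D.A i →* Q) (τ : D.J → Q) : Prop :=
  ∀ (j : D.J) (b : H) (hb : b ∈ D.B j),
    α (D.si j) ⟨_, D.hs j b hb⟩ * τ j = τ j * α (D.ti j) ⟨_, D.ht j b hb⟩

/-- `β` is equivariant for the vertex groups and `lam` is the labelling of the edges. -/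
def IsLam (D : GG H) {Q : Type} [Group Q] (α : ∀ i, D.A i →* Q) (τ : D.J → Q)
    (β : D.I × H → Q) (lam : D.J → H → Q) : Prop :=
  (∀ (i : D.I) (h a : H) (ha : a ∈ D.A i), β (i, h * a) = β (i, h) * α i ⟨a, ha⟩) ∧
    ∀ (j : D.J) (h : H), lam j h = β (D.si j, h * D.sg j) * τ j * (β (D.ti j, h * D.tg j))⁻¹

theorem exists_lam (D : GG H) {Q : Type} [Group Q] (α : ∀ i, D.A i →* Q) (τ : D.J → Q)
    (hrel : EdgeRel D α τ) :
    ∃ (β : D.I × H → Q) (lam : D.J → H → Q), IsLam D α τ β lam ∧ InvF D lam := by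
  obtain ⟨r, hr1, hr2⟩ : ∃ r : D.I → H → H, (∀ i h, (r i h)⁻¹ * h ∈ D.A i) ∧
      ∀ i h a, a ∈ D.A i → r i (h * a) = r i h := by
    refine ⟨fun i h => ((h : H ⧸ D.A i)).out, fun i h => ?_, fun i h a ha => ?_⟩
    · exact QuotientGroup.eq.1 (QuotientGroup.out_eq' _)
    · show (((h * a : H) : H ⧸ D.A i)).out = ((h : H ⧸ D.A i)).out
      rw [QuotientGroup.mk_mul_of_mem h ha]
  obtain ⟨β, hβ⟩ : ∃ β : D.I × H → Q, ∀ i h, β (i, h) = α i ⟨(r i h)⁻¹ * h, hr1 i h⟩ :=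
    ⟨fun q => α q.1 ⟨(r q.1 q.2)⁻¹ * q.2, hr1 q.1 q.2⟩, fun i h => rfl⟩
  have hβ2 : ∀ (i : D.I) (h a : H) (ha : a ∈ D.A i), β (i, h * a) = β (i, h) * α i ⟨a, ha⟩ := by
    intro i h a ha
    rw [hβ, hβ, ← map_mul]
    congr 1
    apply Subtype.ext
    show (r i (h * a))⁻¹ * (h * a) = (r i h)⁻¹ * h * a
    rw [hr2 i h a ha, mul_assoc]
  refine ⟨β, fun j h => β (D.si j, h * D.sg j) * τ j * (β (D.ti j, h * D.tg j))⁻¹,
    ⟨hβ2, fun j h => rfl⟩, fun j h b hb => ?_⟩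
  show β (D.si j, h * b * D.sg j) * τ j * (β (D.ti j, h * b * D.tg j))⁻¹ =
    β (D.si j, h * D.sg j) * τ j * (β (D.ti j, h * D.tg j))⁻¹
  have e1 : h * b * D.sg j = h * D.sg j * ((D.sg j)⁻¹ * b * D.sg j) := by group
  have e2 : h * b * D.tg j = h * D.tg j * ((D.tg j)⁻¹ * b * D.tg j) := by group
  rw [e1, e2, hβ2 _ _ _ (D.hs j b hb), hβ2 _ _ _ (D.ht j b hb)]
  have e3 := hrel j b hb
  rw [mul_inv_rev, mul_assoc (β (D.si j, h * D.sg j)), e3]
  group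

theorem Lam_beta (D : GG H) {Q : Type} [Group Q] (α : ∀ i, D.A i →* Q) (τ : D.J → Q)
    (β : D.I × H → Q) (lam : D.J → H → Q) (hβ : IsLam D α τ β lam) (g : H) {p q : D.I × H}
    (h1 : p.1 = q.1) (h2 : p.2⁻¹ * q.2 ∈ D.A p.1) :
    β (q.1, g * q.2) = β (p.1, g * p.2) * α p.1 ⟨p.2⁻¹ * q.2, h2⟩ := by
  rw [← hβ.1 p.1 (g * p.2) (p.2⁻¹ * q.2) h2, ← h1]
  congr 2
  group

theorem path_word (D : GG H) (p q : D.I × H) (L : List (Stp D)) (hL : Chn D p L q) :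
    ∃ w : List ((Σ i, D.A i) ⊕ (D.J × Bool)),
      (w.map (syv (fun i => (D.A i).subtype) fun j => (D.sg j)⁻¹ * D.tg j)).prod =
        p.2⁻¹ * q.2 ∧
      ∀ (Q : Type) [Group Q] (α : ∀ i, D.A i →* Q) (τ : D.J → Q) (β : D.I × H → Q)
        (lam : D.J → H → Q), IsLam D α τ β lam → ∀ g : H,
          lab lam g L = β (p.1, g * p.2) * (w.map (syv α τ)).prod * (β (q.1, g * q.2))⁻¹ := by
  induction L generalizing p with
  | nil =>
    obtain ⟨h1, h2⟩ := hL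
    refine ⟨[Sum.inl ⟨p.1, ⟨p.2⁻¹ * q.2, h2⟩⟩], ?_, ?_⟩
    · simp [syv]
    · intro Q _ α τ β lam hβ g
      rw [Lam_beta D α τ β lam hβ g h1 h2]
      simp [lab, syv]
  | cons s L ih =>
    obtain ⟨⟨h1, h2⟩, h3⟩ := hL
    obtain ⟨w, hw1, hw2⟩ := ih (stgt D s) h3
    obtain ⟨j, h, b⟩ := s
    cases b with
    | true =>
      have e1 : ssrc D (j, h, true) = (D.si j, h * D.sg j) := rfl
      have e2 : stgt D (j, h, true) = (D.ti j, h * D.tg j) := rfl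
      rw [e1] at h1 h2
      rw [e2] at hw1 hw2
      refine ⟨Sum.inl ⟨p.1, ⟨p.2⁻¹ * (h * D.sg j), h2⟩⟩ :: Sum.inr (j, true) :: w, ?_, ?_⟩
      · rw [List.map_cons, List.map_cons, List.prod_cons, List.prod_cons, hw1]
        show p.2⁻¹ * (h * D.sg j) * ((D.sg j)⁻¹ * D.tg j * ((h * D.tg j)⁻¹ * q.2)) = p.2⁻¹ * q.2
        group
      · intro Q _ α τ β lam hβ g
        rw [List.map_cons, List.map_cons, List.prod_cons, List.prod_cons]
        show lam j (g * h) * lab lam g L = β (p.1, g * p.2) * (α p.1 ⟨p.2⁻¹ * (h * D.sg j), h2⟩ *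
          (τ j * (w.map (syv α τ)).prod)) * (β (q.1, g * q.2))⁻¹
        have e3 := Lam_beta D α τ β lam hβ g (p := p) (q := (D.si j, h * D.sg j)) h1 h2
        simp only at e3
        rw [hw2 Q α τ β lam hβ g, hβ.2 j (g * h), mul_assoc g h, mul_assoc g h, e3]
        group
    | false =>
      have e1 : ssrc D (j, h, false) = (D.ti j, h * D.tg j) := rfl
      have e2 : stgt D (j, h, false) = (D.si j, h * D.sg j) := rfl
      rw [e1] at h1 h2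
      rw [e2] at hw1 hw2
      refine ⟨Sum.inl ⟨p.1, ⟨p.2⁻¹ * (h * D.tg j), h2⟩⟩ :: Sum.inr (j, false) :: w, ?_, ?_⟩
      · rw [List.map_cons, List.map_cons, List.prod_cons, List.prod_cons, hw1]
        show p.2⁻¹ * (h * D.tg j) * (((D.sg j)⁻¹ * D.tg j)⁻¹ * ((h * D.sg j)⁻¹ * q.2)) = p.2⁻¹ * q.2
        group
      · intro Q _ α τ β lam hβ g
        rw [List.map_cons, List.map_cons, List.prod_cons, List.prod_cons]
        show (lam j (g * h))⁻¹ * lab lam g L = β (p.1, g * p.2) * (α p.1 ⟨p.2⁻¹ * (h * D.tg j), h2⟩ *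
          ((τ j)⁻¹ * (w.map (syv α τ)).prod)) * (β (q.1, g * q.2))⁻¹
        have e3 := Lam_beta D α τ β lam hβ g (p := p) (q := (D.ti j, h * D.tg j)) h1 h2
        simp only at e3
        rw [hw2 Q α τ β lam hβ g, hβ.2 j (g * h), mul_assoc g h, mul_assoc g h, e3]
        group

end Pool.Agent.HC
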