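import Pool.Agent.HC.Defs

/-!
# HC module LftE: construction of the finite data `D` and of the lift of `W` (diff 3)

Let `c : Orb H V X p`.  For `e = (x, y)` with `c.O x y` we write `ρ e`, `κ e` (`κ e • ρ e = e`);
`ρ (g • e) = ρ e`.

CONSTRUCTION.  Let `E = {e ∈ W × W | c.O e.1 e.2}` (a finite set, not empty by `hedge` and `c.Ot`).
* `I` = the subtype of the finite set `τ '' W`, `J` = the subtype of the finite set `ρ '' E`
  (subtypes of sets of `V`, `V × V`; finite by `Set.Finite.to_subtype`).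
* `B j` = the subgroup generated by the finite set `GB j` of the elements
  `(κ (g • e))⁻¹ * g * κ e`, `e = (x, y)`, `(g, x, y) ∈ 𝓡` with `c.O x y`, `ρ e = j`, together with
  those with `e = (y, x)`, `(g, x, y) ∈ 𝓡`, `c.O y x`, `ρ e = j`.  Each of them fixes `j` (as a pair):
  `g • κ e • ρ e = g • e = κ (g • e) • ρ (g • e)` and `ρ (g • e) = ρ e`.
* for `i ∈ I` (a vertex `t`), `A i` = the subgroup generated by the finite set of the elements
  (a) `(η x)⁻¹ * b * η x` with `j ∈ J`, `b ∈ GB j`, `x` one of the two components of `j`, `τ x = t`;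
  (b) `(η (κ e • x))⁻¹ * κ e * η x` with `e ∈ E`, `x` one of the two components of `ρ e`, `τ x = t`;
  (c) `ε⁻¹ * η (ε • p)` with `ε ∈ 𝓔`, if `t = p`.
  Each of them fixes `t`: (a) `b` fixes `x = η x • t`; (b) `κ e • x = κ e • η x • t` and
  `κ e • x = η (κ e • x) • τ (κ e • x) = η (κ e • x) • t`; (c) `ε • p = η (ε • p) • τ (ε • p)`,
  `τ (ε • p) = τ p = p`.
* `si j = τ (j.1)`, `sg j = η (j.1)`, `ti j = τ (j.2)`, `tg j = η (j.2)` (`j` is a pair of vertices;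
  if `j = ρ e` then `τ (j.1) = τ (κ e • j.1) = τ (e.1) ∈ τ '' W`).  `hs`: for `b ∈ B j` the element
  `(sg j)⁻¹ * b * sg j` is in `A (si j)`: `Subgroup.closure_induction` and (a) (conjugation is a
  homomorphism; `(η x)⁻¹ * b⁻¹ * η x` is the inverse).
* `vx x = (τ x, η x)` for `x ∈ W` (`vx x = ` anything, e.g. `(τ p, 1)`, otherwise); `pv i` = the vertex
  `i`, `pe j` = the pair `j` (for `e ∈ E`, `ρ e = (κ e)⁻¹ • e` is a pair of adjacent vertices by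
  `hadj`).
* `st x y` = `(ρ (x, y), κ (x, y), true)` if `x, y ∈ W`, `c.O x y`; `(ρ (y, x), κ (y, x), false)` if
  `x, y ∈ W`, `c.O y x` (not both, `c.On`); anything otherwise (`J` is not empty).

CHECKS.  `chn` for `c.O x y`, `e = (x, y)`, `ρ e = (x', y')`, `κ e • x' = x`: `vx x = (τ x, η x)` and
the source `(τ x', κ e * η x')` are the same vertex: `τ x' = τ x`, `(η x)⁻¹ * (κ e * η x') ∈ A` by (b).
Similarly the target.  For `c.O y x` the same with source and target exchanged.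
`Req`: for `(g, x, y) ∈ 𝓡`, `c.O x y`: `c.O (g • x) (g • y)`, `ρ (g • e) = ρ e`, and
`(κ (g • e))⁻¹ * (g * κ e) ∈ B`.  For `c.O y x` use `e = (y, x)`.
`SameV (vx (ε • p)) (i₀, ε)` with `i₀ = p`: `τ (ε • p) = p` and
`(η (ε • p))⁻¹ * ε ∈ A p` (the inverse of (c)).
-/

set_option autoImplicit false

namespace Pool.Agent.HC

section LftEaux

variable {H : Type} [Group H] {V : Type} [MulAction H V] {X : SimpleGraph V} {p : V}

/-- the oriented edges in `W` -/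
def LftE_E (c : Orb H V X p) (W : Set V) : Set (V × V) := {e | e.1 ∈ W ∧ e.2 ∈ W ∧ c.O e.1 e.2}

/-- generators of the edge groups -/
def LftE_GB (c : Orb H V X p) (R : Set (H × V × V)) (j : V × V) : Set H :=
  {b | ∃ (g : H) (e : V × V), ((g, e.1, e.2) ∈ R ∨ (g, e.2, e.1) ∈ R) ∧ c.ρ e = j ∧
    b = (c.κ (g • e))⁻¹ * g * c.κ e}

/-- generators of the vertex groups -/
def LftE_GA (c : Orb H V X p) (W : Set V) (R : Set (H × V × V)) (S : Set H) (t : V) : Set H :=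
  ({a | ∃ j ∈ c.ρ '' LftE_E c W, ∃ b ∈ LftE_GB c R j, ∃ x, (x = j.1 ∨ x = j.2) ∧ c.τ x = t ∧
    a = (c.η x)⁻¹ * b * c.η x} ∪
  {a | ∃ e ∈ LftE_E c W, ∃ x, (x = (c.ρ e).1 ∨ x = (c.ρ e).2) ∧ c.τ x = t ∧
    a = (c.η (c.κ e • x))⁻¹ * c.κ e * c.η x}) ∪
  {a | t = p ∧ ∃ ε ∈ S, a = ε⁻¹ * c.η (ε • p)}

theorem LftE_E_fin (c : Orb H V X p) {W : Set V} (hW : W.Finite) : (LftE_E c W).Finite :=
  (hW.prod hW).subset fun _ he => ⟨he.1, he.2.1⟩

theorem LftE_GB_fin (c : Orb H V X p) {R : Set (H × V × V)} (hR : R.Finite) (j : V × V) :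
    (LftE_GB c R j).Finite := by
  refine ((hR.image fun q => (c.κ (q.1 • (q.2.1, q.2.2)))⁻¹ * q.1 * c.κ (q.2.1, q.2.2)).union
    (hR.image fun q => (c.κ (q.1 • (q.2.2, q.2.1)))⁻¹ * q.1 * c.κ (q.2.2, q.2.1))).subset ?_
  rintro b ⟨g, ⟨x, y⟩, h | h, -, rfl⟩
  · exact Or.inl ⟨_, h, rfl⟩
  · exact Or.inr ⟨_, h, rfl⟩

theorem LftE_GA_fin (c : Orb H V X p) {W : Set V} (hW : W.Finite) {R : Set (H × V × V)}
    (hR : R.Finite) {S : Set H} (hS : S.Finite) (t : V) : (LftE_GA c W R S t).Finite := by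
  refine Set.Finite.union (Set.Finite.union ?_ ?_) ?_
  · refine (Set.Finite.biUnion ((LftE_E_fin c hW).image c.ρ) (t := fun j =>
      (fun b => (c.η j.1)⁻¹ * b * c.η j.1) '' LftE_GB c R j ∪
      (fun b => (c.η j.2)⁻¹ * b * c.η j.2) '' LftE_GB c R j)
      (fun j _ => ((LftE_GB_fin c hR j).image _).union ((LftE_GB_fin c hR j).image _))).subset ?_
    rintro a ⟨j, hj, b, hb, x, hx | hx, -, rfl⟩
    · rw [Set.mem_iUnion₂]
      exact ⟨j, hj, Or.inl ⟨b, hb, by rw [hx]⟩⟩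
    · rw [Set.mem_iUnion₂]
      exact ⟨j, hj, Or.inr ⟨b, hb, by rw [hx]⟩⟩
  · refine (((LftE_E_fin c hW).image fun e =>
      (c.η (c.κ e • (c.ρ e).1))⁻¹ * c.κ e * c.η (c.ρ e).1).union
      ((LftE_E_fin c hW).image fun e =>
      (c.η (c.κ e • (c.ρ e).2))⁻¹ * c.κ e * c.η (c.ρ e).2)).subset ?_
    rintro a ⟨e, he, x, hx | hx, -, rfl⟩
    · exact Or.inl ⟨e, he, by rw [hx]⟩
    · exact Or.inr ⟨e, he, by rw [hx]⟩
  · refine (hS.image fun ε => ε⁻¹ * c.η (ε • p)).subset ?_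
    rintro a ⟨-, ε, hε, rfl⟩
    exact ⟨ε, hε, rfl⟩

theorem LftE_fg {S : Set H} (hS : S.Finite) : (Subgroup.closure S).FG :=
  ⟨hS.toFinset, by rw [hS.coe_toFinset]⟩

theorem LftE_GB_fix (c : Orb H V X p) (R : Set (H × V × V)) (j : V × V) (b : H)
    (hb : b ∈ LftE_GB c R j) : b • j = j := by
  obtain ⟨g, e, -, rfl, rfl⟩ := hb
  rw [mul_smul, mul_smul, c.κρ e, inv_smul_eq_iff]
  conv_lhs => rw [← c.κρ (g • e)]
  rw [c.ρi]

theorem LftE_eta (c : Orb H V X p) (k : H) (x : V) :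
    ((c.η (k • x))⁻¹ * k * c.η x) • c.τ x = c.τ x := by
  rw [mul_smul, mul_smul, c.ητ x, inv_smul_eq_iff]
  conv_lhs => rw [← c.ητ (k • x)]
  rw [c.τi]

theorem LftE_GA_fix (c : Orb H V X p) (W : Set V) (R : Set (H × V × V)) (S : Set H) (t : V)
    (a : H) (ha : a ∈ LftE_GA c W R S t) : a • t = t := by
  rcases ha with (⟨j, -, b, hb, x, hx, rfl, rfl⟩ | ⟨e, -, x, -, rfl, rfl⟩) | ⟨rfl, ε, -, rfl⟩
  · have h1 := LftE_GB_fix c R j b hb
    have h2 : b • x = x := by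
      have h3 : b • j.1 = j.1 := congrArg Prod.fst h1
      have h4 : b • j.2 = j.2 := congrArg Prod.snd h1
      rcases hx with rfl | rfl
      · exact h3
      · exact h4
    have h3 := LftE_eta c b x
    rw [h2] at h3
    exact h3
  · exact LftE_eta c _ x
  · rw [mul_smul, inv_smul_eq_iff]
    have h1 := c.ητ (ε • t)
    rw [c.τi, c.τp] at h1
    exact h1

theorem LftE_A_fix (c : Orb H V X p) (W : Set V) (R : Set (H × V × V)) (S : Set H) (t : V)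
    (a : H) (ha : a ∈ Subgroup.closure (LftE_GA c W R S t)) : a • t = t := by
  have h1 : Subgroup.closure (LftE_GA c W R S t) ≤ MulAction.stabilizer H t := by
    rw [Subgroup.closure_le]
    intro b hb
    exact LftE_GA_fix c W R S t b hb
  exact h1 ha

theorem LftE_B_fix (c : Orb H V X p) (R : Set (H × V × V)) (j : V × V)
    (a : H) (ha : a ∈ Subgroup.closure (LftE_GB c R j)) : a • j = j := by
  have h1 : Subgroup.closure (LftE_GB c R j) ≤ MulAction.stabilizer H j := by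
    rw [Subgroup.closure_le]
    intro b hb
    exact LftE_GB_fix c R j b hb
  exact h1 ha

theorem LftE_conj (c : Orb H V X p) (W : Set V) (R : Set (H × V × V)) (S : Set H) (j : V × V)
    (hj : j ∈ c.ρ '' LftE_E c W) (x : V) (hx : x = j.1 ∨ x = j.2)
    (b : H) (hb : b ∈ Subgroup.closure (LftE_GB c R j)) :
    (c.η x)⁻¹ * b * c.η x ∈ Subgroup.closure (LftE_GA c W R S (c.τ x)) := by
  refine Subgroup.closure_induction (p := fun b _ =>
    (c.η x)⁻¹ * b * c.η x ∈ Subgroup.closure (LftE_GA c W R S (c.τ x))) ?_ ?_ ?_ ?_ hb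
  · intro b hb
    exact Subgroup.subset_closure (Or.inl (Or.inl ⟨j, hj, b, hb, x, hx, rfl, rfl⟩))
  · simp
  · intro a b _ _ h1 h2
    have h3 : (c.η x)⁻¹ * (a * b) * c.η x =
        ((c.η x)⁻¹ * a * c.η x) * ((c.η x)⁻¹ * b * c.η x) := by group
    rw [h3]
    exact mul_mem h1 h2
  · intro a _ h1
    have h3 : (c.η x)⁻¹ * a⁻¹ * c.η x = ((c.η x)⁻¹ * a * c.η x)⁻¹ := by group
    rw [h3]
    exact inv_mem h1

theorem LftE_cmp (c : Orb H V X p) (W : Set V) (R : Set (H × V × V)) (S : Set H) (e : V × V)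
    (he : e ∈ LftE_E c W) (x : V) (hx : x = (c.ρ e).1 ∨ x = (c.ρ e).2) :
    (c.η (c.κ e • x))⁻¹ * (c.κ e * c.η x) ∈ Subgroup.closure (LftE_GA c W R S (c.τ x)) := by
  rw [← mul_assoc]
  exact Subgroup.subset_closure (Or.inl (Or.inr ⟨e, he, x, hx, rfl, rfl⟩))

theorem LftE_k1 (c : Orb H V X p) (e : V × V) : c.κ e • (c.ρ e).1 = e.1 :=
  congrArg Prod.fst (c.κρ e)

theorem LftE_k2 (c : Orb H V X p) (e : V × V) : c.κ e • (c.ρ e).2 = e.2 :=
  congrArg Prod.snd (c.κρ e)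

theorem LftE_t1 (c : Orb H V X p) (e : V × V) : c.τ (c.ρ e).1 = c.τ e.1 := by
  rw [← LftE_k1 c e, c.τi]

theorem LftE_t2 (c : Orb H V X p) (e : V × V) : c.τ (c.ρ e).2 = c.τ e.2 := by
  rw [← LftE_k2 c e, c.τi]

/-- the data `D` -/
noncomputable def LftE_D (c : Orb H V X p) (W : Set V) (R : Set (H × V × V)) (S : Set H) : GG H where
  I := c.τ '' W
  J := c.ρ '' LftE_E c W
  A := fun i => Subgroup.closure (LftE_GA c W R S i.1)
  B := fun j => Subgroup.closure (LftE_GB c R j.1)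
  si := fun j => ⟨c.τ j.1.1, by
    obtain ⟨j, e, he, rfl⟩ := j
    exact ⟨e.1, he.1, (LftE_t1 c e).symm⟩⟩
  sg := fun j => c.η j.1.1
  ti := fun j => ⟨c.τ j.1.2, by
    obtain ⟨j, e, he, rfl⟩ := j
    exact ⟨e.2, he.2.1, (LftE_t2 c e).symm⟩⟩
  tg := fun j => c.η j.1.2
  hs := fun j b hb => LftE_conj c W R S j.1 j.2 _ (Or.inl rfl) b hb
  ht := fun j b hb => LftE_conj c W R S j.1 j.2 _ (Or.inr rfl) b hb

open Classical in
/-- the index of a vertex -/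
noncomputable def LftE_ind (c : Orb H V X p) (W : Set V) (hp : p ∈ W) (x : V) : ↥(c.τ '' W) :=
  if h : x ∈ W then ⟨c.τ x, x, h, rfl⟩ else ⟨c.τ p, p, hp, rfl⟩

open Classical in
/-- the index of an edge -/
noncomputable def LftE_jn (c : Orb H V X p) (W : Set V) (e₀ : V × V) (h₀ : e₀ ∈ LftE_E c W)
    (e : V × V) : ↥(c.ρ '' LftE_E c W) :=
  if h : e ∈ LftE_E c W then ⟨c.ρ e, e, h, rfl⟩ else ⟨c.ρ e₀, e₀, h₀, rfl⟩

open Classical in
/-- the lift of an edge -/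
noncomputable def LftE_st (c : Orb H V X p) (W : Set V) (e₀ : V × V) (h₀ : e₀ ∈ LftE_E c W)
    (x y : V) : ↥(c.ρ '' LftE_E c W) × H × Bool :=
  if (x, y) ∈ LftE_E c W then (LftE_jn c W e₀ h₀ (x, y), c.κ (x, y), true)
  else (LftE_jn c W e₀ h₀ (y, x), c.κ (y, x), false)

theorem LftE_ind_val (c : Orb H V X p) (W : Set V) (hp : p ∈ W) {x : V} (hx : x ∈ W) :
    (LftE_ind c W hp x).1 = c.τ x := by
  unfold LftE_ind
  rw [dif_pos hx]

theorem LftE_jn_val (c : Orb H V X p) (W : Set V) (e₀ : V × V) (h₀ : e₀ ∈ LftE_E c W)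
    {e : V × V} (he : e ∈ LftE_E c W) : (LftE_jn c W e₀ h₀ e).1 = c.ρ e := by
  unfold LftE_jn
  rw [dif_pos he]

theorem LftE_st_pos (c : Orb H V X p) (W : Set V) (e₀ : V × V) (h₀ : e₀ ∈ LftE_E c W)
    {x y : V} (he : (x, y) ∈ LftE_E c W) :
    LftE_st c W e₀ h₀ x y = (LftE_jn c W e₀ h₀ (x, y), c.κ (x, y), true) := by
  unfold LftE_st
  rw [if_pos he]

theorem LftE_st_neg (c : Orb H V X p) (W : Set V) (e₀ : V × V) (h₀ : e₀ ∈ LftE_E c W)
    {x y : V} (he : (y, x) ∈ LftE_E c W) :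
    LftE_st c W e₀ h₀ x y = (LftE_jn c W e₀ h₀ (y, x), c.κ (y, x), false) := by
  unfold LftE_st
  rw [if_neg]
  intro h
  exact c.On _ _ h.2.2 he.2.2

theorem LftE_or (c : Orb H V X p) {W : Set V} {x y : V} (hx : x ∈ W) (hy : y ∈ W)
    (h : X.Adj x y) : (x, y) ∈ LftE_E c W ∨ (y, x) ∈ LftE_E c W := by
  rcases c.Ot x y h with h1 | h1
  · exact Or.inl ⟨hx, hy, h1⟩
  · exact Or.inr ⟨hy, hx, h1⟩

/-- the source of the lift of an oriented edge -/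
theorem LftE_src (c : Orb H V X p) (W : Set V) (R : Set (H × V × V)) (S : Set H) (hp : p ∈ W)
    (e₀ : V × V) (h₀ : e₀ ∈ LftE_E c W) {e : V × V} (he : e ∈ LftE_E c W) :
    SameV (LftE_D c W R S) (LftE_ind c W hp e.1, c.η e.1)
      ((LftE_D c W R S).si (LftE_jn c W e₀ h₀ e), c.κ e *
        (LftE_D c W R S).sg (LftE_jn c W e₀ h₀ e)) := by
  have h1 := LftE_jn_val c W e₀ h₀ he
  have h2 := LftE_ind_val c W hp he.1
  constructor
  · apply Subtype.ext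
    show (LftE_ind c W hp e.1).1 = c.τ (LftE_jn c W e₀ h₀ e).1.1
    rw [h1, h2, LftE_t1]
  · show (c.η e.1)⁻¹ * (c.κ e * c.η (LftE_jn c W e₀ h₀ e).1.1) ∈
      Subgroup.closure (LftE_GA c W R S (LftE_ind c W hp e.1).1)
    rw [h1, h2, ← LftE_t1]
    have h3 := LftE_cmp c W R S e he _ (Or.inl rfl)
    rw [LftE_k1] at h3
    exact h3

/-- the target of the lift of an oriented edge -/
theorem LftE_tgt (c : Orb H V X p) (W : Set V) (R : Set (H × V × V)) (S : Set H) (hp : p ∈ W)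
    (e₀ : V × V) (h₀ : e₀ ∈ LftE_E c W) {e : V × V} (he : e ∈ LftE_E c W) :
    SameV (LftE_D c W R S) (LftE_ind c W hp e.2, c.η e.2)
      ((LftE_D c W R S).ti (LftE_jn c W e₀ h₀ e), c.κ e *
        (LftE_D c W R S).tg (LftE_jn c W e₀ h₀ e)) := by
  have h1 := LftE_jn_val c W e₀ h₀ he
  have h2 := LftE_ind_val c W hp he.2.1
  constructor
  · apply Subtype.ext
    show (LftE_ind c W hp e.2).1 = c.τ (LftE_jn c W e₀ h₀ e).1.2
    rw [h1, h2, LftE_t2]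
  · show (c.η e.2)⁻¹ * (c.κ e * c.η (LftE_jn c W e₀ h₀ e).1.2) ∈
      Subgroup.closure (LftE_GA c W R S (LftE_ind c W hp e.2).1)
    rw [h1, h2, ← LftE_t2]
    have h3 := LftE_cmp c W R S e he _ (Or.inr rfl)
    rw [LftE_k2] at h3
    exact h3

theorem LftE_symm (D : GG H) {a b : D.I × H} (h : SameV D a b) : SameV D b a := by
  obtain ⟨h1, h2⟩ := h
  obtain ⟨i, g⟩ := a
  obtain ⟨i', g'⟩ := b
  simp only at h1 h2
  subst h1
  refine ⟨rfl, ?_⟩
  have h3 : g'⁻¹ * g = (g⁻¹ * g')⁻¹ := by group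
  show g'⁻¹ * g ∈ D.A i
  rw [h3]
  exact inv_mem h2

/-- the lift -/
noncomputable def LftE_T
    (hadj : ∀ (g : H) (x y : V), X.Adj x y → X.Adj (g • x) (g • y)) (c : Orb H V X p)
    (W : Set V) (hW : W.Finite) (hp : p ∈ W) (e₀ : V × V) (h₀ : e₀ ∈ LftE_E c W)
    (R : Set (H × V × V)) (hR : R.Finite) (S : Set H) (hS : S.Finite) : Lft H V X W where
  D := LftE_D c W R S
  finI := (hW.image c.τ).to_subtype
  finJ := ((LftE_E_fin c hW).image c.ρ).to_subtype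
  vx := fun x => (LftE_ind c W hp x, c.η x)
  pv := fun i => i.1
  Afix := fun i a ha => LftE_A_fix c W R S i.1 a ha
  Afg := fun i => LftE_fg (LftE_GA_fin c hW hR hS i.1)
  Bfg := fun j => LftE_fg (LftE_GB_fin c hR j.1)
  pe := fun j => j.1
  peadj := by
    rintro ⟨j, e, he, rfl⟩
    have h1 := c.Oa _ _ he.2.2
    have h2 := hadj (c.κ e)⁻¹ _ _ h1
    rw [← LftE_k1 c e, ← LftE_k2 c e, inv_smul_smul, inv_smul_smul] at h2
    exact h2
  Bfix := fun j b hb => LftE_B_fix c R j.1 b hb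
  st := LftE_st c W e₀ h₀
  chn := by
    intro x hx y hy hxy
    rcases LftE_or c hx hy hxy with he | he
    · rw [LftE_st_pos c W e₀ h₀ he]
      exact ⟨LftE_src c W R S hp e₀ h₀ he, LftE_symm _ (LftE_tgt c W R S hp e₀ h₀ he)⟩
    · rw [LftE_st_neg c W e₀ h₀ he]
      exact ⟨LftE_tgt c W R S hp e₀ h₀ he, LftE_symm _ (LftE_src c W R S hp e₀ h₀ he)⟩
  stp := by
    intro x hx y hy hxy
    rcases LftE_or c hx hy hxy with he | he
    · rw [LftE_st_pos c W e₀ h₀ he]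
      simp only [if_true]
      rw [LftE_jn_val c W e₀ h₀ he, c.κρ]
    · rw [LftE_st_neg c W e₀ h₀ he]
      simp only [Bool.false_eq_true, if_false]
      rw [LftE_jn_val c W e₀ h₀ he, c.κρ]
  rev := by
    intro x hx y hy hxy
    rcases LftE_or c hx hy hxy with he | he
    · rw [LftE_st_pos c W e₀ h₀ he, LftE_st_neg c W e₀ h₀ he]
      rfl
    · rw [LftE_st_neg c W e₀ h₀ he, LftE_st_pos c W e₀ h₀ he]
      rfl

theorem LftE_req
    (hadj : ∀ (g : H) (x y : V), X.Adj x y → X.Adj (g • x) (g • y)) (c : Orb H V X p)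
    (W : Set V) (hW : W.Finite) (hp : p ∈ W) (e₀ : V × V) (h₀ : e₀ ∈ LftE_E c W)
    (R : Set (H × V × V)) (hR : R.Finite) (S : Set H) (hS : S.Finite) (g : H) (x y : V)
    (hm : (g, x, y) ∈ R) (hx : x ∈ W) (hy : y ∈ W) (hgx : g • x ∈ W) (hgy : g • y ∈ W)
    (hxy : X.Adj x y) : (LftE_T hadj c W hW hp e₀ h₀ R hR S hS).Req g x y := by
  unfold Lft.Req
  show (LftE_st c W e₀ h₀ (g • x) (g • y)).1 = (LftE_st c W e₀ h₀ x y).1 ∧
    (LftE_st c W e₀ h₀ (g • x) (g • y)).2.2 = (LftE_st c W e₀ h₀ x y).2.2 ∧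
    (LftE_st c W e₀ h₀ (g • x) (g • y)).2.1⁻¹ * (g * (LftE_st c W e₀ h₀ x y).2.1) ∈
      Subgroup.closure (LftE_GB c R (LftE_st c W e₀ h₀ x y).1.1)
  rcases LftE_or c hx hy hxy with he | he
  · have he' : (g • x, g • y) ∈ LftE_E c W := ⟨hgx, hgy, c.Oi g _ _ he.2.2⟩
    rw [LftE_st_pos c W e₀ h₀ he, LftE_st_pos c W e₀ h₀ he']
    refine ⟨?_, rfl, ?_⟩
    · apply Subtype.ext
      simp only
      rw [LftE_jn_val c W e₀ h₀ he, LftE_jn_val c W e₀ h₀ he']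
      exact c.ρi g (x, y)
    · simp only
      rw [LftE_jn_val c W e₀ h₀ he, ← mul_assoc]
      exact Subgroup.subset_closure ⟨g, (x, y), Or.inl hm, rfl, rfl⟩
  · have he' : (g • y, g • x) ∈ LftE_E c W := ⟨hgy, hgx, c.Oi g _ _ he.2.2⟩
    rw [LftE_st_neg c W e₀ h₀ he, LftE_st_neg c W e₀ h₀ he']
    refine ⟨?_, rfl, ?_⟩
    · apply Subtype.ext
      simp only
      rw [LftE_jn_val c W e₀ h₀ he, LftE_jn_val c W e₀ h₀ he']
      exact c.ρi g (y, x)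
    · simp only
      rw [LftE_jn_val c W e₀ h₀ he, ← mul_assoc]
      exact Subgroup.subset_closure ⟨g, (y, x), Or.inr hm, rfl, rfl⟩

end LftEaux

theorem exists_lft {H : Type} [Group H] {V : Type} [MulAction H V] {X : SimpleGraph V} {p : V}
    (hadj : ∀ (g : H) (x y : V), X.Adj x y → X.Adj (g • x) (g • y)) (c : Orb H V X p)
    (W : Set V) (hW : W.Finite) (hp : p ∈ W) (hedge : ∃ x ∈ W, ∃ y ∈ W, X.Adj x y)
    (𝓡 : Set (H × V × V)) (h𝓡 : 𝓡.Finite)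
    (hR : ∀ g x y, (g, x, y) ∈ 𝓡 → x ∈ W ∧ y ∈ W ∧ g • x ∈ W ∧ g • y ∈ W ∧ X.Adj x y)
    (𝓔 : Set H) (h𝓔 : 𝓔.Finite) (hE : ∀ ε ∈ 𝓔, ε • p ∈ W) :
    ∃ T : Lft H V X W, (∀ g x y, (g, x, y) ∈ 𝓡 → T.Req g x y) ∧
      ∃ i₀ : T.D.I, T.vx p = (i₀, 1) ∧ ∀ ε ∈ 𝓔, SameV T.D (T.vx (ε • p)) (i₀, ε) := by
  obtain ⟨x₀, hx₀, y₀, hy₀, hxy₀⟩ := hedge
  obtain ⟨e₀, h₀⟩ : ∃ e₀, e₀ ∈ LftE_E c W := by
    rcases LftE_or c hx₀ hy₀ hxy₀ with h | h
    · exact ⟨_, h⟩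
    · exact ⟨_, h⟩
  refine ⟨LftE_T hadj c W hW hp e₀ h₀ 𝓡 h𝓡 𝓔 h𝓔, ?_, LftE_ind c W hp p, ?_, ?_⟩
  · intro g x y hm
    obtain ⟨h1, h2, h3, h4, h5⟩ := hR g x y hm
    exact LftE_req hadj c W hW hp e₀ h₀ 𝓡 h𝓡 𝓔 h𝓔 g x y hm h1 h2 h3 h4 h5
  · show (LftE_ind c W hp p, c.η p) = (LftE_ind c W hp p, 1)
    rw [c.ηp]
  · intro ε hε
    have h1 := LftE_ind_val c W hp hp
    have h2 := LftE_ind_val c W hp (hE ε hε)
    have h3 : (LftE_ind c W hp (ε • p)).1 = p := by rw [h2, c.τi, c.τp]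
    constructor
    · apply Subtype.ext
      show (LftE_ind c W hp (ε • p)).1 = (LftE_ind c W hp p).1
      rw [h3, h1, c.τp]
    · show (c.η (ε • p))⁻¹ * ε ∈ Subgroup.closure (LftE_GA c W 𝓡 𝓔 (LftE_ind c W hp (ε • p)).1)
      rw [h3]
      have h4 : (c.η (ε • p))⁻¹ * ε = (ε⁻¹ * c.η (ε • p))⁻¹ := by group
      rw [h4]
      exact inv_mem (Subgroup.subset_closure (Or.inr ⟨rfl, ε, hε, rfl⟩))

end Pool.Agent.HC
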