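import Pool.Agent.HC.Defs

/-!
# HC module MedA: basic facts on median graphs (diff 2)

Below `X` is a median graph, `p` a vertex.  Useful: in a connected graph `X.dist x y = 1 ↔ X.Adj x y`
(`SimpleGraph.dist_eq_one_iff_adj`), `X.dist x y = 0 ↔ x = y` (`SimpleGraph.Connected.dist_eq_zero_iff`),
symmetry, triangle inequality (`SimpleGraph.Connected.dist_triangle`).

* `med_ne`: adjacent vertices `x, y` have different distances from `p`.  Suppose they are equal.
  Let `m` be the median of `p, x, y`: `Btw x m y` gives `dist x m + dist m y = 1`, so `m = x` or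
  `m = y`.  If `m = x`, `Btw p x y` says `dist p x + 1 = dist p y`, a contradiction; similarly `m = y`.
* `med_adj`: by the triangle inequality the distances differ by at most `1`, and `med_ne`.
* `med_lower`: if `y ≠ p` there is a neighbour `x` of `y` with `dist p y = dist p x + 1`: take a
  shortest walk from `y` to `p` (`SimpleGraph.Connected.exists_walk_length_eq_dist`), its second
  vertex.
* `med_even`: two vertices with a common neighbour are not adjacent: `x ~ w ~ y` and `x ~ y`: the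
  distances of `x, y` from `w` are both `1`, contradicting `med_ne` with `p = w`.  Hence if moreover
  `x ≠ y`, `dist x y = 2`.
* `med_k23`: no `K_{2,3}`: let `x₁ ≠ x₂` both be adjacent to the pairwise distinct `w₁, w₂, w₃`.  The
  distances between the `w`'s are `2` (`med_even`), so both `x₁` and `x₂` are medians of
  `w₁, w₂, w₃` (`1 + 1 = 2`); by uniqueness `x₁ = x₂`.
* `med_quad`: the quadrangle condition: let `x₁ ≠ x₂` be neighbours of `y` with
  `dist p y = dist p x₁ + 1 = dist p x₂ + 1`.  Let `m` be the median of `p, x₁, x₂`.  `dist x₁ x₂ = 2`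
  (`med_even`), `dist x₁ m + dist m x₂ = 2`, `dist p x₁ = dist p m + dist m x₁`,
  `dist p x₂ = dist p m + dist m x₂`; since `dist p x₁ = dist p x₂`, `dist m x₁ = dist m x₂ = 1`.  So
  `m` is a common neighbour of `x₁`, `x₂` with `dist p x₁ = dist p m + 1`.
-/

set_option autoImplicit false

namespace Pool.Agent.HC

variable {V : Type} {X : SimpleGraph V}

theorem MedA_one {x y : V} (h : X.Adj x y) : X.dist x y = 1 := SimpleGraph.dist_eq_one_iff_adj.2 h

theorem med_ne (hX : IsMedian X) (p : V) {x y : V} (h : X.Adj x y) :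
    X.dist p x ≠ X.dist p y := by
  intro he
  have hxy := MedA_one h
  obtain ⟨m, ⟨h1, h2, h3⟩, -⟩ := hX.med p x y
  unfold Btw at h1 h2 h3
  have hm : X.dist x m = 0 ∨ X.dist m y = 0 := by omega
  rcases hm with hm | hm
  · rw [hX.conn.dist_eq_zero_iff] at hm
    subst hm
    omega
  · rw [hX.conn.dist_eq_zero_iff] at hm
    subst hm
    rw [SimpleGraph.dist_comm (u := m) (v := x)] at h1
    omega

theorem med_adj (hX : IsMedian X) (p : V) {x y : V} (h : X.Adj x y) :
    X.dist p x = X.dist p y + 1 ∨ X.dist p y = X.dist p x + 1 := by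
  have h0 := med_ne hX p h
  have hxy := MedA_one h
  have hyx := MedA_one h.symm
  have h1 : X.dist p y ≤ X.dist p x + X.dist x y := hX.conn.dist_triangle
  have h2 : X.dist p x ≤ X.dist p y + X.dist y x := hX.conn.dist_triangle
  omega

theorem med_lower (hX : IsMedian X) (p : V) {y : V} (h : y ≠ p) :
    ∃ x, X.Adj y x ∧ X.dist p y = X.dist p x + 1 := by
  obtain ⟨w, hw⟩ := hX.conn.exists_walk_length_eq_dist y p
  cases w with
  | nil => exact absurd rfl h
  | @cons _ x _ hadj w' =>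
    refine ⟨x, hadj, ?_⟩
    rw [SimpleGraph.Walk.length_cons, SimpleGraph.dist_comm] at hw
    have h1 : X.dist x p ≤ w'.length := SimpleGraph.dist_le w'
    rw [SimpleGraph.dist_comm] at h1
    rcases med_adj hX p hadj with h2 | h2
    · exact h2
    · omega

theorem med_even (hX : IsMedian X) {x y w : V} (h₁ : X.Adj x w) (h₂ : X.Adj y w) (hxy : x ≠ y) :
    ¬ X.Adj x y ∧ X.dist x y = 2 := by
  have hn : ¬ X.Adj x y := by
    intro h
    apply med_ne hX w h
    rw [MedA_one h₁.symm, MedA_one h₂.symm]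
  refine ⟨hn, ?_⟩
  have h1 : X.dist x y ≤ X.dist x w + X.dist w y := hX.conn.dist_triangle
  rw [MedA_one h₁, MedA_one h₂.symm] at h1
  have h2 : X.dist x y ≠ 0 := fun h => hxy (hX.conn.dist_eq_zero_iff.1 h)
  have h3 : X.dist x y ≠ 1 := fun h => hn (SimpleGraph.dist_eq_one_iff_adj.1 h)
  omega

theorem med_k23 (hX : IsMedian X) {x₁ x₂ w₁ w₂ w₃ : V} (hx : x₁ ≠ x₂) (h₁₂ : w₁ ≠ w₂)
    (h₁₃ : w₁ ≠ w₃) (h₂₃ : w₂ ≠ w₃) (a₁ : X.Adj x₁ w₁) (a₂ : X.Adj x₁ w₂) (a₃ : X.Adj x₁ w₃)
    (b₁ : X.Adj x₂ w₁) (b₂ : X.Adj x₂ w₂) (b₃ : X.Adj x₂ w₃) : False := by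
  have d12 := (med_even hX a₁.symm a₂.symm h₁₂).2
  have d13 := (med_even hX a₁.symm a₃.symm h₁₃).2
  have d23 := (med_even hX a₂.symm a₃.symm h₂₃).2
  have key : ∀ x : V, X.Adj x w₁ → X.Adj x w₂ → X.Adj x w₃ →
      Btw X w₁ x w₂ ∧ Btw X w₂ x w₃ ∧ Btw X w₁ x w₃ := by
    intro x c1 c2 c3
    unfold Btw
    rw [MedA_one c1.symm, MedA_one c2.symm, MedA_one c2, MedA_one c3, d12, d13, d23]
    exact ⟨rfl, rfl, rfl⟩
  exact hx ((hX.med w₁ w₂ w₃).unique (key x₁ a₁ a₂ a₃) (key x₂ b₁ b₂ b₃))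

theorem med_quad (hX : IsMedian X) (p : V) {y x₁ x₂ : V} (hne : x₁ ≠ x₂) (h₁ : X.Adj y x₁)
    (h₂ : X.Adj y x₂) (r₁ : X.dist p y = X.dist p x₁ + 1) (r₂ : X.dist p y = X.dist p x₂ + 1) :
    ∃ m, X.Adj x₁ m ∧ X.Adj x₂ m ∧ X.dist p x₁ = X.dist p m + 1 := by
  have d12 := (med_even hX h₁.symm h₂.symm hne).2
  obtain ⟨m, ⟨e1, e2, e3⟩, -⟩ := hX.med p x₁ x₂
  unfold Btw at e1 e2 e3
  have c1 : X.dist m x₁ = X.dist x₁ m := SimpleGraph.dist_comm
  have c2 : X.dist m x₂ = X.dist x₂ m := SimpleGraph.dist_comm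
  have f1 : X.dist x₁ m = 1 := by omega
  have f2 : X.dist x₂ m = 1 := by omega
  refine ⟨m, SimpleGraph.dist_eq_one_iff_adj.1 f1, SimpleGraph.dist_eq_one_iff_adj.1 f2, ?_⟩
  omega

end Pool.Agent.HC
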