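import Pool.Agent.HC.MedA

/-!
# HC module MedB: at most two lower neighbours (diff 3)

PROOF.  Suppose `y` has three distinct lower neighbours `x₁, x₂, x₃` (write `r = dist p`,
`r y = r x_i + 1`).  By `med_quad` there are common lower neighbours `z₁₂` of `x₁, x₂`, `z₁₃` of
`x₁, x₃`, `z₂₃` of `x₂, x₃` (`r x_i = r z + 1`).
They are distinct: if e.g. `z₁₂ = z₁₃ = z`, then `z` and `y` (`z ≠ y`, different `r`) are both
adjacent to `x₁, x₂, x₃`, contradicting `med_k23`.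
`z₁₂, z₁₃` are lower neighbours of `x₁`, so `med_quad` gives a common lower neighbour `w` of them;
similarly `w'` for `z₁₂, z₂₃` (lower neighbours of `x₂`).
Let `m` be the median of `z₁₂, z₁₃, z₂₃`: the pairwise distances are `2` (`med_even`, common
neighbours `x₁, x₂, x₃`), so (`Btw` for the three pairs) `dist z₁₂ m = dist z₁₃ m = dist z₂₃ m = 1`.
`x₁, w, m` are common neighbours of `z₁₂ ≠ z₁₃`, so by `med_k23` they are not pairwise distinct;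
`x₁ ≠ w` (different `r`), so `m = x₁` or `m = w`.  Similarly (`z₁₂, z₂₃`) `m = x₂` or `m = w'`.
`m = x₁` is impossible: `x₁ ≠ x₂`, and `m = w'` has `r m = r x₁ - 2`.  So `m = w`, and `w` is adjacent
to `z₂₃`.
Now `y; x₁, x₂, x₃; z₁₂, z₁₃, z₂₃; w` are the vertices of a 3-cube: they are distinct (the four
groups have different `r`), and the map `f : (Fin 3 → Bool) → V` with
`f a` = `y` if no coordinate is `true`, `x_i` if exactly the coordinate `i` is `true`, `z_{ij}` if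
exactly `i, j` are `true`, `w` if all are, is injective and maps the pairs differing in one
coordinate to adjacent vertices (a finite check: define `f a = ` nested `if`s or a `match` on
`(a 0, a 1, a 2)`; for the adjacency do `cases` on `a 0, a 1, a 2` and `fin_cases i`, using
`Function.update`).  This contradicts `NoCube`.
-/

set_option autoImplicit false

namespace Pool.Agent.HC

/-- the vertices of the 3-cube -/
def MedB.g {V : Type} (y x₁ x₂ x₃ z₁₂ z₁₃ z₂₃ w : V) : Bool → Bool → Bool → V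
  | false, false, false => y
  | true, false, false => x₁
  | false, true, false => x₂
  | false, false, true => x₃
  | true, true, false => z₁₂
  | true, false, true => z₁₃
  | false, true, true => z₂₃
  | true, true, true => w

theorem MedB.g_inj {V : Type} {r : V → ℕ} {y x₁ x₂ x₃ z₁₂ z₁₃ z₂₃ w : V} {k : ℕ}
    (hy : r y = k + 3) (h₁ : r x₁ = k + 2) (h₂ : r x₂ = k + 2) (h₃ : r x₃ = k + 2)
    (k₁ : r z₁₂ = k + 1) (k₂ : r z₁₃ = k + 1) (k₃ : r z₂₃ = k + 1) (hw : r w = k)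
    (n₁ : x₁ ≠ x₂) (n₂ : x₁ ≠ x₃) (n₃ : x₂ ≠ x₃) (m₁ : z₁₂ ≠ z₁₃) (m₂ : z₁₂ ≠ z₂₃)
    (m₃ : z₁₃ ≠ z₂₃) (a b c a' b' c' : Bool)
    (h : MedB.g y x₁ x₂ x₃ z₁₂ z₁₃ z₂₃ w a b c = MedB.g y x₁ x₂ x₃ z₁₂ z₁₃ z₂₃ w a' b' c') :
    a = a' ∧ b = b' ∧ c = c' := by
  have hr := congrArg r h
  cases a <;> cases b <;> cases c <;> cases a' <;> cases b' <;> cases c' <;>
    simp only [MedB.g] at h hr <;>
    first
    | exact ⟨rfl, rfl, rfl⟩
    | (exfalso; omega)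
    | exact absurd h n₁
    | exact absurd h n₂
    | exact absurd h n₃
    | exact absurd h m₁
    | exact absurd h m₂
    | exact absurd h m₃
    | exact absurd h.symm n₁
    | exact absurd h.symm n₂
    | exact absurd h.symm n₃
    | exact absurd h.symm m₁
    | exact absurd h.symm m₂
    | exact absurd h.symm m₃

theorem MedB.cube {V : Type} {X : SimpleGraph V} (hc : NoCube X) {r : V → ℕ}
    {y x₁ x₂ x₃ z₁₂ z₁₃ z₂₃ w : V} {k : ℕ}
    (hy : r y = k + 3) (h₁ : r x₁ = k + 2) (h₂ : r x₂ = k + 2) (h₃ : r x₃ = k + 2)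
    (k₁ : r z₁₂ = k + 1) (k₂ : r z₁₃ = k + 1) (k₃ : r z₂₃ = k + 1) (hw : r w = k)
    (n₁ : x₁ ≠ x₂) (n₂ : x₁ ≠ x₃) (n₃ : x₂ ≠ x₃) (m₁ : z₁₂ ≠ z₁₃) (m₂ : z₁₂ ≠ z₂₃)
    (m₃ : z₁₃ ≠ z₂₃) (a₁ : X.Adj y x₁) (a₂ : X.Adj y x₂) (a₃ : X.Adj y x₃)
    (b₁ : X.Adj x₁ z₁₂) (b₂ : X.Adj x₂ z₁₂) (b₃ : X.Adj x₁ z₁₃) (b₄ : X.Adj x₃ z₁₃)
    (b₅ : X.Adj x₂ z₂₃) (b₆ : X.Adj x₃ z₂₃) (c₁ : X.Adj z₁₂ w) (c₂ : X.Adj z₁₃ w)
    (c₃ : X.Adj z₂₃ w) : False := by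
  apply hc
  refine ⟨fun a => MedB.g y x₁ x₂ x₃ z₁₂ z₁₃ z₂₃ w (a 0) (a 1) (a 2), ?_, ?_⟩
  · intro a b h
    obtain ⟨e₀, e₁, e₂⟩ := MedB.g_inj hy h₁ h₂ h₃ k₁ k₂ k₃ hw n₁ n₂ n₃ m₁ m₂ m₃ _ _ _ _ _ _ h
    funext i
    fin_cases i
    · exact e₀
    · exact e₁
    · exact e₂
  · intro a i
    have u₀ : (Function.update a 0 (!a 0)) 0 = !a 0 := by simp
    have u₁ : (Function.update a 0 (!a 0)) 1 = a 1 := by simp
    have u₂ : (Function.update a 0 (!a 0)) 2 = a 2 := by simp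
    have v₀ : (Function.update a 1 (!a 1)) 0 = a 0 := by simp
    have v₁ : (Function.update a 1 (!a 1)) 1 = !a 1 := by simp
    have v₂ : (Function.update a 1 (!a 1)) 2 = a 2 := by simp
    have w₀ : (Function.update a 2 (!a 2)) 0 = a 0 := by simp
    have w₁ : (Function.update a 2 (!a 2)) 1 = a 1 := by simp
    have w₂ : (Function.update a 2 (!a 2)) 2 = !a 2 := by simp
    fin_cases i
    · change X.Adj (MedB.g y x₁ x₂ x₃ z₁₂ z₁₃ z₂₃ w (a 0) (a 1) (a 2))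
        (MedB.g y x₁ x₂ x₃ z₁₂ z₁₃ z₂₃ w (Function.update a 0 (!a 0) 0)
          (Function.update a 0 (!a 0) 1) (Function.update a 0 (!a 0) 2))
      rw [u₀, u₁, u₂]
      cases a 0 <;> cases a 1 <;> cases a 2 <;> simp only [MedB.g, Bool.not_true, Bool.not_false] <;>
        first | assumption | (apply SimpleGraph.Adj.symm; assumption)
    · change X.Adj (MedB.g y x₁ x₂ x₃ z₁₂ z₁₃ z₂₃ w (a 0) (a 1) (a 2))
        (MedB.g y x₁ x₂ x₃ z₁₂ z₁₃ z₂₃ w (Function.update a 1 (!a 1) 0)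
          (Function.update a 1 (!a 1) 1) (Function.update a 1 (!a 1) 2))
      rw [v₀, v₁, v₂]
      cases a 0 <;> cases a 1 <;> cases a 2 <;> simp only [MedB.g, Bool.not_true, Bool.not_false] <;>
        first | assumption | (apply SimpleGraph.Adj.symm; assumption)
    · change X.Adj (MedB.g y x₁ x₂ x₃ z₁₂ z₁₃ z₂₃ w (a 0) (a 1) (a 2))
        (MedB.g y x₁ x₂ x₃ z₁₂ z₁₃ z₂₃ w (Function.update a 2 (!a 2) 0)
          (Function.update a 2 (!a 2) 1) (Function.update a 2 (!a 2) 2))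
      rw [w₀, w₁, w₂]
      cases a 0 <;> cases a 1 <;> cases a 2 <;> simp only [MedB.g, Bool.not_true, Bool.not_false] <;>
        first | assumption | (apply SimpleGraph.Adj.symm; assumption)

theorem med_two {V : Type} {X : SimpleGraph V} (hX : IsMedian X) (hc : NoCube X) (p : V)
    {y x₁ x₂ x₃ : V} (h₁₂ : x₁ ≠ x₂) (h₁₃ : x₁ ≠ x₃) (h₂₃ : x₂ ≠ x₃) (a₁ : X.Adj y x₁)
    (a₂ : X.Adj y x₂) (a₃ : X.Adj y x₃) (r₁ : X.dist p y = X.dist p x₁ + 1)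
    (r₂ : X.dist p y = X.dist p x₂ + 1) (r₃ : X.dist p y = X.dist p x₃ + 1) : False := by
  obtain ⟨z₁₂, b₁, b₂, s₁⟩ := med_quad hX p h₁₂ a₁ a₂ r₁ r₂
  obtain ⟨z₁₃, b₃, b₄, s₂⟩ := med_quad hX p h₁₃ a₁ a₃ r₁ r₃
  obtain ⟨z₂₃, b₅, b₆, s₃⟩ := med_quad hX p h₂₃ a₂ a₃ r₂ r₃
  have ny : ∀ z, X.dist p x₁ = X.dist p z + 1 → y ≠ z := by
    intro z hz he
    rw [← he] at hz
    omega
  have m₁ : z₁₂ ≠ z₁₃ := by
    intro he
    rw [← he] at b₄
    exact med_k23 hX (ny z₁₂ s₁) h₁₂ h₁₃ h₂₃ a₁ a₂ a₃ b₁.symm b₂.symm b₄.symm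
  have m₂ : z₁₂ ≠ z₂₃ := by
    intro he
    rw [← he] at b₆
    exact med_k23 hX (ny z₁₂ s₁) h₁₂ h₁₃ h₂₃ a₁ a₂ a₃ b₁.symm b₂.symm b₆.symm
  have m₃ : z₁₃ ≠ z₂₃ := by
    intro he
    rw [← he] at b₅
    exact med_k23 hX (ny z₁₃ s₂) h₁₂ h₁₃ h₂₃ a₁ a₂ a₃ b₃.symm b₅.symm b₄.symm
  obtain ⟨w, c₁, c₂, t₁⟩ := med_quad hX p m₁ b₁ b₃ s₁ s₂
  obtain ⟨w', c₁', c₂', t₁'⟩ := med_quad hX p m₂ b₂ b₅ (by omega) s₃
  obtain ⟨m, ⟨q₁, q₂, q₃⟩, -⟩ := hX.med z₁₂ z₁₃ z₂₃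
  unfold Btw at q₁ q₂ q₃
  rw [(med_even hX b₁.symm b₃.symm m₁).2] at q₁
  rw [(med_even hX b₄.symm b₆.symm m₃).2] at q₂
  rw [(med_even hX b₂.symm b₅.symm m₂).2] at q₃
  rw [SimpleGraph.dist_comm (u := m) (v := z₁₃)] at q₁
  have d₁ : X.Adj z₁₂ m := SimpleGraph.dist_eq_one_iff_adj.1 (by omega)
  have d₂ : X.Adj z₁₃ m := SimpleGraph.dist_eq_one_iff_adj.1 (by omega)
  have d₃ : X.Adj m z₂₃ := SimpleGraph.dist_eq_one_iff_adj.1 (by omega)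
  have nx₁w : x₁ ≠ w := by
    intro he
    rw [← he] at t₁
    omega
  have nx₂w : x₂ ≠ w' := by
    intro he
    rw [← he] at t₁'
    omega
  have hmw : m = w := by
    by_contra hmw
    by_cases hm₁ : x₁ = m
    · by_cases hm₂ : x₂ = m
      · exact h₁₂ (hm₁.trans hm₂.symm)
      · have hm₃ : w' ≠ m := by
          intro he
          rw [he, ← hm₁] at t₁'
          omega
        exact med_k23 hX m₂ nx₂w hm₂ hm₃ b₂.symm c₁' d₁ b₅.symm c₂' d₃.symm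
    · exact med_k23 hX m₁ nx₁w hm₁ (fun he => hmw he.symm) b₁.symm c₁ d₁ b₃.symm c₂ d₂
  subst hmw
  exact MedB.cube hc (r := fun v => X.dist p v) (k := X.dist p m)
    (by omega) (by omega) (by omega) (by omega)
    (by omega) (by omega) (by omega) rfl
    h₁₂ h₁₃ h₂₃ m₁ m₂ m₃ a₁ a₂ a₃ b₁ b₂ b₃ b₄ b₅ b₆ c₁ c₂ d₃.symm

end Pool.Agent.HC
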