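import Pool.Agent.HC.MedB

/-!
# HC module MedC: the descending structure of a median graph without 3-cubes (diff 2)

PROOF.  `r x = X.dist p x`; `adj_r` is `med_adj`.  For every `y` choose `a y` by `med_lower` (for
`y = p` anything).  If `y` has a lower neighbour different from `a y` let `b y` be one (otherwise
anything) and `z y` a common lower neighbour of `b y` and `a y` (`med_quad`).  `lower`: a lower
neighbour `x ≠ a y` of `y` is `b y` by `med_two`.  (Note that `p` has no lower neighbours: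
`r p = 0`; `lower` for `y = p` is vacuous.)
`sq`: let `x₁, x₂, x₃, x₄` be a square with `r x₁ = r x₂ + 1 = r x₄ + 1`.  `x₂ ≠ x₄` are lower
neighbours of `x₁`, so by `lower` one is `a x₁` and the other is `b x₁` (they are different).
`x₃` and `z x₁` and `x₁` are common neighbours of `x₂ ≠ x₄`; `x₃ ≠ x₁`, `z x₁ ≠ x₁` (its `r` is
`r x₁ - 2`), so `x₃ = z x₁` by `med_k23`.
-/

set_option autoImplicit false

namespace Pool.Agent.HC

theorem exists_desc {V : Type} {X : SimpleGraph V} (hX : IsMedian X) (hc : NoCube X) (p : V) :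
    Nonempty (Desc X p) := by
  classical
  -- the parent
  have ha : ∀ y : V, ∃ x : V, y ≠ p → (X.Adj y x ∧ X.dist p y = X.dist p x + 1) := by
    intro y
    by_cases h : y = p
    · exact ⟨p, fun h' => absurd h h'⟩
    · obtain ⟨x, hx⟩ := med_lower hX p h
      exact ⟨x, fun _ => hx⟩
  choose a ha using ha
  -- the second lower neighbour
  have hb : ∀ y : V, ∃ q : V × V, (∃ x, X.Adj y x ∧ X.dist p y = X.dist p x + 1 ∧ x ≠ a y) →
      (X.Adj y q.1 ∧ X.dist p y = X.dist p q.1 + 1 ∧ q.1 ≠ a y ∧ X.Adj q.1 q.2 ∧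
        X.Adj (a y) q.2 ∧ X.dist p q.1 = X.dist p q.2 + 1) := by
    intro y
    by_cases h : ∃ x, X.Adj y x ∧ X.dist p y = X.dist p x + 1 ∧ x ≠ a y
    · obtain ⟨x, h1, h2, h3⟩ := h
      have hy : y ≠ p := by
        rintro rfl
        rw [SimpleGraph.dist_self] at h2
        omega
      obtain ⟨m, m1, m2, m3⟩ := med_quad hX p h3 h1 (ha y hy).1 h2 (ha y hy).2
      exact ⟨(x, m), fun _ => ⟨h1, h2, h3, m1, m2, m3⟩⟩
    · exact ⟨(p, p), fun h' => absurd h' h⟩
  choose q hq using hb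
  have hlow : ∀ y x : V, X.Adj y x → X.dist p y = X.dist p x + 1 →
      x = a y ∨ (x = (q y).1 ∧ x ≠ a y ∧ X.Adj (q y).1 (q y).2 ∧ X.Adj (q y).2 (a y) ∧
        X.dist p (q y).1 = X.dist p (q y).2 + 1) := by
    intro y x h1 h2
    by_cases h3 : x = a y
    · exact Or.inl h3
    · right
      have hy : y ≠ p := by
        rintro rfl
        rw [SimpleGraph.dist_self] at h2
        omega
      obtain ⟨g1, g2, g3, g4, g5, g6⟩ := hq y ⟨x, h1, h2, h3⟩
      refine ⟨?_, h3, g4, g5.symm, g6⟩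
      by_contra h4
      exact med_two hX hc p h4 h3 g3 h1 g1 (ha y hy).1 h2 g2 (ha y hy).2
  refine ⟨⟨fun x => X.dist p x, a, fun y => (q y).1, fun y => (q y).2, ?_, ?_, hlow, ?_, ?_⟩⟩
  · intro x y h
    exact med_adj hX p h
  · intro y hy
    exact ha y hy
  · exact SimpleGraph.dist_self
  · rintro x₁ x₂ x₃ x₄ ⟨s12, s23, s34, s41, n13, n24⟩ r2 r4
    have l2 := hlow x₁ x₂ s12 r2
    have l4 := hlow x₁ x₄ s41.symm r4
    have hord : (x₂ = a x₁ ∧ x₄ = (q x₁).1) ∨ (x₂ = (q x₁).1 ∧ x₄ = a x₁) := by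
      rcases l2 with l2 | l2
      · rcases l4 with l4 | l4
        · exact absurd (l2.trans l4.symm) n24
        · exact Or.inl ⟨l2, l4.1⟩
      · rcases l4 with l4 | l4
        · exact Or.inr ⟨l2.1, l4⟩
        · exact absurd (l2.1.trans l4.1.symm) n24
    have hz : X.Adj (q x₁).1 (q x₁).2 ∧ X.Adj (q x₁).2 (a x₁) ∧
        X.dist p (q x₁).1 = X.dist p (q x₁).2 + 1 := by
      rcases l2 with l2 | l2
      · rcases l4 with l4 | l4
        · exact absurd (l2.trans l4.symm) n24
        · exact l4.2.2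
      · exact l2.2.2
    refine ⟨?_, hord⟩
    by_contra hne
    have hz1 : (q x₁).2 ≠ x₁ := by
      intro h
      have h3 := hz.2.2
      rcases hord with ⟨-, h4⟩ | ⟨h2, -⟩
      · rw [h, ← h4] at h3
        omega
      · rw [h, ← h2] at h3
        omega
    have z2 : X.Adj x₂ (q x₁).2 := by
      rcases hord with ⟨h2, h4⟩ | ⟨h2, h4⟩
      · rw [h2]; exact hz.2.1.symm
      · rw [h2]; exact hz.1
    have z4 : X.Adj x₄ (q x₁).2 := by
      rcases hord with ⟨h2, h4⟩ | ⟨h2, h4⟩
      · rw [h4]; exact hz.1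
      · rw [h4]; exact hz.2.1.symm
    exact med_k23 hX n24 n13 hz1.symm hne s12.symm s23 z2 s41 s34.symm z4

end Pool.Agent.HC
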