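import Pool.Agent.HC.Defs

/-!
# HC module OrbE: orbit representatives (diff 2)

PROOF.  Vertices: for `v` in the orbit of `p` put `τ v = p`, otherwise `τ v = ` the chosen
representative of the orbit (`MulAction.orbitRel`, `Quotient.out`).  `τ v` lies in the orbit of `v`,
so choose `η v` with `η v • τ v = v`, and put `η p = 1` (define `η v = if v = p then 1 else ..`;
classical).  `τ (h • v) = τ v` since the orbits are the same.
Pairs: `ρ e` = the chosen representative of the orbit of `e` under `H` acting on `V × V`, `κ e` chosen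
with `κ e • ρ e = e`.
Orientation: let `c : V × V → 𝒪` be the map to the set `𝒪` of orbits of `H` on `V × V`
(`MulAction.orbitRel.Quotient H (V × V)`), and choose a well-order (a linear order, e.g.
`linearOrderOfSTO WellOrderingRel`, or use the relation `WellOrderingRel` itself, which is
trichotomous and asymmetric) on `𝒪`.  Put `O x y ↔ X.Adj x y ∧ c (x, y) < c (y, x)`.  It is
invariant.  If `X.Adj x y` then `c (x, y) ≠ c (y, x)`: otherwise there is `g` with
`g • (x, y) = (y, x)`, i.e. `g • x = y`, `g • y = x`, excluded by `hinv`.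
-/

set_option autoImplicit false

namespace Pool.Agent.HC

theorem exists_orb {H : Type} [Group H] {V : Type} [MulAction H V] (X : SimpleGraph V)
    (hadj : ∀ (g : H) (x y : V), X.Adj x y → X.Adj (g • x) (g • y))
    (hinv : ∀ (g : H) (x y : V), X.Adj x y → g • x = y → g • y ≠ x) (p : V) :
    Nonempty (Orb H V X p) := by
  classical
  -- vertices
  let rp : V → V := fun v => (Quotient.out (Quotient.mk (MulAction.orbitRel H V) v))
  have hrp : ∀ v, ∃ h : H, h • rp v = v := by
    intro v
    have h1 : (MulAction.orbitRel H V) (rp v) v := @Quotient.mk_out V (MulAction.orbitRel H V) v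
    have h2 : (MulAction.orbitRel H V) v (rp v) := (MulAction.orbitRel H _).symm h1
    obtain ⟨h, hh⟩ := h2
    exact ⟨h, hh⟩
  have hrpi : ∀ (h : H) (v : V), rp (h • v) = rp v := by
    intro h v
    have : Quotient.mk (MulAction.orbitRel H V) (h • v) = Quotient.mk (MulAction.orbitRel H V) v :=
      Quotient.sound ⟨h, rfl⟩
    show Quotient.out _ = Quotient.out _
    rw [this]
  let τ : V → V := fun v => if (∃ h : H, h • p = v) then p else rp v
  have hτ : ∀ v, ∃ h : H, h • τ v = v := by
    intro v
    by_cases hv : ∃ h : H, h • p = v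
    · obtain ⟨h, hh⟩ := hv
      refine ⟨h, ?_⟩
      show h • (if (∃ h : H, h • p = v) then p else rp v) = v
      rw [if_pos ⟨h, hh⟩, hh]
    · obtain ⟨h, hh⟩ := hrp v
      refine ⟨h, ?_⟩
      show h • (if (∃ h : H, h • p = v) then p else rp v) = v
      rw [if_neg hv, hh]
  have hτi : ∀ (h : H) (v : V), τ (h • v) = τ v := by
    intro h v
    show (if (∃ g : H, g • p = h • v) then p else rp (h • v)) =
      (if (∃ g : H, g • p = v) then p else rp v)
    have hiff : (∃ g : H, g • p = h • v) ↔ (∃ g : H, g • p = v) := by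
      constructor
      · rintro ⟨g, hg⟩
        exact ⟨h⁻¹ * g, by rw [mul_smul, hg, inv_smul_smul]⟩
      · rintro ⟨g, hg⟩
        exact ⟨h * g, by rw [mul_smul, hg]⟩
    rw [hrpi]
    simp only [hiff]
  have hτp : τ p = p := by
    show (if (∃ h : H, h • p = p) then p else rp p) = p
    rw [if_pos ⟨1, one_smul _ _⟩]
  choose η0 hη0 using hτ
  let η : V → H := fun v => if v = p then 1 else η0 v
  have hη : ∀ v, η v • τ v = v := by
    intro v
    show (if v = p then 1 else η0 v) • τ v = v
    by_cases hv : v = p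
    · rw [if_pos hv, hv, hτp, one_smul]
    · rw [if_neg hv, hη0]
  -- pairs
  let c : V × V → MulAction.orbitRel.Quotient H (V × V) := fun e =>
    Quotient.mk (MulAction.orbitRel H (V × V)) e
  let ρ : V × V → V × V := fun e => Quotient.out (c e)
  have hci : ∀ (h : H) (e : V × V), c (h • e) = c e := fun h e => Quotient.sound ⟨h, rfl⟩
  have hρ : ∀ e, ∃ h : H, h • ρ e = e := by
    intro e
    have h1 : (MulAction.orbitRel H (V × V)) (ρ e) e :=
      @Quotient.mk_out (V × V) (MulAction.orbitRel H (V × V)) e
    have h2 : (MulAction.orbitRel H (V × V)) e (ρ e) := (MulAction.orbitRel H _).symm h1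
    obtain ⟨h, hh⟩ := h2
    exact ⟨h, hh⟩
  choose κ hκ using hρ
  have hne : ∀ x y : V, X.Adj x y → c (x, y) ≠ c (y, x) := by
    intro x y hxy h
    have h1 : (MulAction.orbitRel H (V × V)) (x, y) (y, x) := Quotient.exact h
    obtain ⟨g, hg⟩ := h1
    have hg' : g • ((y, x) : V × V) = (x, y) := hg
    have h2 : g • y = x := congrArg Prod.fst hg'
    have h3 : g • x = y := congrArg Prod.snd hg'
    exact hinv g x y hxy h3 h2
  refine ⟨⟨τ, η, hη, hτi, hτp, ?_, fun x y => X.Adj x y ∧ WellOrderingRel (c (x, y)) (c (y, x)),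
    ?_, fun x y h => h.1, ?_, ?_, ρ, κ, hκ, ?_⟩⟩
  · show (if p = p then 1 else η0 p) = 1
    rw [if_pos rfl]
  · rintro h x y ⟨h1, h2⟩
    refine ⟨hadj h x y h1, ?_⟩
    have e1 : c (h • x, h • y) = c (x, y) := hci h (x, y)
    have e2 : c (h • y, h • x) = c (y, x) := hci h (y, x)
    rw [e1, e2]
    exact h2
  · intro x y hxy
    rcases trichotomous_of WellOrderingRel (c (x, y)) (c (y, x)) with h | h | h
    · exact Or.inl ⟨hxy, h⟩
    · exact absurd h (hne x y hxy)
    · exact Or.inr ⟨hxy.symm, h⟩
  · rintro x y ⟨_, h2⟩ ⟨_, h3⟩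
    exact asymm_of WellOrderingRel h2 h3
  · intro h e
    show Quotient.out (c (h • e)) = Quotient.out (c e)
    rw [hci]

end Pool.Agent.HC
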