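import Pool.Agent.HC.Defs

/-!
# HC module SqR: finitely many requirements imply `SqReq` (diff 2)

PROOF.  For a square `s = (x₁, x₂, x₃, x₄)` in `W` let `H_s` be the pointwise stabilizer (the
intersection of the four `MulAction.stabilizer`s), finitely generated by `hsl`: choose a finite
generating set `Γ s`.  For two squares `s, s'` in `W` such that there is `g` with `g • s = s'`
(componentwise) choose such a `g s s'`.  Let `𝓡` be the finite set of the triples `(γ, x₁, x₂)` with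
`s = (x₁, x₂, x₃, x₄)` a square in `W` and `γ ∈ Γ s`, and `(g s s', x₁, x₂)`.
Let `T` satisfy `Req` on `𝓡`, let `s = (x₁, x₂, x₃, x₄)` be a square in `W` and `g • s = s'` in `W`.
Write `k = (T.st x₁ x₂).2.1`, `B = T.D.B (T.st x₁ x₂).1`.
(1) For `γ ∈ H_s` (so `γ • x₁ = x₁`, `γ • x₂ = x₂`) `Req γ x₁ x₂` says `k⁻¹ * (γ * k) ∈ B`; this holds
for `γ ∈ Γ s`, hence for all `γ ∈ H_s` (`Subgroup.closure_induction`).
(2) `γ = (g s s')⁻¹ * g ∈ H_s`.  `Req (g s s') x₁ x₂` gives the equality of the first and third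
components (`g s s' • x₁ = g • x₁` etc.) and `k'⁻¹ * (g s s' * k) ∈ B`, `k' = (T.st (g•x₁) (g•x₂)).2.1`.
So `k'⁻¹ * (g * k) = (k'⁻¹ * (g s s' * k)) * (k⁻¹ * (γ * k)) ∈ B`.
The elements of `𝓡` satisfy the first conclusion since all the vertices are in `W`.
-/

set_option autoImplicit false

namespace Pool.Agent.HC

theorem exists_sqreq {H : Type} [Group H] {V : Type} [MulAction H V] {X : SimpleGraph V}
    (hsl : ∀ x₁ x₂ x₃ x₄ : V, IsSq X x₁ x₂ x₃ x₄ → ∀ K : Subgroup H,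
      (∀ g ∈ K, g • x₁ = x₁ ∧ g • x₂ = x₂ ∧ g • x₃ = x₃ ∧ g • x₄ = x₄) → K.FG)
    (W : Set V) (hW : W.Finite) :
    ∃ 𝓡 : Set (H × V × V), 𝓡.Finite ∧
      (∀ g x y, (g, x, y) ∈ 𝓡 → x ∈ W ∧ y ∈ W ∧ g • x ∈ W ∧ g • y ∈ W ∧ X.Adj x y) ∧
      ∀ T : Lft H V X W, (∀ g x y, (g, x, y) ∈ 𝓡 → T.Req g x y) → T.SqReq := by
  classical
  let 𝒮 : Set (V × V × V × V) := {s | IsSq X s.1 s.2.1 s.2.2.1 s.2.2.2 ∧ s.1 ∈ W ∧ s.2.1 ∈ W ∧
    s.2.2.1 ∈ W ∧ s.2.2.2 ∈ W}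
  let 𝒯 : Set (V × V × V × V) := W ×ˢ (W ×ˢ (W ×ˢ W))
  have h𝒯 : 𝒯.Finite := hW.prod (hW.prod (hW.prod hW))
  have h𝒮 : 𝒮.Finite := by
    refine h𝒯.subset ?_
    rintro ⟨x₁, x₂, x₃, x₄⟩ ⟨_, h1, h2, h3, h4⟩
    exact ⟨h1, h2, h3, h4⟩
  let K : V × V × V × V → Subgroup H := fun s => MulAction.stabilizer H s
  have hK : ∀ s g, g ∈ K s ↔ g • s.1 = s.1 ∧ g • s.2.1 = s.2.1 ∧ g • s.2.2.1 = s.2.2.1 ∧
      g • s.2.2.2 = s.2.2.2 := by
    rintro ⟨x₁, x₂, x₃, x₄⟩ g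
    rw [MulAction.mem_stabilizer_iff]
    simp only [Prod.smul_mk, Prod.mk.injEq]
  have hfg : ∀ s ∈ 𝒮, ∃ Γ : Finset H, Subgroup.closure (Γ : Set H) = K s := by
    intro s hs
    exact hsl s.1 s.2.1 s.2.2.1 s.2.2.2 hs.1 (K s) (fun g hg => (hK s g).1 hg)
  choose! Γ hΓ using hfg
  let gg : (V × V × V × V) → (V × V × V × V) → H := fun s s' =>
    if h : ∃ g : H, g • s = s' then h.choose else 1
  have hgg : ∀ s s', (∃ g : H, g • s = s') → gg s s' • s = s' := by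
    intro s s' h
    show (if h : ∃ g : H, g • s = s' then h.choose else 1) • s = s'
    rw [dif_pos h]
    exact h.choose_spec
  let 𝓡₁ : Set (H × V × V) := ⋃ s ∈ 𝒮, (fun γ => (γ, s.1, s.2.1)) '' (Γ s : Set H)
  let 𝓡₂ : Set (H × V × V) := (fun q : (V × V × V × V) × (V × V × V × V) =>
    (gg q.1 q.2, q.1.1, q.1.2.1)) '' {q | q.1 ∈ 𝒮 ∧ q.2 ∈ 𝒯 ∧ ∃ g : H, g • q.1 = q.2}
  refine ⟨𝓡₁ ∪ 𝓡₂, ?_, ?_, ?_⟩
  · refine Set.Finite.union ?_ ?_
    · exact h𝒮.biUnion fun s _ => (Γ s).finite_toSet.image _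
    · refine Set.Finite.image _ ((h𝒮.prod h𝒯).subset ?_)
      rintro ⟨s, s'⟩ ⟨h1, h2, _⟩
      exact ⟨h1, h2⟩
  · rintro g x y (h | h)
    · simp only [𝓡₁, Set.mem_iUnion] at h
      obtain ⟨s, hs, γ, hγ, he⟩ := h
      simp only [Prod.mk.injEq] at he
      obtain ⟨rfl, rfl, rfl⟩ := he
      have hγK : γ ∈ K s := by
        rw [← hΓ s hs]
        exact Subgroup.subset_closure hγ
      obtain ⟨k1, k2, _, _⟩ := (hK s γ).1 hγK
      rw [k1, k2]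
      exact ⟨hs.2.1, hs.2.2.1, hs.2.1, hs.2.2.1, hs.1.1⟩
    · obtain ⟨⟨s, s'⟩, ⟨hs, hs', hg⟩, he⟩ := h
      simp only [Prod.mk.injEq] at he
      obtain ⟨rfl, rfl, rfl⟩ := he
      have h1 := hgg s s' hg
      have h2 : gg s s' • s.1 = s'.1 := congrArg Prod.fst h1
      have h3 : gg s s' • s.2.1 = s'.2.1 := congrArg (fun q => q.2.1) h1
      rw [h2, h3]
      exact ⟨hs.2.1, hs.2.2.1, hs'.1, hs'.2.1, hs.1.1⟩
  · intro T hT x₁ x₂ x₃ x₄ hsq g m1 m2 m3 m4 n1 n2 n3 n4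
    obtain ⟨s, hsdef⟩ : ∃ s : V × V × V × V, s = (x₁, x₂, x₃, x₄) := ⟨_, rfl⟩
    obtain ⟨s', hsdef'⟩ : ∃ s : V × V × V × V, s = (g • x₁, g • x₂, g • x₃, g • x₄) := ⟨_, rfl⟩
    have hs : s ∈ 𝒮 := by
      rw [hsdef]
      exact ⟨hsq, m1, m2, m3, m4⟩
    have hs' : s' ∈ 𝒯 := by
      rw [hsdef']
      exact ⟨n1, n2, n3, n4⟩
    have hex : ∃ g : H, g • s = s' := ⟨g, by rw [hsdef, hsdef']; rfl⟩
    obtain ⟨h, hhdef⟩ : ∃ h, h = gg s s' := ⟨_, rfl⟩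
    have hh : h • s = s' := by
      rw [hhdef]
      exact hgg s s' hex
    have hh' := hh
    rw [hsdef, hsdef'] at hh'
    simp only [Prod.smul_mk, Prod.mk.injEq] at hh'
    obtain ⟨k1, k2, k3, k4⟩ := hh'
    have hR : T.Req h x₁ x₂ := by
      apply hT
      refine Or.inr ⟨(s, s'), ⟨hs, hs', hex⟩, ?_⟩
      rw [hhdef, hsdef]
    obtain ⟨r1, r2, r3⟩ := hR
    rw [k1, k2] at r1 r2 r3
    -- the stabilizer
    have hstab : ∀ γ ∈ K s, (T.st x₁ x₂).2.1⁻¹ * (γ * (T.st x₁ x₂).2.1) ∈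
        T.D.B (T.st x₁ x₂).1 := by
      intro γ hγ
      rw [← hΓ s hs] at hγ
      induction hγ using Subgroup.closure_induction with
      | mem γ hγ' =>
        have hreq : T.Req γ x₁ x₂ := by
          apply hT
          left
          simp only [𝓡₁, Set.mem_iUnion]
          refine ⟨s, hs, γ, hγ', ?_⟩
          rw [hsdef]
        have hγK : γ ∈ K s := by
          rw [← hΓ s hs]
          exact Subgroup.subset_closure hγ'
        obtain ⟨j1, j2, _, _⟩ := (hK s γ).1 hγK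
        rw [hsdef] at j1 j2
        have j1' : γ • x₁ = x₁ := j1
        have j2' : γ • x₂ = x₂ := j2
        obtain ⟨_, _, q3⟩ := hreq
        rw [j1', j2'] at q3
        exact q3
      | one =>
        rw [one_mul, inv_mul_cancel]
        exact Subgroup.one_mem _
      | mul a b _ _ ha hb =>
        have : (T.st x₁ x₂).2.1⁻¹ * (a * b * (T.st x₁ x₂).2.1) =
            ((T.st x₁ x₂).2.1⁻¹ * (a * (T.st x₁ x₂).2.1)) *
            ((T.st x₁ x₂).2.1⁻¹ * (b * (T.st x₁ x₂).2.1)) := by group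
        rw [this]
        exact Subgroup.mul_mem _ ha hb
      | inv a _ ha =>
        have : (T.st x₁ x₂).2.1⁻¹ * (a⁻¹ * (T.st x₁ x₂).2.1) =
            ((T.st x₁ x₂).2.1⁻¹ * (a * (T.st x₁ x₂).2.1))⁻¹ := by group
        rw [this]
        exact Subgroup.inv_mem _ ha
    have hγ : h⁻¹ * g ∈ K s := by
      rw [hK, hsdef]
      refine ⟨?_, ?_, ?_, ?_⟩
      · show (h⁻¹ * g) • x₁ = x₁
        rw [mul_smul, ← k1, inv_smul_smul]
      · show (h⁻¹ * g) • x₂ = x₂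
        rw [mul_smul, ← k2, inv_smul_smul]
      · show (h⁻¹ * g) • x₃ = x₃
        rw [mul_smul, ← k3, inv_smul_smul]
      · show (h⁻¹ * g) • x₄ = x₄
        rw [mul_smul, ← k4, inv_smul_smul]
    refine ⟨r1, r2, ?_⟩
    have e : (T.st (g • x₁) (g • x₂)).2.1⁻¹ * (g * (T.st x₁ x₂).2.1) =
        ((T.st (g • x₁) (g • x₂)).2.1⁻¹ * (h * (T.st x₁ x₂).2.1)) *
        ((T.st x₁ x₂).2.1⁻¹ * ((h⁻¹ * g) * (T.st x₁ x₂).2.1)) := by group
    rw [e]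
    exact Subgroup.mul_mem _ r3 (hstab _ hγ)

end Pool.Agent.HC
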