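import Pool.Agent.HC.Crs

/-!
# HC module Tele: telescoping (diff 2)

PROOF.  For a word `L : List (Fin n × Bool)` and `h : H` define the finite set `U L h` of pairs
recursively: `U [] h = ∅`; `U ((k, true) :: L) h = {(h, k)} ∪ U L (h * f₀ (of k))`;
`U ((k, false) :: L) h = {(h * (f₀ (of k))⁻¹, k)} ∪ U L (h * (f₀ (of k))⁻¹)`.
Claim: if the hypothesis `v k g = (G g)⁻¹ * G (g * f₀ (of k))` holds for all `(g, k) ∈ U L h`, then
`crs f₀ v (FreeGroup.mk L) h = (G h)⁻¹ * G (h * f₀ (FreeGroup.mk L))`.  Induction on `L`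
(`FreeGroup.mk ((k, b) :: L) = (of k)^{±1} * FreeGroup.mk L`; `crs_mul`, `crs_of`, `crs_inv`).
Take `Good` = the union of the `U s.toWord 1` over `s ∈ S` (`FreeGroup.mk_toWord`); as `f₀ s = 1`
the value is `(G 1)⁻¹ * G 1 = 1`.
(Use classical decidability for the finsets, or build `Good` as a `Set` which is finite.)
-/

set_option autoImplicit false

namespace Pool.Agent.HC

/-- the pairs met by the word -/
def Tele_U {H : Type} [Group H] {n : ℕ} (f₀ : FreeGroup (Fin n) →* H) :
    List (Fin n × Bool) → H → Set (H × Fin n)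
  | [], _ => ∅
  | (k, true) :: L, h => insert (h, k) (Tele_U f₀ L (h * f₀ (FreeGroup.of k)))
  | (k, false) :: L, h =>
    insert (h * (f₀ (FreeGroup.of k))⁻¹, k) (Tele_U f₀ L (h * (f₀ (FreeGroup.of k))⁻¹))

theorem Tele_fin {H : Type} [Group H] {n : ℕ} (f₀ : FreeGroup (Fin n) →* H)
    (L : List (Fin n × Bool)) : ∀ h, (Tele_U f₀ L h).Finite := by
  induction L with
  | nil => intro h; exact Set.finite_empty
  | cons x L ih =>
    intro h
    rcases x with ⟨k, b⟩
    cases b
    · exact (ih _).insert _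
    · exact (ih _).insert _

theorem Tele_val {H : Type} [Group H] {n : ℕ} (f₀ : FreeGroup (Fin n) →* H)
    {Q : Type} [Group Q] (v : Fin n → H → Q) (G : H → Q) (L : List (Fin n × Bool)) :
    ∀ h, (∀ g k, (g, k) ∈ Tele_U f₀ L h → v k g = (G g)⁻¹ * G (g * f₀ (FreeGroup.of k))) →
      crs f₀ v (FreeGroup.mk L) h = (G h)⁻¹ * G (h * f₀ (FreeGroup.mk L)) := by
  induction L with
  | nil =>
    intro h _
    rw [← FreeGroup.one_eq_mk, crs_one, map_one, mul_one, inv_mul_cancel]
  | cons x L ih =>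
    intro h hU
    rcases x with ⟨k, b⟩
    cases b
    · have e : FreeGroup.mk ((k, false) :: L) = (FreeGroup.of k)⁻¹ * FreeGroup.mk L := by
        have h2 : (FreeGroup.of k)⁻¹ = FreeGroup.mk [(k, false)] := by
          rw [FreeGroup.of, FreeGroup.inv_mk]
          rfl
        rw [h2, FreeGroup.mul_mk]
        rfl
      have h1 := ih (h * (f₀ (FreeGroup.of k))⁻¹) fun g k' hg =>
        hU g k' (Set.mem_insert_of_mem _ hg)
      have h2 := hU (h * (f₀ (FreeGroup.of k))⁻¹) k (Set.mem_insert _ _)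
      rw [e, crs_mul, crs_inv, crs_of, h2, map_inv, h1, map_mul, map_inv]
      rw [mul_assoc h, inv_mul_cancel, mul_one, mul_inv_rev, inv_inv]
      group
    · have e : FreeGroup.mk ((k, true) :: L) = FreeGroup.of k * FreeGroup.mk L := by
        rw [FreeGroup.of, FreeGroup.mul_mk]
        rfl
      have h1 := ih (h * f₀ (FreeGroup.of k)) fun g k' hg => hU g k' (Set.mem_insert_of_mem _ hg)
      have h2 := hU h k (Set.mem_insert _ _)
      rw [e, crs_mul, crs_of, h2, h1, map_mul]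
      group

theorem tele {H : Type} [Group H] {n : ℕ} (f₀ : FreeGroup (Fin n) →* H)
    (S : Finset (FreeGroup (Fin n))) (hS : ∀ s ∈ S, f₀ s = 1) :
    ∃ Good : Set (H × Fin n), Good.Finite ∧
      ∀ (Q : Type) [Group Q] (v : Fin n → H → Q) (G : H → Q),
        (∀ g k, (g, k) ∈ Good → v k g = (G g)⁻¹ * G (g * f₀ (FreeGroup.of k))) →
          ∀ s ∈ S, crs f₀ v s 1 = 1 := by
  refine ⟨⋃ s ∈ (S : Set (FreeGroup (Fin n))), Tele_U f₀ s.toWord 1,
    S.finite_toSet.biUnion fun s _ => Tele_fin f₀ s.toWord 1, ?_⟩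
  intro Q _ v G hG s hs
  have h1 := Tele_val f₀ v G s.toWord 1 fun g k hg => hG g k (Set.mem_biUnion hs hg)
  rw [FreeGroup.mk_toWord, hS s hs, mul_one, inv_mul_cancel] at h1
  exact h1

end Pool.Agent.HC
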