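import Pool.Agent.HC.Defs

/-!
# HC module Triv: cocycles on a descending-closed set are coboundaries (diff 2)

PROOF.  Define `G : V → Q` by recursion on `d.r y` (a well-founded recursion, or
`G y = G' (d.r y) y` with `G' 0 y = 1`, `G' (m+1) y = G' m (d.a y) * F (d.a y) y`):
`G y = G (d.a y) * F (d.a y) y` if `d.r y > 0`, `G y = 1` if `d.r y = 0`.  (If `y` has a lower
neighbour then `d.r y > 0`, so `y ≠ p` because `d.r p = 0`, and `d.parent` applies to `y`.)
CLAIM: for all `n` and all adjacent `x, y ∈ W` with `d.r y = d.r x + 1` and `d.r y ≤ n`: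
`F x y = (G x)⁻¹ * G y`.  Induction on `n`.  `y ≠ p`, so `a = d.a y` is a lower neighbour, `a ∈ W`.
If `x = a` this is the definition.  Otherwise (`d.lower`) `x = b = d.b y ≠ a`, and `z = d.z y` is
adjacent to `b` and `a`, `d.r b = d.r z + 1`, so `z ∈ W`.  `(y, b, z, a)` is a square (`y ≠ z` since
`d.r y = d.r z + 2`), `F y b * F b z * F z a * F a y = 1`.  By induction
`F z b = (G z)⁻¹ * G b`, `F z a = (G z)⁻¹ * G a`; `F a y = (G a)⁻¹ * G y`.  As `F b z = (F z b)⁻¹` and
`F b y = (F y b)⁻¹`, we get `F b y = F b z * F z a * F a y = (G b)⁻¹ * G z * (G z)⁻¹ * G a *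
(G a)⁻¹ * G y = (G b)⁻¹ * G y`.
Finally for adjacent `x, y ∈ W` one of `d.r y = d.r x + 1`, `d.r x = d.r y + 1` holds (`d.adj_r`); in
the second case take inverses.
-/

set_option autoImplicit false

namespace Pool.Agent.HC

theorem coboundary {V : Type} {X : SimpleGraph V} {p : V} (d : Desc X p)
    (W : Set V) (hW : ∀ y ∈ W, ∀ x, X.Adj y x → d.r y = d.r x + 1 → x ∈ W)
    {Q : Type} [Group Q] (F : V → V → Q)
    (hF : ∀ x ∈ W, ∀ y ∈ W, X.Adj x y → F y x = (F x y)⁻¹)
    (hsq : ∀ x₁ ∈ W, ∀ x₂ ∈ W, ∀ x₃ ∈ W, ∀ x₄ ∈ W, IsSq X x₁ x₂ x₃ x₄ →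
      F x₁ x₂ * F x₂ x₃ * F x₃ x₄ * F x₄ x₁ = 1) :
    ∃ G : V → Q, ∀ x ∈ W, ∀ y ∈ W, X.Adj x y → F x y = (G x)⁻¹ * G y := by
  let Gr : ℕ → V → Q := fun n => Nat.rec (fun _ => 1) (fun _ g y => g (d.a y) * F (d.a y) y) n
  have hGr : ∀ (m : ℕ) (y : V), Gr (m + 1) y = Gr m (d.a y) * F (d.a y) y := fun _ _ => rfl
  have hG : ∀ y : V, y ≠ p → Gr (d.r y) y = Gr (d.r (d.a y)) (d.a y) * F (d.a y) y := by
    intro y hy
    rw [(d.parent y hy).2, hGr]
  have claim : ∀ (n : ℕ) (x : V), x ∈ W → ∀ y ∈ W, X.Adj x y → d.r y = d.r x + 1 → d.r y ≤ n →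
      F x y = (Gr (d.r x) x)⁻¹ * Gr (d.r y) y := by
    intro n
    induction n with
    | zero =>
      intro x _ y _ _ h1 h2
      omega
    | succ n ih =>
      intro x hx y hy hxy h1 h2
      have hyp : y ≠ p := by
        rintro rfl
        rw [d.r_p] at h1
        omega
      obtain ⟨ha, hra⟩ := d.parent y hyp
      have haW : d.a y ∈ W := hW y hy _ ha hra
      rcases d.lower y x hxy.symm h1 with h | ⟨h, hne, hbz, hza, hrb⟩
      · rw [hG y hyp, h, inv_mul_cancel_left]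
      · subst h
        have hzW : d.z y ∈ W := hW _ hx _ hbz hrb
        have hyz : y ≠ d.z y := by
          intro h
          rw [← h] at hrb
          omega
        have e1 := hsq y hy _ hx _ hzW _ haW ⟨hxy.symm, hbz, hza, ha.symm, hyz, hne⟩
        have e2 := ih _ hzW _ hx hbz.symm hrb (by omega)
        have e3 := ih _ hzW _ haW hza (by omega) (by omega)
        have e4 := hF _ hzW _ hx hbz.symm
        have e5 := hF _ hy _ hx hxy.symm
        have e6 : F (d.a y) y = (Gr (d.r (d.a y)) (d.a y))⁻¹ * Gr (d.r y) y := by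
          rw [hG y hyp, inv_mul_cancel_left]
        have e7 : (F y (d.b y))⁻¹ = F (d.b y) (d.z y) * F (d.z y) (d.a y) * F (d.a y) y := by
          rw [inv_eq_iff_mul_eq_one]
          rw [← e1]
          group
        rw [e5, e7, e4, e2, e3, e6]
        group
  refine ⟨fun y => Gr (d.r y) y, ?_⟩
  intro x hx y hy hxy
  rcases d.adj_r x y hxy with h | h
  · have h1 := claim _ y hy x hx hxy.symm h le_rfl
    have h2 := hF _ hy _ hx hxy.symm
    rw [h2, h1]
    group
  · exact claim _ x hx y hy hxy h le_rfl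

end Pool.Agent.HC
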