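import Pool.Agent.HC.UniA

/-!
# HC module UniB: the universal cocycle (diff 3)

For an edge `(j, h)` let `tp j h = max (r x) (r y)`, `(x, y) = h • pe j`.

PROOF.
(1) STABILITY: `UU n j h = UU m j h` for `n, m ≥ tp j h`.  Induction on `N`: for all `(j, h)` with
`tp j h ≤ N` and `n, m ≥ N`... precisely: for all `N`, `n, m ≥ N`, `tp j h ≤ N`.  If `(j, h)` is not
matched both are `gn j h` (`UU_zero`).  If it is matched by `(g, x, σ)`, the top vertex `g • x₁` is a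
component of `h • pe j` (see `mt_uniq` in UniA: `g • (st x₁ x₂).2.1 • pe j = h • pe j` since `B j`
fixes `pe j`, and `T.stp`), so `tp j h = r (g • x₁) ≥ 1`, `N ≥ 1`, `n = n' + 1`, `m = m' + 1`, and by
`UU_match` it is enough that `UU n'` and `UU m'` agree on the edges of the steps `g • st x₂ x₃`,
`g • st x₃ x₄`, for which `tp ≤ tp j h - 1 ≤ N - 1` (`r (g • x₃) = r (g • x₂) - 1`: by `d.sq`,
`g • x₃ = z (g • x₁)`, and `d.lower`).
(2) Put `u j h = UU (tp j h) j h`.  It is invariant (`tp` is, since `B j` fixes `pe j`; `UU_inv`), and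
`u j h = UU n j h` for `n ≥ tp j h`.
(3) PARENT EDGES ARE NOT MATCHED: if the edge `(j, h)` lies above `{y, a y}` with `r y = r (a y) + 1`
it is not matched: in a match the lower end of the edge is `g • x₂`, and `g • x₄ = a (g • x₁)` where
`g • x₁ = y`; but `x₂ ≠ x₄`.  So `u j h = gn j h`.
(4) COCYCLE: let `x₁, x₂, x₃, x₄` be a square in `W` and `g : H`.  The square `g • x_i` has a vertex of
maximal `r`; it is higher than its two neighbours (`d.adj_r`).  The label of the closed path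
`g • [st x₁ x₂, st x₂ x₃, st x₃ x₄, st x₄ x₁]` is `1` iff the label of the rotated path is `1`
(conjugation) iff that of the reversed path is `1` (`T.rev`: `st y x` is `st x y` reversed, so the
label is the inverse).  So we may assume that `g • x₁` is the top vertex, and (`d.sq`; reversing)
`g • x₄ = a (g • x₁)`, `g • x₂ = b (g • x₁)`.  Then `(j, h) = ((st x₁ x₂).1, g * (st x₁ x₂).2.1)` is
matched by `(g, x, σ)`.  With `n + 1 = r (g • x₁)` `UU_match` is the claim: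
`u = UU (n+1)` on `st x₁ x₂`, `u = UU n` on `st x₂ x₃`, `st x₃ x₄` (their `tp` is `n`), and `u = gn` on
`st x₄ x₁` by (3).
(5) UNIVERSALITY: `UU_univ`.
-/

set_option autoImplicit false

namespace Pool.Agent.HC

variable {H : Type} [Group H] {V : Type} [MulAction H V] {X : SimpleGraph V} {W : Set V} {p : V}

/-- the height of an edge -/
def UniB_tp (T : Lft H V X W) (d : Desc X p) (j : T.D.J) (h : H) : ℕ :=
  max (d.r (h • (T.pe j).1)) (d.r (h • (T.pe j).2))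

theorem UniB_pe (T : Lft H V X W) {j : T.D.J} {h h' : H} (hb : h⁻¹ * h' ∈ T.D.B j) :
    h • T.pe j = h' • T.pe j := by
  have h1 := T.Bfix j _ hb
  rw [mul_smul, inv_smul_eq_iff] at h1
  exact h1.symm

theorem UniB_tp_eq (T : Lft H V X W) (d : Desc X p) {j : T.D.J} {h h' : H}
    (hb : h⁻¹ * h' ∈ T.D.B j) : UniB_tp T d j h = UniB_tp T d j h' := by
  have h1 := UniB_pe T hb
  have h2 : h • (T.pe j).1 = h' • (T.pe j).1 := congrArg Prod.fst h1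
  have h3 : h • (T.pe j).2 = h' • (T.pe j).2 := congrArg Prod.snd h1
  unfold UniB_tp
  rw [h2, h3]

theorem UniB_st (T : Lft H V X W) {x y : V} (hx : x ∈ W) (hy : y ∈ W) (hxy : X.Adj x y) (g : H) :
    ((g * (T.st x y).2.1) • (T.pe (T.st x y).1).1 = g • x ∧
      (g * (T.st x y).2.1) • (T.pe (T.st x y).1).2 = g • y) ∨
    ((g * (T.st x y).2.1) • (T.pe (T.st x y).1).1 = g • y ∧
      (g * (T.st x y).2.1) • (T.pe (T.st x y).1).2 = g • x) := by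
  have h1 := T.stp x hx y hy hxy
  split_ifs at h1 with h2
  · left
    have h3 : (T.st x y).2.1 • (T.pe (T.st x y).1).1 = x := congrArg Prod.fst h1
    have h4 : (T.st x y).2.1 • (T.pe (T.st x y).1).2 = y := congrArg Prod.snd h1
    rw [mul_smul, mul_smul, h3, h4]
    exact ⟨rfl, rfl⟩
  · right
    have h3 : (T.st x y).2.1 • (T.pe (T.st x y).1).1 = y := congrArg Prod.fst h1
    have h4 : (T.st x y).2.1 • (T.pe (T.st x y).1).2 = x := congrArg Prod.snd h1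
    rw [mul_smul, mul_smul, h3, h4]
    exact ⟨rfl, rfl⟩

theorem UniB_tp_st (T : Lft H V X W) (d : Desc X p) {x y : V} (hx : x ∈ W) (hy : y ∈ W)
    (hxy : X.Adj x y) (g : H) :
    UniB_tp T d (T.st x y).1 (g * (T.st x y).2.1) = max (d.r (g • x)) (d.r (g • y)) := by
  unfold UniB_tp
  rcases UniB_st T hx hy hxy g with ⟨h1, h2⟩ | ⟨h1, h2⟩
  · rw [h1, h2]
  · rw [h1, h2, max_comm]

theorem UniB_lab_congr {T : Lft H V X W} {Q : Type} [Group Q] {f f' : T.D.J → H → Q} {g : H}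
    {s : Stp T.D} (h : f s.1 (g * s.2.1) = f' s.1 (g * s.2.1)) : lab1 f g s = lab1 f' g s := by
  unfold lab1
  rw [h]

theorem UniB_lab_inj {T : Lft H V X W} {Q : Type} [Group Q] {f f' : T.D.J → H → Q} {g : H}
    {s : Stp T.D} (h : lab1 f g s = lab1 f' g s) : f s.1 (g * s.2.1) = f' s.1 (g * s.2.1) := by
  unfold lab1 at h
  split_ifs at h
  · exact h
  · exact inv_injective h

theorem UniB_sq {g : H} (hadj : ∀ (g : H) (x y : V), X.Adj x y → X.Adj (g • x) (g • y))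
    {x₁ x₂ x₃ x₄ : V} (h : IsSq X x₁ x₂ x₃ x₄) : IsSq X (g • x₁) (g • x₂) (g • x₃) (g • x₄) :=
  ⟨hadj g _ _ h.1, hadj g _ _ h.2.1, hadj g _ _ h.2.2.1, hadj g _ _ h.2.2.2.1,
    fun h0 => h.2.2.2.2.1 (MulAction.injective g h0),
    fun h0 => h.2.2.2.2.2 (MulAction.injective g h0)⟩

/-- the lower vertex -/
theorem UniB_low (d : Desc X p) (hadj : ∀ (g : H) (x y : V), X.Adj x y → X.Adj (g • x) (g • y))
    {x₁ x₂ x₃ x₄ : V} (h : IsSq X x₁ x₂ x₃ x₄) {g : H} (h2 : d.r (g • x₁) = d.r (g • x₂) + 1)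
    (h4 : d.r (g • x₁) = d.r (g • x₄) + 1) (ha : g • x₄ = d.a (g • x₁)) :
    d.r (g • x₂) = d.r (g • x₃) + 1 := by
  have hs := UniB_sq (g := g) hadj h
  have h3 := (d.sq _ _ _ _ hs h2 h4).1
  rcases d.lower _ _ hs.1 h2 with h5 | ⟨h5, -, -, -, h6⟩
  · exact absurd (h5.trans ha.symm) hs.2.2.2.2.2
  · rw [h5, h3]
    exact h6

theorem UniB_stab (T : Lft H V X W) (d : Desc X p)
    (hadj : ∀ (g : H) (x y : V), X.Adj x y → X.Adj (g • x) (g • y)) (hT : T.SqReq) :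
    ∀ (N : ℕ) (j : T.D.J) (h : H) (n m : ℕ), UniB_tp T d j h ≤ N → N ≤ n → N ≤ m →
      UU T d n j h = UU T d m j h := by
  intro N
  induction N with
  | zero =>
    intro j h n m hN hn hm
    by_cases hex : ∃ m, Mt T d j h m
    · exfalso
      obtain ⟨⟨g, x₁, x₂, x₃, x₄, σ⟩, hsq, hW, h2, h4, ha, hj, hσ, hB⟩ := hex
      simp only at hsq hW h2 h4 ha hj hσ hB
      subst hj
      have h5 := UniB_tp_eq T d hB
      rw [UniB_tp_st T d hW.1 hW.2.1 hsq.1] at h5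
      omega
    · rw [UU_zero T d n j h hex, UU_zero T d m j h hex]
  | succ N ih =>
    intro j h n m hN hn hm
    by_cases hex : ∃ m, Mt T d j h m
    · obtain ⟨⟨g, x₁, x₂, x₃, x₄, σ⟩, hmt⟩ := hex
      have hmt' := hmt
      obtain ⟨hsq, hW, h2, h4, ha, hj, hσ, hB⟩ := hmt'
      simp only at hsq hW h2 h4 ha hj hσ hB
      subst hj
      have h5 := UniB_tp_eq T d hB
      rw [UniB_tp_st T d hW.1 hW.2.1 hsq.1] at h5
      have h3 := UniB_low d hadj hsq h2 h4 ha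
      obtain ⟨n', rfl⟩ : ∃ n', n = n' + 1 := ⟨n - 1, by omega⟩
      obtain ⟨m', rfl⟩ : ∃ m', m = m' + 1 := ⟨m - 1, by omega⟩
      have e1 := UU_match T d hadj hT n' _ h g x₁ x₂ x₃ x₄ σ hmt
      have e2 := UU_match T d hadj hT m' _ h g x₁ x₂ x₃ x₄ σ hmt
      have a1 : lab1 (UU T d n') g (T.st x₂ x₃) = lab1 (UU T d m') g (T.st x₂ x₃) := by
        apply UniB_lab_congr
        apply ih _ _ _ _ _ (by omega) (by omega)
        rw [UniB_tp_st T d hW.2.1 hW.2.2.1 hsq.2.1]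
        omega
      have a2 : lab1 (UU T d n') g (T.st x₃ x₄) = lab1 (UU T d m') g (T.st x₃ x₄) := by
        apply UniB_lab_congr
        apply ih _ _ _ _ _ (by omega) (by omega)
        rw [UniB_tp_st T d hW.2.2.1 hW.2.2.2 hsq.2.2.1]
        omega
      rw [a1, a2, ← e2, mul_left_inj, mul_left_inj, mul_left_inj] at e1
      have e3 := UniB_lab_inj e1
      have hinv : ∀ n, UU T d n (T.st x₁ x₂).1 h =
          UU T d n (T.st x₁ x₂).1 (g * (T.st x₁ x₂).2.1) := by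
        intro n
        rw [← UU_inv T d n _ h _ hB]
        congr 1
        group
      rw [hinv, hinv, e3]
    · rw [UU_zero T d n j h hex, UU_zero T d m j h hex]

/-- the universal cocycle -/
noncomputable def UniB_u (T : Lft H V X W) (d : Desc X p) (j : T.D.J) (h : H) : FreeGroup (EE T) :=
  UU T d (UniB_tp T d j h) j h

theorem UniB_u_eq (T : Lft H V X W) (d : Desc X p)
    (hadj : ∀ (g : H) (x y : V), X.Adj x y → X.Adj (g • x) (g • y)) (hT : T.SqReq)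
    (j : T.D.J) (h : H) (n : ℕ) (hn : UniB_tp T d j h ≤ n) :
    UniB_u T d j h = UU T d n j h :=
  UniB_stab T d hadj hT _ j h _ n le_rfl le_rfl hn

theorem UniB_u_inv (T : Lft H V X W) (d : Desc X p) : InvF T.D (UniB_u T d) := by
  intro j h b hb
  unfold UniB_u
  have h1 : UniB_tp T d j h = UniB_tp T d j (h * b) := by
    apply UniB_tp_eq
    rwa [inv_mul_cancel_left]
  rw [← h1]
  exact UU_inv T d _ j h b hb

/-- parent edges are not matched -/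
theorem UniB_parent (T : Lft H V X W) (d : Desc X p) {x y : V} (hx : x ∈ W) (hy : y ∈ W)
    (hxy : X.Adj x y) (g : H) (hr : d.r (g • y) = d.r (g • x) + 1) (ha : g • x = d.a (g • y)) :
    ¬ ∃ m, Mt T d (T.st x y).1 (g * (T.st x y).2.1) m := by
  rintro ⟨⟨g', x₁, x₂, x₃, x₄, σ⟩, hsq, hW, h2, h4, ha', hj, hσ, hB⟩
  simp only at hsq hW h2 h4 ha' hj hσ hB
  have h5 := UniB_pe T hB
  have h6 : (g * (T.st x y).2.1) • (T.pe (T.st x y).1).1 =
      (g' * (T.st x₁ x₂).2.1) • (T.pe (T.st x y).1).1 := congrArg Prod.fst h5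
  have h7 : (g * (T.st x y).2.1) • (T.pe (T.st x y).1).2 =
      (g' * (T.st x₁ x₂).2.1) • (T.pe (T.st x y).1).2 := congrArg Prod.snd h5
  have key : g • y = g' • x₁ ∧ g • x = g' • x₂ := by
    have h8 := UniB_st T hW.1 hW.2.1 hsq.1 g'
    rw [hj] at h8
    rw [← h6, ← h7] at h8
    rcases UniB_st T hx hy hxy g with ⟨e1, e2⟩ | ⟨e1, e2⟩ <;> rcases h8 with ⟨f1, f2⟩ | ⟨f1, f2⟩
    · rw [e1] at f1
      rw [e2] at f2
      rw [f1, f2] at hr
      omega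
    · exact ⟨e2.symm.trans f2, e1.symm.trans f1⟩
    · exact ⟨e1.symm.trans f1, e2.symm.trans f2⟩
    · rw [e1] at f1
      rw [e2] at f2
      rw [f1, f2] at hr
      omega
  have h9 : g' • x₄ = g' • x₂ := by
    rw [ha', ← key.1, ← ha, key.2]
  exact hsq.2.2.2.2.2 (MulAction.injective g' h9).symm

theorem UniB_rev (T : Lft H V X W) {Q : Type} [Group Q] (f : T.D.J → H → Q) (g : H) {x y : V}
    (hx : x ∈ W) (hy : y ∈ W) (hxy : X.Adj x y) :
    lab1 f g (T.st y x) = (lab1 f g (T.st x y))⁻¹ := by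
  rw [T.rev x hx y hy hxy]
  unfold lab1
  simp only
  cases (T.st x y).2.2 <;> simp

theorem UniB_core (T : Lft H V X W) (d : Desc X p)
    (hadj : ∀ (g : H) (x y : V), X.Adj x y → X.Adj (g • x) (g • y)) (hT : T.SqReq)
    {x₁ x₂ x₃ x₄ : V} (hsq : IsSq X x₁ x₂ x₃ x₄) (hW : x₁ ∈ W ∧ x₂ ∈ W ∧ x₃ ∈ W ∧ x₄ ∈ W)
    (g : H) (h2 : d.r (g • x₁) = d.r (g • x₂) + 1) (h4 : d.r (g • x₁) = d.r (g • x₄) + 1)
    (ha : g • x₄ = d.a (g • x₁)) :
    lab1 (UniB_u T d) g (T.st x₁ x₂) * lab1 (UniB_u T d) g (T.st x₂ x₃) *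
      lab1 (UniB_u T d) g (T.st x₃ x₄) * lab1 (UniB_u T d) g (T.st x₄ x₁) = 1 := by
  have h3 := UniB_low d hadj hsq h2 h4 ha
  have hmt : Mt T d (T.st x₁ x₂).1 (g * (T.st x₁ x₂).2.1) (g, x₁, x₂, x₃, x₄, (T.st x₁ x₂).2.2) := by
    refine ⟨hsq, hW, h2, h4, ha, rfl, rfl, ?_⟩
    simp only
    rw [inv_mul_cancel]
    exact one_mem _
  rw [← UU_match T d hadj hT (d.r (g • x₂)) _ _ g x₁ x₂ x₃ x₄ _ hmt]
  have a1 : lab1 (UniB_u T d) g (T.st x₁ x₂) = lab1 (UU T d (d.r (g • x₂) + 1)) g (T.st x₁ x₂) := by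
    apply UniB_lab_congr
    apply UniB_u_eq T d hadj hT
    rw [UniB_tp_st T d hW.1 hW.2.1 hsq.1]
    omega
  have a2 : lab1 (UniB_u T d) g (T.st x₂ x₃) = lab1 (UU T d (d.r (g • x₂))) g (T.st x₂ x₃) := by
    apply UniB_lab_congr
    apply UniB_u_eq T d hadj hT
    rw [UniB_tp_st T d hW.2.1 hW.2.2.1 hsq.2.1]
    omega
  have a3 : lab1 (UniB_u T d) g (T.st x₃ x₄) = lab1 (UU T d (d.r (g • x₂))) g (T.st x₃ x₄) := by
    apply UniB_lab_congr
    apply UniB_u_eq T d hadj hT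
    rw [UniB_tp_st T d hW.2.2.1 hW.2.2.2 hsq.2.2.1]
    omega
  have a4 : lab1 (UniB_u T d) g (T.st x₄ x₁) = lab1 (gn T) g (T.st x₄ x₁) := by
    apply UniB_lab_congr
    exact UU_zero T d _ _ _ (UniB_parent T d hW.2.2.2 hW.1 hsq.2.2.2.1 g h4 ha)
  rw [a1, a2, a3, a4]

theorem UniB_top (T : Lft H V X W) (d : Desc X p)
    (hadj : ∀ (g : H) (x y : V), X.Adj x y → X.Adj (g • x) (g • y)) (hT : T.SqReq)
    {x₁ x₂ x₃ x₄ : V} (hsq : IsSq X x₁ x₂ x₃ x₄) (hW : x₁ ∈ W ∧ x₂ ∈ W ∧ x₃ ∈ W ∧ x₄ ∈ W)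
    (g : H) (h2 : d.r (g • x₁) = d.r (g • x₂) + 1) (h4 : d.r (g • x₁) = d.r (g • x₄) + 1) :
    lab1 (UniB_u T d) g (T.st x₁ x₂) * lab1 (UniB_u T d) g (T.st x₂ x₃) *
      lab1 (UniB_u T d) g (T.st x₃ x₄) * lab1 (UniB_u T d) g (T.st x₄ x₁) = 1 := by
  rcases (d.sq _ _ _ _ (UniB_sq (g := g) hadj hsq) h2 h4).2 with ⟨ha, -⟩ | ⟨-, ha⟩
  · have hsq' : IsSq X x₁ x₄ x₃ x₂ := ⟨hsq.2.2.2.1.symm, hsq.2.2.1.symm, hsq.2.1.symm, hsq.1.symm,
      hsq.2.2.2.2.1, hsq.2.2.2.2.2.symm⟩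
    have h5 := UniB_core T d hadj hT hsq' ⟨hW.1, hW.2.2.2, hW.2.2.1, hW.2.1⟩ g h4 h2 ha
    rw [UniB_rev T _ g hW.2.2.2 hW.1 hsq.2.2.2.1, UniB_rev T _ g hW.2.2.1 hW.2.2.2 hsq.2.2.1,
      UniB_rev T _ g hW.2.1 hW.2.2.1 hsq.2.1, UniB_rev T _ g hW.1 hW.2.1 hsq.1] at h5
    rw [← inv_inj, inv_one, ← h5]
    group
  · exact UniB_core T d hadj hT hsq hW g h2 h4 ha

theorem UniB_rot {Q : Type} [Group Q] {a b c e : Q} (h : a * b * c * e = 1) : b * c * e * a = 1 := by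
  have h1 : a * (b * c * e) = 1 := by
    rw [← h]
    group
  exact mul_eq_one_comm.1 h1

theorem exists_univ {H : Type} [Group H] {V : Type} [MulAction H V] {X : SimpleGraph V}
    {W : Set V} {p : V} (T : Lft H V X W) (d : Desc X p)
    (hadj : ∀ (g : H) (x y : V), X.Adj x y → X.Adj (g • x) (g • y)) (hT : T.SqReq) :
    ∃ (α : Type) (u : T.D.J → H → FreeGroup α), UnivF T.D T.cells u := by
  refine ⟨EE T, UniB_u T d, ⟨UniB_u_inv T d, ?_⟩, ?_⟩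
  · rintro L ⟨x₁, x₂, x₃, x₄, hsq, w1, w2, w3, w4, rfl⟩ g
    simp only [lab, mul_one]
    rw [← mul_assoc, ← mul_assoc]
    have r1 := d.adj_r _ _ (hadj g _ _ hsq.1)
    have r2 := d.adj_r _ _ (hadj g _ _ hsq.2.1)
    have r3 := d.adj_r _ _ (hadj g _ _ hsq.2.2.1)
    have r4 := d.adj_r _ _ (hadj g _ _ hsq.2.2.2.1)
    have hc : (d.r (g • x₁) = d.r (g • x₂) + 1 ∧ d.r (g • x₁) = d.r (g • x₄) + 1) ∨
        (d.r (g • x₂) = d.r (g • x₃) + 1 ∧ d.r (g • x₂) = d.r (g • x₁) + 1) ∨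
        (d.r (g • x₃) = d.r (g • x₄) + 1 ∧ d.r (g • x₃) = d.r (g • x₂) + 1) ∨
        (d.r (g • x₄) = d.r (g • x₁) + 1 ∧ d.r (g • x₄) = d.r (g • x₃) + 1) := by omega
    rcases hc with ⟨c1, c2⟩ | ⟨c1, c2⟩ | ⟨c1, c2⟩ | ⟨c1, c2⟩
    · exact UniB_top T d hadj hT hsq ⟨w1, w2, w3, w4⟩ g c1 c2
    · have hsq' : IsSq X x₂ x₃ x₄ x₁ := ⟨hsq.2.1, hsq.2.2.1, hsq.2.2.2.1, hsq.1,
        hsq.2.2.2.2.2, hsq.2.2.2.2.1.symm⟩
      exact UniB_rot (UniB_rot (UniB_rot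
        (UniB_top T d hadj hT hsq' ⟨w2, w3, w4, w1⟩ g c1 c2)))
    · have hsq' : IsSq X x₃ x₄ x₁ x₂ := ⟨hsq.2.2.1, hsq.2.2.2.1, hsq.1, hsq.2.1,
        hsq.2.2.2.2.1.symm, hsq.2.2.2.2.2.symm⟩
      exact UniB_rot (UniB_rot
        (UniB_top T d hadj hT hsq' ⟨w3, w4, w1, w2⟩ g c1 c2))
    · have hsq' : IsSq X x₄ x₁ x₂ x₃ := ⟨hsq.2.2.2.1, hsq.1, hsq.2.1, hsq.2.2.1,
        hsq.2.2.2.2.2.symm, hsq.2.2.2.2.1⟩
      exact UniB_rot (UniB_top T d hadj hT hsq' ⟨w4, w1, w2, w3⟩ g c1 c2)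
  · intro Q _ f hf
    obtain ⟨Λ, hΛ⟩ := UU_univ T d f hf
    exact ⟨Λ, fun j h => hΛ _ j h⟩

end Pool.Agent.HC
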