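import Pool.Agent.HC.Defs

/-!
# HC module Wlk: lifts of walks (diff 2)

`stw T w` is the list of the steps `st x y` along a walk `w`.

* `sameV_refl`, `sameV_symm`, `sameV_trans`: `A i` is a subgroup.
* `chn_left`: replacing the first vertex of a path by the same vertex: by cases on `L`, transitivity.
* `chn_right`: the same for the last vertex, by induction on `L`.
* `chn_stw`: induction on the walk; `T.chn` and `chn_left`.
* `lab_stw`: induction on the walk.  For the first step `st x y`: by `hreq`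
  `lab1 f g (st x y) = lab1 f 1 (st (g • x) (g • y))` (same edge index and direction and
  `g * k = (1 * k') * (k'⁻¹ * (g * k))`, the last factor is in `B`; `f` is invariant), which is
  `(G (g • x))⁻¹ * G (g • y)` by `hG`.
-/

set_option autoImplicit false

namespace Pool.Agent.HC

variable {H : Type} [Group H]

theorem sameV_refl (D : GG H) (p : D.I × H) : SameV D p p := by
  refine ⟨rfl, ?_⟩
  rw [inv_mul_cancel]
  exact (D.A p.1).one_mem

theorem sameV_symm (D : GG H) {p q : D.I × H} (h : SameV D p q) : SameV D q p := by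
  obtain ⟨i, a⟩ := p
  obtain ⟨i', b⟩ := q
  obtain ⟨h1, h2⟩ := h
  simp only at h1 h2
  subst h1
  refine ⟨rfl, ?_⟩
  have h3 := (D.A i).inv_mem h2
  rw [mul_inv_rev, inv_inv] at h3
  exact h3

theorem sameV_trans (D : GG H) {p q r : D.I × H} (h : SameV D p q) (h' : SameV D q r) :
    SameV D p r := by
  obtain ⟨i, a⟩ := p
  obtain ⟨i', b⟩ := q
  obtain ⟨i'', c⟩ := r
  obtain ⟨h1, h2⟩ := h
  obtain ⟨h3, h4⟩ := h'
  simp only at h1 h2 h3 h4
  subst h1
  subst h3
  refine ⟨rfl, ?_⟩
  have h5 := (D.A i).mul_mem h2 h4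
  have e : a⁻¹ * b * (b⁻¹ * c) = a⁻¹ * c := by group
  rw [e] at h5
  exact h5

theorem chn_left (D : GG H) {p p' q : D.I × H} {L : List (Stp D)} (h : SameV D p p')
    (hL : Chn D p' L q) : Chn D p L q := by
  cases L with
  | nil => exact sameV_trans D h hL
  | cons s L => exact ⟨sameV_trans D h hL.1, hL.2⟩

theorem chn_right (D : GG H) {p q q' : D.I × H} {L : List (Stp D)} (hL : Chn D p L q)
    (h : SameV D q q') : Chn D p L q' := by
  induction L generalizing p with
  | nil => exact sameV_trans D hL h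
  | cons s L ih => exact ⟨hL.1, ih hL.2⟩

variable {V : Type} [MulAction H V] {X : SimpleGraph V} {W : Set V}

/-- The steps along a walk. -/
def stw (T : Lft H V X W) : {x y : V} → X.Walk x y → List (Stp T.D)
  | _, _, SimpleGraph.Walk.nil => []
  | _, _, @SimpleGraph.Walk.cons _ _ x y _ _ w => T.st x y :: stw T w

theorem chn_stw (T : Lft H V X W) {x y : V} (w : X.Walk x y) (hw : ∀ v ∈ w.support, v ∈ W) :
    Chn T.D (T.vx x) (stw T w) (T.vx y) := by
  induction w with
  | nil => exact sameV_refl T.D _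
  | @cons x y z h w ih =>
    have hx : x ∈ W := hw x (by simp)
    have hw' : ∀ v ∈ w.support, v ∈ W := fun v hv => hw v (by
      rw [SimpleGraph.Walk.support_cons]
      exact List.mem_cons_of_mem _ hv)
    have hy : y ∈ W := hw' y (by simp)
    have h1 := T.chn x hx y hy h
    exact ⟨h1.1, chn_left T.D h1.2 (ih hw')⟩

theorem Wlk_step (T : Lft H V X W) {Q : Type} [Group Q] (f : T.D.J → H → Q) (hf : InvF T.D f)
    (g : H) (x y : V) (hr : T.Req g x y) :
    lab1 f g (T.st x y) = lab1 f 1 (T.st (g • x) (g • y)) := by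
  obtain ⟨h1, h2, h3⟩ := hr
  unfold lab1
  rw [h1, h2, one_mul]
  have h4 := hf (T.st x y).1 (T.st (g • x) (g • y)).2.1 _ h3
  rw [mul_inv_cancel_left] at h4
  rw [h4]

theorem lab_stw (T : Lft H V X W) {Q : Type} [Group Q] (f : T.D.J → H → Q) (hf : InvF T.D f)
    (G : V → Q) (g : H) {x y : V} (w : X.Walk x y)
    (hG : ∀ x ∈ W, ∀ y ∈ W, X.Adj x y → lab1 f 1 (T.st x y) = (G x)⁻¹ * G y)
    (hadj : ∀ (g : H) (x y : V), X.Adj x y → X.Adj (g • x) (g • y))
    (hw : ∀ v ∈ w.support, g • v ∈ W) (hreq : ∀ d ∈ w.darts, T.Req g d.fst d.snd) :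
    lab f g (stw T w) = (G (g • x))⁻¹ * G (g • y) := by
  induction w with
  | nil =>
    show (1 : Q) = _
    rw [inv_mul_cancel]
  | @cons x y z h w ih =>
    have hx : g • x ∈ W := hw x (by simp)
    have hw' : ∀ v ∈ w.support, g • v ∈ W := fun v hv => hw v (by
      rw [SimpleGraph.Walk.support_cons]
      exact List.mem_cons_of_mem _ hv)
    have hy : g • y ∈ W := hw' y (by simp)
    have hr : T.Req g x y := hreq ⟨(x, y), h⟩ (by simp)
    have hreq' : ∀ d ∈ w.darts, T.Req g d.fst d.snd := fun d hd => hreq d (by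
      rw [SimpleGraph.Walk.darts_cons]
      exact List.mem_cons_of_mem _ hd)
    show lab1 f g (T.st x y) * lab f g (stw T w) = _
    rw [ih hw' hreq', Wlk_step T f hf g x y hr, hG _ hx _ hy (hadj g x y h)]
    group

end Pool.Agent.HC
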