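import Pool.Agent.HC.PartI
import Pool.Agent.HC.Tele
import Pool.Agent.HC.MedC
import Pool.Agent.HC.OrbE
import Pool.Agent.HC.FinCl
import Pool.Agent.HC.Triv
import Pool.Agent.HC.LftE
import Pool.Agent.HC.SqR
import Pool.Agent.HC.UniB
import Pool.Agent.HC.Wlk

/-!
# HC module OneS: the one step theorem (assembly, diff 3)

PROOF.  `X` is connected, so there is a vertex `p`.  Let `n, f₀, S` be as in `hG : IsFP2 G`.
CASE 0: `p` has no neighbour.  Then `V = {p}` (connectedness: a walk of positive length from `p`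
would give a neighbour), so every `g` fixes `p`; `K = ⊤` is finitely generated (`f₀` is surjective,
`Group.FG`), so it is finitely presented by `hst`, and `G ≃* ⊤`
(`Subgroup.topEquiv`, `Group.IsFinitelyPresented.equiv`).
CASE 1: `p` has a neighbour `q`.  Let `d : Desc X p` (`exists_desc`), `c : Orb G V X p`
(`exists_orb`), and for every `k : Fin n` a walk `w k : X.Walk p (f₀ (of k) • p)`.  `tele` gives the
finite set `Good`.  Let `W₀` be the finite set consisting of `p`, `q`, the vertices of the walks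
`w k` and the vertices `g • v` with `(g, k) ∈ Good`, `v ∈ (w k).support`; `W ⊇ W₀` as in
`exists_closed`.  `exists_sqreq` gives `𝓡₁`.  Put
`𝓡 = 𝓡₁ ∪ {(g, d.fst, d.snd) | (g, k) ∈ Good, d ∈ (w k).darts}` (finite; the vertices of darts are in
the support), `𝓔 = {f₀ (of k) | k}`.  `exists_lft` gives `T` and `i₀`; `T.SqReq` holds.
`exists_univ` gives `u`.  Apply `partI` with `D = T.D`, `𝒦 = T.cells`, `P k = stw T (w k)`:
* `A i` is finitely presented by `hst` (it is finitely generated and fixes `pv i`);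
* `T.cells` is finite: it is the image of a subset of `W × W × W × W`;
* a cell `[st x₁ x₂, st x₂ x₃, st x₃ x₄, st x₄ x₁]` is a closed path at `vx x₁`: `T.chn` four times and
  `chn_left`;
* `hP`: `chn_stw` gives `Chn (vx p) (P k) (vx (f₀ (of k) • p))`, `vx p = (i₀, 1)`, and `chn_right` with
  `SameV (vx (ε • p)) (i₀, ε)`, `ε = f₀ (of k)`;
* `null`: let `g : G` and `f j h = u j (g * h)`, a cocycle (`lab f g' L = lab u (g * g') L`, since
  `lab1 f g' s = lab1 u (g * g') s`).  Apply `coboundary` to `F x y = lab1 f 1 (T.st x y)`: `hF` by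
  `T.rev` (`lab1` of the reversed step is the inverse), `hsq` since the label of the cell is `1`.
  It gives `G₀ : V → FreeGroup α`.  By `lab_stw`, for `(g', k) ∈ Good`:
  `lab f g' (P k) = (G₀ (g' • p))⁻¹ * G₀ (g' • f₀ (of k) • p)`.  So `tele` applied to
  `v k h = lab f h (P k)` and `G h = G₀ (h • p)` gives `crs f₀ (fun k h => lab f h (P k)) s 1 = 1`.
  Finally `lab f h (P k) = lab u (g * h) (P k)` and `crs_shift` (`g * 1 = g`).
-/

set_option autoImplicit false

namespace Pool.Agent.HC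

theorem OneS_case0 {G : Type} [Group G] {V : Type} [MulAction G V] (X : SimpleGraph V)
    (hc : X.Connected) (p : V) (hp : ¬ ∃ q, X.Adj p q) (g : G) (v : V) : g • v = v := by
  have h1 : ∀ v, v = p := by
    intro v
    obtain ⟨w⟩ := hc.preconnected p v
    cases w with
    | nil => rfl
    | cons h _ => exact absurd ⟨_, h⟩ hp
  rw [h1 v, h1 (g • p)]

theorem OneS_lab {H : Type} [Group H] {D : GG H} {Q : Type} [Group Q] (u : D.J → H → Q) (g : H)
    (L : List (Stp D)) (h : H) :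
    lab (D := D) (fun j x => u j (g * x)) h L = lab u (g * h) L := by
  induction L with
  | nil => rfl
  | cons s L ih =>
    rw [lab, lab, ih]
    congr 1
    unfold lab1
    simp only [mul_assoc]

theorem OneS_coc {H : Type} [Group H] {D : GG H} {𝒦 : Set (List (Stp D))} {Q : Type} [Group Q]
    {u : D.J → H → Q} (hu : Coc D 𝒦 u) (g : H) : Coc D 𝒦 (fun j x => u j (g * x)) := by
  refine ⟨?_, ?_⟩
  · intro j h b hb
    show u j (g * (h * b)) = u j (g * h)
    rw [← mul_assoc]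
    exact hu.1 j (g * h) b hb
  · intro L hL h
    rw [OneS_lab]
    exact hu.2 L hL (g * h)

theorem oneStep {G : Type} [Group G] {V : Type} [MulAction G V] (X : SimpleGraph V)
    (hX : CubeAct G V X)
    (hst : ∀ v : V, ∀ K : Subgroup G, K.FG → (∀ g ∈ K, g • v = v) →
      Group.IsFinitelyPresented K)
    (hG : IsFP2 G) : Group.IsFinitelyPresented G := by
  classical
  obtain ⟨n, f₀, hf, S, hS, hR⟩ := hG
  obtain ⟨p⟩ := hX.med.conn.nonempty
  by_cases hq : ∃ q, X.Adj p q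
  swap
  · have h1 : (⊤ : Subgroup G).FG := by
      exact Group.fg_def.1 (Group.fg_of_surjective hf)
    have h2 := hst p ⊤ h1 (fun g _ => OneS_case0 X hX.med.conn p hq g p)
    exact Group.IsFinitelyPresented.equiv (Subgroup.topEquiv (G := G))
  obtain ⟨q, hpq⟩ := hq
  obtain ⟨d⟩ := exists_desc hX.med hX.dim p
  obtain ⟨c⟩ := exists_orb X hX.adj hX.inv p
  have hw : ∀ k : Fin n, Nonempty (X.Walk p (f₀ (FreeGroup.of k) • p)) :=
    fun k => hX.med.conn.preconnected p _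
  let w : ∀ k : Fin n, X.Walk p (f₀ (FreeGroup.of k) • p) := fun k => (hw k).some
  obtain ⟨Good, hGood, htele⟩ := tele f₀ S hS
  let W₀ : Set V := {p, q} ∪ (⋃ k : Fin n, {v | v ∈ (w k).support}) ∪
    ⋃ x ∈ Good, (fun v => x.1 • v) '' {v | v ∈ (w x.2).support}
  have hW₀fin : W₀.Finite := by
    refine Set.Finite.union (Set.Finite.union (Set.toFinite _) ?_) ?_
    · exact Set.finite_iUnion fun k => List.finite_toSet _
    · exact hGood.biUnion fun x _ => (List.finite_toSet _).image _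
  obtain ⟨W, hW, hW₀, hWc⟩ := exists_closed d W₀ hW₀fin
  have hpW : p ∈ W := hW₀ (Or.inl (Or.inl (Or.inl rfl)))
  have hqW : q ∈ W := hW₀ (Or.inl (Or.inl (Or.inr rfl)))
  have hwW : ∀ k, ∀ v ∈ (w k).support, v ∈ W := fun k v hv =>
    hW₀ (Or.inl (Or.inr (Set.mem_iUnion.2 ⟨k, hv⟩)))
  have hgW : ∀ g k, (g, k) ∈ Good → ∀ v ∈ (w k).support, g • v ∈ W := fun g k hgk v hv =>
    hW₀ (Or.inr (Set.mem_iUnion₂.2 ⟨(g, k), hgk, ⟨v, hv, rfl⟩⟩))
  obtain ⟨𝓡₁, h𝓡₁, h𝓡₁', hsq⟩ := exists_sqreq hX.slender W hW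
  let 𝓡 : Set (G × V × V) := 𝓡₁ ∪ ⋃ x ∈ Good,
    (fun e : X.Dart => (x.1, e.fst, e.snd)) '' {e | e ∈ (w x.2).darts}
  have h𝓡 : 𝓡.Finite :=
    h𝓡₁.union (hGood.biUnion fun x _ => (List.finite_toSet _).image _)
  have h𝓡' : ∀ g x y, (g, x, y) ∈ 𝓡 → x ∈ W ∧ y ∈ W ∧ g • x ∈ W ∧ g • y ∈ W ∧ X.Adj x y := by
    intro g x y h
    rcases h with h | h
    · exact h𝓡₁' g x y h
    · obtain ⟨⟨g', k⟩, hgk, e, he, hee⟩ := Set.mem_iUnion₂.1 h
      simp only [Prod.mk.injEq] at hee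
      obtain ⟨rfl, rfl, rfl⟩ := hee
      have h1 := SimpleGraph.Walk.dart_fst_mem_support_of_mem_darts (w k) he
      have h2 := SimpleGraph.Walk.dart_snd_mem_support_of_mem_darts (w k) he
      exact ⟨hwW k _ h1, hwW k _ h2, hgW _ k hgk _ h1, hgW _ k hgk _ h2, e.adj⟩
  let 𝓔 : Set G := Set.range fun k : Fin n => f₀ (FreeGroup.of k)
  obtain ⟨T, hT, i₀, hi₀, hE⟩ := exists_lft hX.adj c W hW hpW ⟨p, hpW, q, hqW, hpq⟩ 𝓡 h𝓡 h𝓡'
    𝓔 (Set.finite_range _) (by
      rintro _ ⟨k, rfl⟩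
      exact hwW k _ (SimpleGraph.Walk.end_mem_support _))
  have hT' : T.SqReq := hsq T (fun g x y h => hT g x y (Or.inl h))
  obtain ⟨α, u, hu⟩ := exists_univ T d hX.adj hT'
  refine partI T.D T.finI T.finJ (fun i => hst (T.pv i) (T.D.A i) (T.Afg i) (T.Afix i)) T.Bfg
    T.cells ?_ ?_ u hu f₀ hf (S : Set (FreeGroup (Fin n))) hS hR i₀ (fun k => stw T (w k)) ?_ ?_
  · -- finitely many cells
    refine Set.Finite.subset ((hW.prod (hW.prod (hW.prod hW))).image
      (fun x : V × V × V × V => [T.st x.1 x.2.1, T.st x.2.1 x.2.2.1, T.st x.2.2.1 x.2.2.2,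
        T.st x.2.2.2 x.1])) ?_
    rintro L ⟨x₁, x₂, x₃, x₄, _, h1, h2, h3, h4, rfl⟩
    exact ⟨(x₁, x₂, x₃, x₄), ⟨h1, h2, h3, h4⟩, rfl⟩
  · -- cells are closed
    rintro L ⟨x₁, x₂, x₃, x₄, hs, h1, h2, h3, h4, rfl⟩
    obtain ⟨a1, a2⟩ := T.chn x₁ h1 x₂ h2 hs.1
    obtain ⟨b1, b2⟩ := T.chn x₂ h2 x₃ h3 hs.2.1
    obtain ⟨c1, c2⟩ := T.chn x₃ h3 x₄ h4 hs.2.2.1
    obtain ⟨e1, e2⟩ := T.chn x₄ h4 x₁ h1 hs.2.2.2.1
    exact ⟨T.vx x₁, a1, sameV_trans _ a2 b1, sameV_trans _ b2 c1, sameV_trans _ c2 e1, e2⟩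
  · -- the paths
    intro k
    have h1 := chn_stw T (w k) (hwW k)
    rw [hi₀] at h1
    exact chn_right T.D h1 (hE _ ⟨k, rfl⟩)
  · intro s hs g
    have hf' := OneS_coc hu.1 g
    set f : T.D.J → G → FreeGroup α := fun j x => u j (g * x) with hfd
    obtain ⟨G₀, hG₀⟩ := coboundary d W hWc (fun x y => lab1 f 1 (T.st x y))
      (by
        intro x hx y hy hxy
        have h1 := T.rev x hx y hy hxy
        show lab1 f 1 (T.st y x) = (lab1 f 1 (T.st x y))⁻¹
        rw [h1]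
        unfold lab1
        cases (T.st x y).2.2
        · simp
        · simp)
      (by
        intro x₁ h1 x₂ h2 x₃ h3 x₄ h4 hs
        have h5 := hf'.2 [T.st x₁ x₂, T.st x₂ x₃, T.st x₃ x₄, T.st x₄ x₁]
          ⟨x₁, x₂, x₃, x₄, hs, h1, h2, h3, h4, rfl⟩ 1
        simp only [lab, mul_one] at h5
        show lab1 f 1 (T.st x₁ x₂) * lab1 f 1 (T.st x₂ x₃) * lab1 f 1 (T.st x₃ x₄) *
          lab1 f 1 (T.st x₄ x₁) = 1
        rw [mul_assoc, mul_assoc]
        exact h5)
    have h6 := htele (FreeGroup α) (fun k h => lab f h (stw T (w k))) (fun h => G₀ (h • p))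
      (by
        intro g' k hgk
        have h7 := lab_stw T f hf'.1 G₀ g' (w k) hG₀ hX.adj (hgW g' k hgk)
          (fun e he => hT g' e.fst e.snd
            (Or.inr (Set.mem_iUnion₂.2 ⟨(g', k), hgk, ⟨e, he, rfl⟩⟩)))
        show lab f g' (stw T (w k)) = (G₀ (g' • p))⁻¹ * G₀ ((g' * f₀ (FreeGroup.of k)) • p)
        rw [h7, mul_smul]) s hs
    have h8 : (fun (k : Fin n) (h : G) => lab f h (stw T (w k))) =
        fun k h => (fun (k : Fin n) (h : G) => lab u h (stw T (w k))) k (g * h) := by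
      funext k h
      exact OneS_lab u g _ h
    rw [h8] at h6
    have h9 := crs_shift f₀ (fun (k : Fin n) (h : G) => lab u h (stw T (w k))) g s 1
    rw [mul_one] at h9
    rw [← h9]
    exact h6

end Pool.Agent.HC
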