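import Pool.Agent.HC.Defs

/-!
# HC module Perf: homomorphisms from a relation subgroup to a free group (diff 2)

`free_perfect`: a perfect free group is trivial.  If `P` is free on a set of generators which is
not empty, the homomorphism `P → Multiplicative ℤ` sending every generator to `ofAdd 1` is not
trivial (`FreeGroup.lift` / `IsFreeGroup.lift`), but it kills the commutator subgroup (the target
is commutative; `Abelianization.commutator_subset_ker`), which is everything.

`perf`: let `P = ψ.range`.  Subgroups of free groups are free (`subgroupIsFreeOfIsFree`), so by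
`free_perfect` it is enough to show that `P` is perfect.  Let `M = ψ.ker.map R.subtype`.  All the
conjugates of the elements of `S` lie in `M` (hypothesis `hψ`; they lie in `R` by `hS` and
normality), hence `normalClosure S ≤ M` (`Subgroup.normalClosure` is the closure of the conjugates,
`Subgroup.closure_le`, `Group.conjugatesOfSet`).  By `hR` every `r ∈ R` is in `M ⊔ ⁅R, R⁆`.  So
(map to `R`: `⊤ = ψ.ker ⊔ commutator R`; `R.map_subtype_commutator`, comap along the injective
`R.subtype`) `P = map ψ ⊤ = map ψ ψ.ker ⊔ map ψ (commutator R) = ⊥ ⊔ ⁅P, P⁆`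
(`Subgroup.map_sup`, `Subgroup.map_commutator`, `MonoidHom.range_eq_map`).
(`Group.IsPerfect` and `Subgroup.isPerfect_iff` are in Mathlib.)
-/

set_option autoImplicit false

namespace Pool.Agent.HC

theorem free_perfect (P : Type) [Group P] [IsFreeGroup P] [Group.IsPerfect P] :
    Subsingleton P := by
  rcases isEmpty_or_nonempty (IsFreeGroup.Generators P) with hE | ⟨⟨i⟩⟩
  · exact (IsFreeGroup.toFreeGroup P).toEquiv.subsingleton
  · exfalso
    let f : P →* Multiplicative ℤ := IsFreeGroup.lift (fun _ => Multiplicative.ofAdd (1 : ℤ))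
    have h1 : IsFreeGroup.of i ∈ commutator P := Group.IsPerfect.mem_commutator
    have h2 := Abelianization.commutator_subset_ker f h1
    have h3 : f (IsFreeGroup.of i) = 1 := h2
    have h4 : f (IsFreeGroup.of i) = Multiplicative.ofAdd (1 : ℤ) := IsFreeGroup.lift_of _ _
    rw [h4] at h3
    have h5 : (1 : ℤ) = 0 := Multiplicative.ofAdd.injective h3
    exact one_ne_zero h5

theorem perf {F : Type} [Group F] (R : Subgroup F) [R.Normal] (S : Set F) (hS : S ⊆ R)
    (hR : R = Subgroup.normalClosure S ⊔ ⁅R, R⁆) {α : Type} (ψ : R →* FreeGroup α)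
    (hψ : ∀ r : R, (∃ g : F, ∃ s ∈ S, (r : F) = g * s * g⁻¹) → ψ r = 1) : ∀ r, ψ r = 1 := by
  have h1 : Subgroup.normalClosure S ≤ ψ.ker.map R.subtype := by
    rw [Subgroup.normalClosure, Subgroup.closure_le]
    intro x hx
    rw [Group.mem_conjugatesOfSet_iff] at hx
    obtain ⟨s, hs, hc⟩ := hx
    rw [isConj_iff] at hc
    obtain ⟨g, rfl⟩ := hc
    have hx : g * s * g⁻¹ ∈ R := (inferInstance : R.Normal).conj_mem s (hS hs) g
    exact ⟨⟨g * s * g⁻¹, hx⟩, hψ _ ⟨g, s, hs, rfl⟩, rfl⟩
  have h2 : (⊤ : Subgroup R) = ψ.ker ⊔ ⁅(⊤ : Subgroup R), ⊤⁆ := by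
    apply le_antisymm _ le_top
    intro r _
    have h3 : (r : F) ∈ (ψ.ker ⊔ ⁅(⊤ : Subgroup R), ⊤⁆).map R.subtype := by
      rw [Subgroup.map_sup, Subgroup.map_commutator, ← MonoidHom.range_eq_map,
        Subgroup.range_subtype]
      have h4 : (r : F) ∈ Subgroup.normalClosure S ⊔ ⁅R, R⁆ := by
        rw [← hR]
        exact r.2
      exact sup_le_sup_right h1 _ h4
    obtain ⟨r', hr', he⟩ := h3
    have h5 : r' = r := Subtype.ext he
    rw [← h5]
    exact hr'
  have h3 : ⁅ψ.range, ψ.range⁆ = ψ.range := by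
    have h4 : ψ.range = ψ.ker.map ψ ⊔ ⁅ψ.range, ψ.range⁆ := by
      conv_lhs => rw [MonoidHom.range_eq_map, h2, Subgroup.map_sup, Subgroup.map_commutator,
        ← MonoidHom.range_eq_map]
    have h5 : ψ.ker.map ψ = ⊥ := by
      rw [eq_bot_iff]
      rintro _ ⟨x, hx, rfl⟩
      exact hx
    rw [h5, bot_sup_eq] at h4
    exact h4.symm
  have : Group.IsPerfect ψ.range := Subgroup.isPerfect_iff.2 h3
  have h4 : Subsingleton ψ.range := free_perfect ψ.range
  intro r
  have h5 : (⟨ψ r, r, rfl⟩ : ψ.range) = 1 := Subsingleton.elim _ _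
  exact congrArg Subtype.val h5

end Pool.Agent.HC
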