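import Pool.Agent.HC.Defs

/-!
# HC module Retr: retracts of finitely presented groups (diff 1)

PROOF.  `ρ` is surjective (`ρ (σ h) = h`), so by `Group.IsFinitelyPresented.of_surjective` it is
enough to show that `ρ.ker` is the normal closure of a finite set.  `Q` is finitely generated (it
is the image of a free group `FreeGroup (Fin n)`, let `T` be the finite set of the images of the
generators, `Subgroup.closure T = ⊤`).  Put `N = normalClosure {q⁻¹ * σ (ρ q) | q ∈ T}`.
`N ≤ ρ.ker` since `ρ (q⁻¹ * σ (ρ q)) = 1`.  Conversely the homomorphisms `q ↦ σ (ρ q) mod N` and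
`q ↦ q mod N` from `Q` to `Q ⧸ N` agree on `T`, hence everywhere (`MonoidHom.eq_of_eqOn_dense` /
`MonoidHom.eqOn_closure`); if `ρ q = 1` this says `q ∈ N`.
-/

set_option autoImplicit false

namespace Pool.Agent.HC

theorem fp_retract {Q H : Type} [Group Q] [Group H] (hQ : Group.IsFinitelyPresented Q)
    (ρ : Q →* H) (σ : H →* Q) (h : ∀ x, ρ (σ x) = x) : Group.IsFinitelyPresented H := by
  have hs : Function.Surjective ρ := fun x => ⟨σ x, h x⟩
  refine Group.IsFinitelyPresented.of_surjective ρ hs ?_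
  obtain ⟨n, φ, hφ, -⟩ := hQ.out
  refine ⟨Set.range fun i => (φ (FreeGroup.of i))⁻¹ * σ (ρ (φ (FreeGroup.of i))),
    Set.finite_range _, ?_⟩
  set N := Subgroup.normalClosure
    (Set.range fun i => (φ (FreeGroup.of i))⁻¹ * σ (ρ (φ (FreeGroup.of i)))) with hN
  apply le_antisymm
  · apply Subgroup.normalClosure_le_normal
    rintro _ ⟨i, rfl⟩
    show ρ ((φ (FreeGroup.of i))⁻¹ * σ (ρ (φ (FreeGroup.of i)))) = 1
    rw [map_mul, map_inv, h, inv_mul_cancel]
  · intro q hq
    have key : (QuotientGroup.mk' N).comp φ = ((QuotientGroup.mk' N).comp (σ.comp ρ)).comp φ := by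
      apply FreeGroup.ext_hom
      intro i
      show (QuotientGroup.mk' N) (φ (FreeGroup.of i)) =
        (QuotientGroup.mk' N) (σ (ρ (φ (FreeGroup.of i))))
      apply QuotientGroup.eq.2
      exact Subgroup.subset_normalClosure ⟨i, rfl⟩
    obtain ⟨g, rfl⟩ := hφ q
    have h1 : (QuotientGroup.mk' N) (φ g) = (QuotientGroup.mk' N) (σ (ρ (φ g))) :=
      DFunLike.congr_fun key g
    have h2 : ρ (φ g) = 1 := hq
    rw [h2, map_one, map_one] at h1
    exact (QuotientGroup.eq_one_iff _).1 h1

end Pool.Agent.HC
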