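import Pool.Agent.HC.Crs
import Pool.Agent.HC.Perf
import Pool.Agent.HC.Retr
import Pool.Agent.HC.Lam

/-!
# HC module PartI: the algebraic part (diff 3)

Notation: `R = f₀.ker`, `S` generates `R` modulo `⁅R, R⁆` as a normal subgroup, `𝒦` is a finite set
of closed paths of the `H`-graph of `D`, `u` is a universal cocycle with values in a free group,
`P k` is a path from the base vertex `(i₀, 1)` to its translate `(i₀, f₀ (of k))`, and all the
translates of the paths of the elements of `S` have trivial `u`-label.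

PROOF.  (1) The group `Q`.  For every `j` choose a finite set `T j` generating `B j`.  Let `𝒲` be the
finite set consisting of the words `[inl ⟨si, sg⁻¹ b sg⟩, inr (j, true), inl ⟨ti, (tg⁻¹ b tg)⁻¹⟩,
inr (j, false)]` (`j ∈ J`, `b ∈ T j`; value `1` in `H` with `t j = (sg j)⁻¹ * tg j`) and of a word
`w L` as in `path_word` for every `L ∈ 𝒦` (with `p = q`, value `p.2⁻¹ * p.2 = 1`).  `exists_Q` gives
`Q, α, τ, ρ`.  `EdgeRel D α τ`: for `b ∈ T j` by the choice of `𝒲`; the set of `b ∈ B j` for which it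
holds is closed under products and inverses (`Subgroup.closure_induction`).
(2) `exists_lam` gives `β`, `lam`.  For `L ∈ 𝒦`: `lab lam g L = β * 1 * β⁻¹ = 1`, so `lam` is a
cocycle and there is `Λ : FreeGroup α₀ →* Q` with `Λ (u j h) = lam j h`; then
`Λ (lab u g L) = lab lam g L` for every `L` (induction, `map_mul`, `map_inv`).
(3) Let `w k` be a word as in `path_word` for `P k`, `M k = (w k).prod` evaluated in `Q`, and
`φ : FreeGroup (Fin n) →* Q`, `φ (of k) = M k`.  Then `ρ (φ x) = f₀ x` for all `x` (on generators: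
`ρ` of the value of a word is its value in `H` (induction on the word), which is
`1⁻¹ * f₀ (of k)`).  And `crs f₀ (fun k g => lab lam g (P k)) x g =
β (i₀, g) * φ x * (β (i₀, g * f₀ x))⁻¹` by `crs_unique` (on generators this is `path_word`).
(4) `ψ : R →* FreeGroup α₀`, `ψ x = crs f₀ (fun k g => lab u g (P k)) x 1`, is a homomorphism by
`crs_mul` (`f₀ x = 1`).  For `x = g s g⁻¹`, `s ∈ S`:
`crs .. (g * s * g⁻¹) 1 = crs .. g 1 * crs .. s (f₀ g) * crs .. g⁻¹ (f₀ g * f₀ s)`, the middle factor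
is `1` by `null`, `f₀ s = 1`, and `crs .. g 1 * crs .. g⁻¹ (f₀ g) = crs .. (g * g⁻¹) 1 = 1`.
So `ψ = 1` by `perf`.
(5) For `x ∈ R`: `crs f₀ (fun k g => lab lam g (P k)) x 1 = Λ (crs f₀ (fun k g => lab u g (P k)) x 1)
= 1` (`crs_map`), hence `β * φ x * β⁻¹ = 1` and `φ x = 1`.  So `f₀.ker ≤ φ.ker`, and there is
`σ : H →* Q` with `σ (f₀ x) = φ x` (`f₀` is surjective; e.g. `QuotientGroup.lift` and
`QuotientGroup.quotientKerEquivOfSurjective`, or `MonoidHom.liftOfRightInverse` /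
`MonoidHom.liftOfSurjective`).  `ρ (σ (f₀ x)) = ρ (φ x) = f₀ x`, so `ρ ∘ σ = id`; `fp_retract`.
-/

set_option autoImplicit false

namespace Pool.Agent.HC

theorem PartI.lab_map {H : Type} [Group H] {D : GG H} {Q Q' : Type} [Group Q] [Group Q']
    (Λ : Q →* Q') (u : D.J → H → Q) (f : D.J → H → Q') (h : ∀ j x, Λ (u j x) = f j x) (g : H)
    (L : List (Stp D)) : Λ (lab u g L) = lab f g L := by
  induction L with
  | nil => simp [lab]
  | cons s L ih =>
    rw [lab, lab, map_mul, ih]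
    congr 1
    unfold lab1
    split_ifs
    · exact h _ _
    · rw [map_inv, h]

theorem PartI.val_map {H : Type} [Group H] {I J : Type} {A : I → Subgroup H} {Q : Type} [Group Q]
    (α : ∀ i, A i →* Q) (τ : J → Q) (t : J → H) (ρ : Q →* H) (h1 : ∀ i (a : A i), ρ (α i a) = a)
    (h2 : ∀ j, ρ (τ j) = t j) (w : List ((Σ i, A i) ⊕ (J × Bool))) :
    ρ (w.map (syv α τ)).prod = (w.map (syv (fun i => (A i).subtype) t)).prod := by
  induction w with
  | nil => simp
  | cons a w ih =>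
    rw [List.map_cons, List.map_cons, List.prod_cons, List.prod_cons, map_mul, ih]
    congr 1
    rcases a with a | ⟨j, b⟩
    · exact h1 _ _
    · cases b
      · simp [syv, h2]
      · simp [syv, h2]

theorem partI {H : Type} [Group H] (D : GG H) (hI : Finite D.I) (hJ : Finite D.J)
    (hA : ∀ i, Group.IsFinitelyPresented (D.A i)) (hB : ∀ j, (D.B j).FG)
    (𝒦 : Set (List (Stp D))) (h𝒦 : 𝒦.Finite) (hcl : ∀ L ∈ 𝒦, ∃ p, Chn D p L p)
    {α₀ : Type} (u : D.J → H → FreeGroup α₀) (hu : UnivF D 𝒦 u)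
    {n : ℕ} (f₀ : FreeGroup (Fin n) →* H) (hf : Function.Surjective f₀)
    (S : Set (FreeGroup (Fin n))) (hS : ∀ s ∈ S, f₀ s = 1)
    (hR : f₀.ker = Subgroup.normalClosure S ⊔ ⁅f₀.ker, f₀.ker⁆)
    (i₀ : D.I) (P : Fin n → List (Stp D))
    (hP : ∀ k, Chn D (i₀, 1) (P k) (i₀, f₀ (FreeGroup.of k)))
    (null : ∀ s ∈ S, ∀ g : H, crs f₀ (fun k g => lab u g (P k)) s g = 1) :
    Group.IsFinitelyPresented H := by
  classical
  choose T hT using hB
  have hTB : ∀ j, ∀ b ∈ T j, b ∈ D.B j := fun j b hb => by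
    rw [← hT j]; exact Subgroup.subset_closure hb
  -- the words
  let ew : (Σ j : D.J, {b : H // b ∈ T j}) → List ((Σ i, D.A i) ⊕ (D.J × Bool)) := fun x =>
    [Sum.inl ⟨D.si x.1, ⟨_, D.hs x.1 x.2.1 (hTB x.1 x.2.1 x.2.2)⟩⟩, Sum.inr (x.1, true),
      Sum.inl ⟨D.ti x.1, (⟨_, D.ht x.1 x.2.1 (hTB x.1 x.2.1 x.2.2)⟩ : D.A (D.ti x.1))⁻¹⟩,
      Sum.inr (x.1, false)]
  choose pc hpc using hcl
  choose cw hcw1 hcw2 using fun L : ↥𝒦 => path_word D (pc L.1 L.2) (pc L.1 L.2) L.1 (hpc L.1 L.2)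
  choose wP hwP1 hwP2 using fun k => path_word D (i₀, 1) (i₀, f₀ (FreeGroup.of k)) (P k) (hP k)
  have : Finite ↥𝒦 := h𝒦
  have hfin : (Set.range ew ∪ Set.range cw).Finite := (Set.finite_range ew).union
    (Set.finite_range cw)
  obtain ⟨Q, instQ, α, τ, ρ, hQ, hρα, hρτ, hrel⟩ := exists_Q D.I D.J D.A hA
    (fun j => (D.sg j)⁻¹ * D.tg j) (Set.range ew ∪ Set.range cw) hfin (by
      rintro w (⟨x, rfl⟩ | ⟨L, rfl⟩)
      · simp only [ew, List.map_cons, List.map_nil, List.prod_cons, List.prod_nil, syv,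
          Subgroup.coe_subtype, Subgroup.coe_inv]
        group
      · rw [hcw1]; simp)
  have hedge : EdgeRel D α τ := by
    intro j b hb
    have hb' : b ∈ Subgroup.closure (T j : Set H) := by rw [hT j]; exact hb
    revert hb
    induction hb' using Subgroup.closure_induction with
    | mem x hx =>
      intro hb
      have h1 := hrel (ew ⟨j, x, hx⟩) (Or.inl ⟨_, rfl⟩)
      simp only [ew, List.map_cons, List.map_nil, List.prod_cons, List.prod_nil, syv,
        map_inv, mul_one] at h1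
      have h2 : α (D.si j) ⟨_, D.hs j x hb⟩ * τ j * (τ j * α (D.ti j) ⟨_, D.ht j x hb⟩)⁻¹ = 1 := by
        rw [mul_inv_rev, ← h1]
        simp only [mul_assoc]
      exact mul_inv_eq_one.1 h2
    | one =>
      intro hb
      have e1 : (⟨_, D.hs j 1 hb⟩ : D.A (D.si j)) = 1 := by ext; simp
      have e2 : (⟨_, D.ht j 1 hb⟩ : D.A (D.ti j)) = 1 := by ext; simp
      rw [e1, e2, map_one, map_one, one_mul, mul_one]
    | mul x y hx hy ihx ihy =>
      intro hb
      have hx' : x ∈ D.B j := by rw [← hT j]; exact hx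
      have hy' : y ∈ D.B j := by rw [← hT j]; exact hy
      have e1 : (⟨_, D.hs j _ hb⟩ : D.A (D.si j)) = ⟨_, D.hs j x hx'⟩ * ⟨_, D.hs j y hy'⟩ := by
        ext; simp [mul_assoc]
      have e2 : (⟨_, D.ht j _ hb⟩ : D.A (D.ti j)) = ⟨_, D.ht j x hx'⟩ * ⟨_, D.ht j y hy'⟩ := by
        ext; simp [mul_assoc]
      rw [e1, e2, map_mul, map_mul, mul_assoc, ihy hy', ← mul_assoc, ihx hx', mul_assoc]
    | inv x hx ihx =>
      intro hb
      have hx' : x ∈ D.B j := by rw [← hT j]; exact hx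
      have e1 : (⟨_, D.hs j _ hb⟩ : D.A (D.si j)) = (⟨_, D.hs j x hx'⟩)⁻¹ := by
        ext; simp [mul_assoc]
      have e2 : (⟨_, D.ht j _ hb⟩ : D.A (D.ti j)) = (⟨_, D.ht j x hx'⟩)⁻¹ := by
        ext; simp [mul_assoc]
      rw [e1, e2, map_inv, map_inv, inv_mul_eq_iff_eq_mul, ← mul_assoc, eq_mul_inv_iff_mul_eq]
      exact (ihx hx').symm
  obtain ⟨β, lam, hlam, hinv⟩ := exists_lam D α τ hedge
  have hcoc : Coc D 𝒦 lam := by
    refine ⟨hinv, fun L hL g => ?_⟩
    rw [hcw2 ⟨L, hL⟩ Q α τ β lam hlam g, hrel (cw ⟨L, hL⟩) (Or.inr ⟨_, rfl⟩)]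
    simp
  obtain ⟨Λ, hΛ⟩ := hu.2 Q lam hcoc
  have hΛL : ∀ g L, Λ (lab u g L) = lab lam g L := fun g L => PartI.lab_map Λ u lam hΛ g L
  let φ : FreeGroup (Fin n) →* Q := FreeGroup.lift fun k => ((wP k).map (syv α τ)).prod
  have hφof : ∀ k, φ (FreeGroup.of k) = ((wP k).map (syv α τ)).prod := fun k => by simp [φ]
  have hρφ : ∀ x, ρ (φ x) = f₀ x := by
    have h1 : ρ.comp φ = f₀ := by
      ext k
      rw [MonoidHom.comp_apply, hφof, PartI.val_map α τ _ ρ hρα hρτ, hwP1]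
      simp
    intro x
    exact congrArg (fun θ : FreeGroup (Fin n) →* H => θ x) h1
  have hcrs : ∀ x g, crs f₀ (fun k g => lab lam g (P k)) x g =
      β (i₀, g) * φ x * (β (i₀, g * f₀ x))⁻¹ := by
    intro x g
    refine crs_unique f₀ _ (fun x g => β (i₀, g) * φ x * (β (i₀, g * f₀ x))⁻¹) ?_ ?_ x g
    · intro w w' h
      simp only [map_mul, mul_assoc]
      simp
    · intro k h
      rw [hwP2 k Q α τ β lam hlam h, hφof]
      simp
  -- the homomorphism on the relation subgroup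
  let ψ : f₀.ker →* FreeGroup α₀ :=
    { toFun := fun x => crs f₀ (fun k g => lab u g (P k)) x.1 1
      map_one' := by
        show crs f₀ (fun k g => lab u g (P k)) 1 1 = 1
        exact crs_one _ _ _
      map_mul' := fun x y => by
        show crs f₀ (fun k g => lab u g (P k)) (x.1 * y.1) 1 = _
        have hx : f₀ x.1 = 1 := x.2
        rw [crs_mul, hx, mul_one] }
  have hψ := perf f₀.ker S (fun s hs => hS s hs) hR ψ (by
    rintro ⟨r, hr⟩ ⟨g, s, hs, h1⟩
    show crs f₀ (fun k g => lab u g (P k)) r 1 = 1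
    have h1' : r = g * s * g⁻¹ := h1
    rw [h1', crs_mul, crs_mul, null s hs, mul_one, map_mul, hS s hs, mul_one, ← crs_mul,
      mul_inv_cancel, crs_one])
  have hker : f₀.ker ≤ φ.ker := by
    intro x hx
    have h1 : crs f₀ (fun k g => lab u g (P k)) x 1 = 1 := hψ ⟨x, hx⟩
    have h2 := crs_map Λ f₀ (fun k g => lab u g (P k)) x 1
    rw [h1, map_one] at h2
    simp only [hΛL] at h2
    rw [hcrs, MonoidHom.mem_ker.1 hx, mul_one] at h2
    rw [MonoidHom.mem_ker]
    have h3 : β (i₀, 1) * φ x = β (i₀, 1) := mul_inv_eq_one.1 h2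
    exact mul_eq_left.1 h3
  let σ : H →* Q := f₀.liftOfSurjective hf ⟨φ, hker⟩
  have hσ : ∀ x, σ (f₀ x) = φ x := fun x =>
    MonoidHom.liftOfRightInverse_comp_apply f₀ _ _ ⟨φ, hker⟩ x
  refine fp_retract hQ ρ σ fun y => ?_
  obtain ⟨x, rfl⟩ := hf y
  rw [hσ, hρφ]

end Pool.Agent.HC
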