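import Pool.Agent.HC.Defs

/-!
# HC module QE: a finitely presented group assembled from subgroups (diff 2)

A syllable is an element of some `A i` or a letter `t_j^{±1}`; `syv α τ` evaluates syllables.

PROOF.  For each `i` choose (`Group.IsFinitelyPresented.exists_mulEquiv_presentedGroup`) `m i : ℕ`,
a finite set `s i` of `FreeGroup (Fin (m i))` and `e i : A i ≃* PresentedGroup (s i)`.  Let
`Γ = (Σ i, Fin (m i)) ⊕ J` (a finite type), `ι i : FreeGroup (Fin (m i)) →* FreeGroup Γ` the map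
induced by `x ↦ inl ⟨i, x⟩`, `s' = ⋃ i, ι i '' s i` (finite) and `P = PresentedGroup s'`, finitely
presented (instance).  There are homomorphisms `α₀ i : A i →* P` (`e i` followed by
`PresentedGroup.toGroup` of `x ↦ of (inl ⟨i, x⟩)`; the relations hold in `P`), elements
`τ₀ j = of (inr j)` and `ρ₀ : P →* H` (`toGroup`: `inl ⟨i, x⟩ ↦ (e i).symm (of x)`, `inr j ↦ t j`;
the relations hold since `(e i).symm` is a homomorphism from the presented group) with
`ρ₀ (α₀ i a) = a` (both are homomorphisms `PresentedGroup (s i) →* H` after `e i`, equal on the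
generators: `PresentedGroup.ext`) and `ρ₀ (τ₀ j) = t j`.
Let `N` be the normal closure in `P` of the finite set of the elements
`(w.map (syv α₀ τ₀)).prod`, `w ∈ 𝒲`, and `Q = P ⧸ N` (`Group.IsFinitelyPresented.quotient`), with
`α i = mk' ∘ α₀ i`, `τ j = mk' (τ₀ j)`, `ρ = QuotientGroup.lift` (`ρ₀` kills the elements of `𝒲` by
`h1`: `ρ₀` of the product is the product of the values `syv (subtype) t`).
-/

set_option autoImplicit false

namespace Pool.Agent.HC

/-- The value of a syllable. -/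
def syv {H : Type} [Group H] {I J : Type} {A : I → Subgroup H} {Q : Type} [Group Q]
    (α : ∀ i, A i →* Q) (τ : J → Q) : (Σ i, A i) ⊕ (J × Bool) → Q
  | Sum.inl a => α a.1 a.2
  | Sum.inr (j, true) => τ j
  | Sum.inr (j, false) => (τ j)⁻¹

/-- a word for a syllable -/
def QE_wd {H : Type} [Group H] {I J : Type} {A : I → Subgroup H} {n : I → ℕ}
    (σ : ∀ i, A i → FreeGroup (Fin (n i))) :
    (Σ i, A i) ⊕ (J × Bool) → FreeGroup ((Σ i, Fin (n i)) ⊕ J)
  | Sum.inl a => FreeGroup.map (fun x => Sum.inl ⟨a.1, x⟩) (σ a.1 a.2)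
  | Sum.inr (j, true) => FreeGroup.of (Sum.inr j)
  | Sum.inr (j, false) => (FreeGroup.of (Sum.inr j))⁻¹

theorem exists_Q {H : Type} [Group H] (I J : Type) [Finite I] [Finite J] (A : I → Subgroup H)
    (hA : ∀ i, Group.IsFinitelyPresented (A i)) (t : J → H)
    (𝒲 : Set (List ((Σ i, A i) ⊕ (J × Bool)))) (h𝒲 : 𝒲.Finite)
    (h1 : ∀ w ∈ 𝒲, (w.map (syv (fun i => (A i).subtype) t)).prod = 1) :
    ∃ (Q : Type) (_ : Group Q) (α : ∀ i, A i →* Q) (τ : J → Q) (ρ : Q →* H),
      Group.IsFinitelyPresented Q ∧ (∀ i (a : A i), ρ (α i a) = a) ∧ (∀ j, ρ (τ j) = t j) ∧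
        ∀ w ∈ 𝒲, (w.map (syv α τ)).prod = 1 := by
  classical
  have h0 : ∀ i, ∃ (n : ℕ) (φ : FreeGroup (Fin n) →* A i), Function.Surjective φ ∧
      φ.ker.IsFinitelyNormallyGenerated := fun i => (hA i).out
  choose n φ hφ S hS hSk using h0
  let σ : ∀ i, A i → FreeGroup (Fin (n i)) := fun i => Function.surjInv (hφ i)
  have hσ : ∀ i a, φ i (σ i a) = a := fun i a => Function.surjInv_eq (hφ i) a
  let ι : ∀ i, FreeGroup (Fin (n i)) →* FreeGroup ((Σ i, Fin (n i)) ⊕ J) := fun i =>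
    FreeGroup.map (fun x => Sum.inl ⟨i, x⟩)
  let Θ : FreeGroup ((Σ i, Fin (n i)) ⊕ J) →* H :=
    FreeGroup.lift (Sum.elim (fun x => (φ x.1 (FreeGroup.of x.2) : H)) t)
  have hΘ : ∀ i w, Θ (ι i w) = (φ i w : H) := by
    intro i w
    have h2 : Θ.comp (ι i) = (A i).subtype.comp (φ i) := by
      apply FreeGroup.ext_hom
      intro x
      show Θ (ι i (FreeGroup.of x)) = (φ i (FreeGroup.of x) : H)
      show FreeGroup.lift _ (FreeGroup.map _ (FreeGroup.of x)) = _
      rw [FreeGroup.map.of, FreeGroup.lift_apply_of]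
      rfl
    exact DFunLike.congr_fun h2 w
  have hΘt : ∀ j, Θ (FreeGroup.of (Sum.inr j)) = t j := by
    intro j
    show FreeGroup.lift _ (FreeGroup.of (Sum.inr j)) = _
    rw [FreeGroup.lift_apply_of]
    rfl
  have hw : ∀ s : (Σ i, A i) ⊕ (J × Bool), Θ (QE_wd σ s) =
      syv (fun i => (A i).subtype) t s := by
    rintro (⟨i, a⟩ | ⟨j, _ | _⟩)
    · show Θ (ι i (σ i a)) = a
      rw [hΘ, hσ]
    · show Θ ((FreeGroup.of (Sum.inr j))⁻¹) = (t j)⁻¹
      rw [map_inv, hΘt]
    · exact hΘt j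
  let R : Set (FreeGroup ((Σ i, Fin (n i)) ⊕ J)) :=
    (⋃ i, ι i '' S i) ∪ (fun w => (w.map (QE_wd σ)).prod) '' 𝒲
  have hR : R.Finite :=
    (Set.finite_iUnion fun i => (hS i).image _).union (h𝒲.image _)
  let N := Subgroup.normalClosure R
  have hN : N ≤ Θ.ker := by
    apply Subgroup.normalClosure_le_normal
    rintro r (hr | ⟨w, hw', rfl⟩)
    · obtain ⟨i, s, hs, rfl⟩ := Set.mem_iUnion.1 hr
      show Θ (ι i s) = 1
      have h2 : s ∈ (φ i).ker := by
        rw [← hSk i]
        exact Subgroup.subset_normalClosure hs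
      rw [hΘ, MonoidHom.mem_ker.1 h2]
      rfl
    · show Θ (w.map (QE_wd σ)).prod = 1
      rw [map_list_prod, List.map_map, ← h1 w hw']
      congr 1
      exact List.map_congr_left fun s _ => hw s
  have hk : ∀ i, (φ i).ker ≤ ((QuotientGroup.mk' N).comp (ι i)).ker := by
    intro i
    rw [← hSk i]
    apply Subgroup.normalClosure_le_normal
    intro s hs
    show (QuotientGroup.mk' N) (ι i s) = 1
    apply (QuotientGroup.eq_one_iff _).2
    exact Subgroup.subset_normalClosure (Or.inl (Set.mem_iUnion.2 ⟨i, s, hs, rfl⟩))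
  let α : ∀ i, A i →* (FreeGroup ((Σ i, Fin (n i)) ⊕ J) ⧸ N) := fun i =>
    (φ i).liftOfRightInverse (σ i) (hσ i) ⟨(QuotientGroup.mk' N).comp (ι i), hk i⟩
  have hα : ∀ i a, α i a = QuotientGroup.mk' N (ι i (σ i a)) := by
    intro i a
    have h2 := (φ i).liftOfRightInverse_comp_apply (σ i) (hσ i)
      ⟨(QuotientGroup.mk' N).comp (ι i), hk i⟩ (σ i a)
    rw [hσ] at h2
    exact h2
  refine ⟨FreeGroup ((Σ i, Fin (n i)) ⊕ J) ⧸ N, inferInstance, α,
    fun j => QuotientGroup.mk' N (FreeGroup.of (Sum.inr j)),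
    QuotientGroup.lift N Θ (fun x hx => hN hx), ?_, ?_, ?_, ?_⟩
  · exact Group.IsFinitelyPresented.quotient N ⟨R, hR, rfl⟩
  · intro i a
    rw [hα]
    show Θ (ι i (σ i a)) = a
    rw [hΘ, hσ]
  · intro j
    exact hΘt j
  · intro w hw'
    have h2 : ∀ s : (Σ i, A i) ⊕ (J × Bool),
        syv α (fun j => QuotientGroup.mk' N (FreeGroup.of (Sum.inr j))) s =
          QuotientGroup.mk' N (QE_wd σ s) := by
      rintro (⟨i, a⟩ | ⟨j, _ | _⟩)
      · exact hα i a
      · rfl
      · rfl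
    have h3 : (w.map (syv α (fun j => QuotientGroup.mk' N (FreeGroup.of (Sum.inr j))))).prod =
        QuotientGroup.mk' N (w.map (QE_wd σ)).prod := by
      rw [map_list_prod, List.map_map]
      congr 1
      exact List.map_congr_left fun s _ => h2 s
    rw [h3]
    apply (QuotientGroup.eq_one_iff _).2
    exact Subgroup.subset_normalClosure (Or.inr ⟨w, hw', rfl⟩)

end Pool.Agent.HC
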