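import Pool.Agent.HC.Defs

/-!
# HC module UniA: the recursion for the universal cocycle (diff 3)

`gn j h` is the generator attached to the edge `h B_j`.  `Mt T d j h g x₁ x₂ x₃ x₄ σ` says that the
edge `(j, h)` is matched in the square `g • (x₁, x₂, x₃, x₄)`: `x_i ∈ W` form a square, `g • x₁` is
its top vertex, `g • x₄ = a (g • x₁)` its parent (so `g • x₂ = b (g • x₁)`), and the step
`g • st x₁ x₂` is the edge `(j, h)` traversed in the direction `σ`.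
`UU n` is defined by recursion: `UU 0 = gn`; `UU (n+1) j h = gn j h` if there is no match, and for
a (chosen) match the value such that the label of the square is `1`:
`UU(step 12) * UU n(step 23) * UU n(step 34) * gn(step 41) = 1`.

PROOFS.
* `gn_inv`: `(h * b : H ⧸ B) = h` for `b ∈ B` (`QuotientGroup.eq`).
* `mt_uniq`: two matches `(g, x, σ)`, `(g', x', σ')` of `(j, h)`.  By `T.stp` the steps `g • st x₁ x₂`
  and `g' • st x'₁ x'₂` lie above the pair `h • pe j` or its reverse (`b ∈ B j` fixes `pe j`: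
  `g • (st x₁ x₂).2.1 • pe j = h • pe j` since `h⁻¹ * (g * k) ∈ B j`), so
  `{g • x₁, g • x₂} = {g' • x'₁, g' • x'₂}`; the top vertices have larger `r`, so `g • x₁ = g' • x'₁`,
  `g • x₂ = g' • x'₂`, and `σ = σ'` (the pair `h • pe j` has different components).  `g • x₄` and
  `g' • x'₄` are both `a` of the top vertex; `g • x₃ = z (top) = g' • x'₃` by `d.sq`.  So
  `γ = g'⁻¹ * g` maps `x_i` to `x'_i`, and by `T.SqReq` (applied to the rotated squares)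
  `T.Req γ x₂ x₃`, `T.Req γ x₃ x₄`, `T.Req γ x₄ x₁`.
* `req_lab`: if `f` is invariant and `T.Req γ x y` then
  `lab1 f (g' * γ) (st x y) = lab1 f g' (st (γ • x) (γ • y))`: same edge index and direction, and
  `g' * γ * k = (g' * k') * (k'⁻¹ * (γ * k))` with the last factor in `B`.
* `UU_inv`: by induction on `n` `UU n` is invariant: for `b ∈ B j` the matches of `(j, h)` and of
  `(j, h * b)` are the same (`(h b)⁻¹ (g k) ∈ B ↔ h⁻¹ (g k) ∈ B`), so the chosen ones have the same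
  value by `mt_uniq` and `req_lab` (for `f = UU n` and `f = gn`).  It may be easier to note that the
  predicates `Mt T d j (h * b)` and `Mt T d j h` are equal (`funext`, `propext`), so that the chosen
  witnesses are equal.
* `UU_match`: for any match `(g, x, σ)` of `(j, h)`:
  `lab1 (UU (n+1)) g (st x₁ x₂) * lab1 (UU n) g (st x₂ x₃) * lab1 (UU n) g (st x₃ x₄) *
  lab1 gn g (st x₄ x₁) = 1`: for the chosen match by definition, for another one by `mt_uniq`,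
  `req_lab` and invariance.
* `UU_univ`: let `f` be a cocycle.  Define `Λ` on the generator `⟨j, q⟩` as `f j q.out`; then
  `Λ (gn j h) = f j h` by invariance, and by induction `Λ (UU n j h) = f j h`: in the matched case
  `Λ` of the defining relation, and the relation `lab f g [st x₁ x₂, st x₂ x₃, st x₃ x₄, st x₄ x₁] = 1`
  of `f` (`T.cells`).
-/

set_option autoImplicit false

namespace Pool.Agent.HC

variable {H : Type} [Group H] {V : Type} [MulAction H V] {X : SimpleGraph V} {W : Set V} {p : V}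

/-- Generators: the edges of `D`. -/
abbrev EE (T : Lft H V X W) : Type := Σ j : T.D.J, H ⧸ T.D.B j

/-- The generator attached to the edge `h B_j`. -/
def gn (T : Lft H V X W) (j : T.D.J) (h : H) : FreeGroup (EE T) :=
  FreeGroup.of ⟨j, (h : H ⧸ T.D.B j)⟩

/-- The edge `(j, h)` is matched in the square `g • (x₁, x₂, x₃, x₄)`. -/
def Mt (T : Lft H V X W) (d : Desc X p) (j : T.D.J) (h : H)
    (m : H × V × V × V × V × Bool) : Prop :=
  IsSq X m.2.1 m.2.2.1 m.2.2.2.1 m.2.2.2.2.1 ∧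
    (m.2.1 ∈ W ∧ m.2.2.1 ∈ W ∧ m.2.2.2.1 ∈ W ∧ m.2.2.2.2.1 ∈ W) ∧
    d.r (m.1 • m.2.1) = d.r (m.1 • m.2.2.1) + 1 ∧
    d.r (m.1 • m.2.1) = d.r (m.1 • m.2.2.2.2.1) + 1 ∧
    m.1 • m.2.2.2.2.1 = d.a (m.1 • m.2.1) ∧
    (T.st m.2.1 m.2.2.1).1 = j ∧ (T.st m.2.1 m.2.2.1).2.2 = m.2.2.2.2.2 ∧
    h⁻¹ * (m.1 * (T.st m.2.1 m.2.2.1).2.1) ∈ T.D.B j

open Classical in
/-- The recursion. -/
noncomputable def UU (T : Lft H V X W) (d : Desc X p) :
    ℕ → T.D.J → H → FreeGroup (EE T)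
  | 0, j, h => gn T j h
  | n + 1, j, h =>
    if hm : ∃ m, Mt T d j h m then
      let m := hm.choose
      let v := (lab1 (UU T d n) m.1 (T.st m.2.2.1 m.2.2.2.1) *
        lab1 (UU T d n) m.1 (T.st m.2.2.2.1 m.2.2.2.2.1) *
        lab1 (gn T) m.1 (T.st m.2.2.2.2.1 m.2.1))⁻¹
      if m.2.2.2.2.2 then v else v⁻¹
    else gn T j h

theorem gn_inv (T : Lft H V X W) : InvF T.D (gn T) := by
  intro j h b hb
  unfold gn
  rw [QuotientGroup.mk_mul_of_mem h hb]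

theorem req_lab (T : Lft H V X W) {Q : Type} [Group Q] (f : T.D.J → H → Q) (hf : InvF T.D f)
    (γ : H) (x y : V) (h : T.Req γ x y) (g : H) :
    lab1 f (g * γ) (T.st x y) = lab1 f g (T.st (γ • x) (γ • y)) := by
  obtain ⟨h1, h2, h3⟩ := h
  unfold lab1
  rw [h1, h2]
  have h4 : g * γ * (T.st x y).2.1 = g * (T.st (γ • x) (γ • y)).2.1 *
      ((T.st (γ • x) (γ • y)).2.1⁻¹ * (γ * (T.st x y).2.1)) := by group
  rw [h4, hf _ _ _ h3]

theorem UniA_pair (T : Lft H V X W) {j : T.D.J} {h g : H} {x₁ x₂ : V} {σ : Bool} (h1 : x₁ ∈ W)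
    (h2 : x₂ ∈ W) (hadj : X.Adj x₁ x₂) (hj : (T.st x₁ x₂).1 = j) (hs : (T.st x₁ x₂).2.2 = σ)
    (hB : h⁻¹ * (g * (T.st x₁ x₂).2.1) ∈ T.D.B j) :
    h • T.pe j = if σ then (g • x₁, g • x₂) else (g • x₂, g • x₁) := by
  have h3 := T.stp x₁ h1 x₂ h2 hadj
  rw [hj, hs] at h3
  have h4 := T.Bfix j _ hB
  have h5 : h • T.pe j = g • ((T.st x₁ x₂).2.1 • T.pe j) := by
    have h6 : h • ((h⁻¹ * (g * (T.st x₁ x₂).2.1)) • T.pe j) = h • T.pe j := by rw [h4]
    rw [← h6, smul_smul, smul_smul]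
    congr 1
    group
  rw [h5, h3]
  cases σ
  · simp
  · simp

theorem UniA_sq (hadj : ∀ (g : H) (x y : V), X.Adj x y → X.Adj (g • x) (g • y)) {x₁ x₂ x₃ x₄ : V}
    (h : IsSq X x₁ x₂ x₃ x₄) (g : H) : IsSq X (g • x₁) (g • x₂) (g • x₃) (g • x₄) := by
  obtain ⟨h1, h2, h3, h4, h5, h6⟩ := h
  exact ⟨hadj g _ _ h1, hadj g _ _ h2, hadj g _ _ h3, hadj g _ _ h4,
    fun he => h5 (MulAction.injective g he), fun he => h6 (MulAction.injective g he)⟩

theorem UniA_rot {x₁ x₂ x₃ x₄ : V} (h : IsSq X x₁ x₂ x₃ x₄) : IsSq X x₂ x₃ x₄ x₁ := by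
  obtain ⟨h1, h2, h3, h4, h5, h6⟩ := h
  exact ⟨h2, h3, h4, h1, h6, h5.symm⟩

theorem mt_uniq (T : Lft H V X W) (d : Desc X p)
    (hadj : ∀ (g : H) (x y : V), X.Adj x y → X.Adj (g • x) (g • y)) (hT : T.SqReq)
    (j : T.D.J) (h : H) (g g' : H) (x₁ x₂ x₃ x₄ x'₁ x'₂ x'₃ x'₄ : V) (σ σ' : Bool)
    (h₁ : Mt T d j h (g, x₁, x₂, x₃, x₄, σ)) (h₂ : Mt T d j h (g', x'₁, x'₂, x'₃, x'₄, σ')) :
    σ = σ' ∧ g • x₁ = g' • x'₁ ∧ g • x₂ = g' • x'₂ ∧ g • x₃ = g' • x'₃ ∧ g • x₄ = g' • x'₄ ∧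
      T.Req (g'⁻¹ * g) x₁ x₂ ∧ T.Req (g'⁻¹ * g) x₂ x₃ ∧ T.Req (g'⁻¹ * g) x₃ x₄ ∧
      T.Req (g'⁻¹ * g) x₄ x₁ := by
  obtain ⟨hsq, ⟨w1, w2, w3, w4⟩, r1, r2, ha, hj, hs, hB⟩ := h₁
  obtain ⟨hsq', ⟨w1', w2', w3', w4'⟩, r1', r2', ha', hj', hs', hB'⟩ := h₂
  simp only at hsq w1 w2 w3 w4 r1 r2 ha hj hs hB hsq' w1' w2' w3' w4' r1' r2' ha' hj' hs' hB'
  have p1 := UniA_pair T w1 w2 hsq.1 hj hs hB
  have p2 := UniA_pair T w1' w2' hsq'.1 hj' hs' hB'
  rw [p1] at p2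
  have hmain : σ = σ' ∧ g • x₁ = g' • x'₁ ∧ g • x₂ = g' • x'₂ := by
    cases σ <;> cases σ' <;> simp only [if_true, if_false, Bool.false_eq_true, Prod.mk.injEq] at p2
    · exact ⟨rfl, p2.2, p2.1⟩
    · exfalso
      rw [p2.1, p2.2] at r1
      omega
    · exfalso
      rw [p2.1, p2.2] at r1
      omega
    · exact ⟨rfl, p2.1, p2.2⟩
  obtain ⟨m1, m2, m3⟩ := hmain
  have m4 : g • x₄ = g' • x'₄ := by rw [ha, ha', m2]
  have m5 : g • x₃ = g' • x'₃ := by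
    have s1 := (d.sq _ _ _ _ (UniA_sq hadj hsq g) r1 r2).1
    have s2 := (d.sq _ _ _ _ (UniA_sq hadj hsq' g') r1' r2').1
    rw [s1, s2, m2]
  have hγ : ∀ x x' : V, g • x = g' • x' → (g'⁻¹ * g) • x = x' := by
    intro x x' hx
    rw [mul_smul, hx, inv_smul_smul]
  have g1 : (g'⁻¹ * g) • x₁ ∈ W := by rw [hγ _ _ m2]; exact w1'
  have g2 : (g'⁻¹ * g) • x₂ ∈ W := by rw [hγ _ _ m3]; exact w2'
  have g3 : (g'⁻¹ * g) • x₃ ∈ W := by rw [hγ _ _ m5]; exact w3'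
  have g4 : (g'⁻¹ * g) • x₄ ∈ W := by rw [hγ _ _ m4]; exact w4'
  have q1 := hsq
  have q2 := UniA_rot q1
  have q3 := UniA_rot q2
  have q4 := UniA_rot q3
  exact ⟨m1, m2, m3, m5, m4, hT _ _ _ _ q1 _ w1 w2 w3 w4 g1 g2 g3 g4,
    hT _ _ _ _ q2 _ w2 w3 w4 w1 g2 g3 g4 g1, hT _ _ _ _ q3 _ w3 w4 w1 w2 g3 g4 g1 g2,
    hT _ _ _ _ q4 _ w4 w1 w2 w3 g4 g1 g2 g3⟩

theorem UniA_mt_inv (T : Lft H V X W) (d : Desc X p) (j : T.D.J) (h b : H) (hb : b ∈ T.D.B j) :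
    Mt T d j (h * b) = Mt T d j h := by
  funext m
  have h1 : (h * b)⁻¹ * (m.1 * (T.st m.2.1 m.2.2.1).2.1) =
      b⁻¹ * (h⁻¹ * (m.1 * (T.st m.2.1 m.2.2.1).2.1)) := by group
  unfold Mt
  rw [h1, Subgroup.mul_mem_cancel_left _ (inv_mem hb)]

open Classical in
theorem UniA_dite {M Q : Type} (P P' : M → Prop) (hP : P = P') (F : M → Q) (G : Q) :
    (if hm : ∃ m, P m then F hm.choose else G) = (if hm : ∃ m, P' m then F hm.choose else G) := by
  subst hP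
  rfl

/-- the value for a match -/
noncomputable def UniA_val (T : Lft H V X W) (d : Desc X p) (n : ℕ)
    (m : H × V × V × V × V × Bool) : FreeGroup (EE T) :=
  if m.2.2.2.2.2 then
    (lab1 (UU T d n) m.1 (T.st m.2.2.1 m.2.2.2.1) *
        lab1 (UU T d n) m.1 (T.st m.2.2.2.1 m.2.2.2.2.1) *
        lab1 (gn T) m.1 (T.st m.2.2.2.2.1 m.2.1))⁻¹
  else
    ((lab1 (UU T d n) m.1 (T.st m.2.2.1 m.2.2.2.1) *
        lab1 (UU T d n) m.1 (T.st m.2.2.2.1 m.2.2.2.2.1) *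
        lab1 (gn T) m.1 (T.st m.2.2.2.2.1 m.2.1))⁻¹)⁻¹

open Classical in
theorem UniA_succ (T : Lft H V X W) (d : Desc X p) (n : ℕ) (j : T.D.J) (h : H) :
    UU T d (n + 1) j h = if hm : ∃ m, Mt T d j h m then UniA_val T d n hm.choose else gn T j h :=
  rfl

theorem UU_inv (T : Lft H V X W) (d : Desc X p) (n : ℕ) : InvF T.D (UU T d n) := by
  intro j h b hb
  cases n with
  | zero => exact gn_inv T j h b hb
  | succ n =>
    rw [UniA_succ, UniA_succ, gn_inv T j h b hb]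
    exact UniA_dite _ _ (UniA_mt_inv T d j h b hb) _ _

theorem UU_zero (T : Lft H V X W) (d : Desc X p) (n : ℕ) (j : T.D.J) (h : H)
    (hm : ¬ ∃ m, Mt T d j h m) : UU T d n j h = gn T j h := by
  cases n with
  | zero => rfl
  | succ n => rw [UniA_succ, dif_neg hm]

theorem UU_match (T : Lft H V X W) (d : Desc X p)
    (hadj : ∀ (g : H) (x y : V), X.Adj x y → X.Adj (g • x) (g • y)) (hT : T.SqReq)
    (n : ℕ) (j : T.D.J) (h : H) (g : H) (x₁ x₂ x₃ x₄ : V) (σ : Bool)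
    (hm : Mt T d j h (g, x₁, x₂, x₃, x₄, σ)) :
    lab1 (UU T d (n + 1)) g (T.st x₁ x₂) * lab1 (UU T d n) g (T.st x₂ x₃) *
      lab1 (UU T d n) g (T.st x₃ x₄) * lab1 (gn T) g (T.st x₄ x₁) = 1 := by
  have hex : ∃ m, Mt T d j h m := ⟨_, hm⟩
  have h1 := UniA_succ T d n j h
  rw [dif_pos hex] at h1
  have h2 := hex.choose_spec
  generalize hex.choose = m at h1 h2
  obtain ⟨g', x'₁, x'₂, x'₃, x'₄, σ'⟩ := m
  obtain ⟨e0, e1, e2, e3, e4, q1, q2, q3, q4⟩ := mt_uniq T d hadj hT j h g g' x₁ x₂ x₃ x₄ x'₁ x'₂ x'₃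
    x'₄ σ σ' hm h2
  have hγ : ∀ x x' : V, g • x = g' • x' → (g'⁻¹ * g) • x = x' := by
    intro x x' hx
    rw [mul_smul, hx, inv_smul_smul]
  have hg : g' * (g'⁻¹ * g) = g := by group
  have l2 := req_lab T (UU T d n) (UU_inv T d n) _ _ _ q2 g'
  have l3 := req_lab T (UU T d n) (UU_inv T d n) _ _ _ q3 g'
  have l4 := req_lab T (gn T) (gn_inv T) _ _ _ q4 g'
  rw [hg, hγ _ _ e2, hγ _ _ e3] at l2
  rw [hg, hγ _ _ e3, hγ _ _ e4] at l3
  rw [hg, hγ _ _ e4, hγ _ _ e1] at l4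
  unfold UniA_val at h1
  simp only at h1
  rw [← l2, ← l3, ← l4] at h1
  obtain ⟨-, -, -, -, -, hj, hs, hB⟩ := hm
  simp only at hj hs hB
  have h3 : UU T d (n + 1) j (g * (T.st x₁ x₂).2.1) = UU T d (n + 1) j h := by
    have h4 : g * (T.st x₁ x₂).2.1 = h * (h⁻¹ * (g * (T.st x₁ x₂).2.1)) := by group
    rw [h4, UU_inv T d (n + 1) j h _ hB]
  have h5 : lab1 (UU T d (n + 1)) g (T.st x₁ x₂) =
      (lab1 (UU T d n) g (T.st x₂ x₃) * lab1 (UU T d n) g (T.st x₃ x₄) *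
        lab1 (gn T) g (T.st x₄ x₁))⁻¹ := by
    conv_lhs => unfold lab1
    rw [hj, hs, h3, h1, e0]
    cases σ'
    · simp
    · simp
  rw [h5]
  group

theorem UniA_map (T : Lft H V X W) {Q Q' : Type} [Group Q] [Group Q'] (Λ : Q' →* Q)
    (F : T.D.J → H → Q') (f : T.D.J → H → Q) (hF : ∀ j h, Λ (F j h) = f j h) (g : H)
    (s : Stp T.D) : Λ (lab1 F g s) = lab1 f g s := by
  unfold lab1
  split_ifs
  · rw [hF]
  · rw [map_inv, hF]

theorem UU_univ (T : Lft H V X W) (d : Desc X p) {Q : Type} [Group Q] (f : T.D.J → H → Q)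
    (hf : Coc T.D T.cells f) :
    ∃ Λ : FreeGroup (EE T) →* Q, ∀ n j h, Λ (UU T d n j h) = f j h := by
  refine ⟨FreeGroup.lift (fun e : EE T => f e.1 e.2.out), ?_⟩
  have h0 : ∀ j h, FreeGroup.lift (fun e : EE T => f e.1 e.2.out) (gn T j h) = f j h := by
    intro j h
    unfold gn
    rw [FreeGroup.lift_apply_of]
    simp only
    obtain ⟨b, hb⟩ := QuotientGroup.mk_out_eq_mul (T.D.B j) h
    rw [hb, hf.1 _ _ _ b.2]
  intro n
  induction n with
  | zero => exact h0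
  | succ n ih =>
    intro j h
    rw [UniA_succ]
    split_ifs with hm
    · have h2 := hm.choose_spec
      generalize hm.choose = m at h2
      obtain ⟨g, x₁, x₂, x₃, x₄, σ⟩ := m
      obtain ⟨hsq, ⟨w1, w2, w3, w4⟩, -, -, -, hj, hs, hB⟩ := h2
      simp only at hsq w1 w2 w3 w4 hj hs hB
      have hc := hf.2 _ ⟨x₁, x₂, x₃, x₄, hsq, w1, w2, w3, w4, rfl⟩ g
      simp only [lab, mul_one] at hc
      have h3 : (lab1 f g (T.st x₂ x₃) * lab1 f g (T.st x₃ x₄) * lab1 f g (T.st x₄ x₁))⁻¹ =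
          lab1 f g (T.st x₁ x₂) := by
        rw [inv_eq_iff_mul_eq_one, mul_assoc (lab1 f g (T.st x₂ x₃)), mul_eq_one_iff_inv_eq]
        rw [mul_eq_one_iff_inv_eq] at hc
        rw [← hc]
        group
      have h4 : lab1 f g (T.st x₁ x₂) = if σ then f j h else (f j h)⁻¹ := by
        have h5 : f j (g * (T.st x₁ x₂).2.1) = f j h := by
          have h6 : g * (T.st x₁ x₂).2.1 = h * (h⁻¹ * (g * (T.st x₁ x₂).2.1)) := by group
          rw [h6, hf.1 j h _ hB]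
        unfold lab1
        rw [hj, hs, h5]
      unfold UniA_val
      simp only
      cases σ
      · simp only [Bool.false_eq_true, if_false] at h4 ⊢
        rw [inv_inv, map_mul, map_mul, UniA_map T _ _ f ih, UniA_map T _ _ f ih,
          UniA_map T _ _ f h0, ← inv_inj, h3, h4]
      · simp only [if_true] at h4 ⊢
        rw [map_inv, map_mul, map_mul, UniA_map T _ _ f ih, UniA_map T _ _ f ih,
          UniA_map T _ _ f h0, h3, h4]
    · exact h0 j h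

end Pool.Agent.HC
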